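import Pool.Agent.Helper4.RB.Defs

/-!
# Block RB-A1: cardinalities

All are standard. `mk_Lam` etc.: `Cardinal.mk_toType`, `card_omega`. `mk_Node`: `Cardinal.mk_list_eq_mk`
(infinite type). `ℵ_{ω+1} = succ ℵ_ω` is regular (`Cardinal.isRegular_aleph_succ` /
`isRegular_succ`), so a family of `≤ ℵ_ω` elements of `Lam` is bounded (cofinality;
`Ordinal.ToType` of the initial ordinal of a regular cardinal). `mk_Iio_Lam`: a proper initial
segment of `(ω_ (ω+1)).ToType` has cardinality `< ℵ_{ω+1}` (`Cardinal.mk_Iio_ord_toType` or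
`mk_Iio_ord_lt`). `card_unbdd`: contrapositive of `bdd_Lam_set`. `exists_kap`: `ℵ_ω = sup ℵ_n`
(`Cardinal.lt_aleph...`, normality of `aleph`; `c < ℵ_ω` gives `c ≤ ℵ_n` for some `n`).
`kap_union`: `kap n = ℵ_{n+2}` is the successor of `ℵ_{n+1} ≥ ℵ_1`, so every `Z i` has size
`≤ ℵ_{n+1}` and `#(⋃ Z i) ≤ ℵ_1 * ℵ_{n+1} = ℵ_{n+1}`.
-/

set_option autoImplicit false

namespace Pool.Agent.Helper4.RB

open Cardinal Ordinal Set

theorem mk_Lam : #Lam = ℵ_ (ω + 1) := by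
  rw [Cardinal.mk_toType, card_omega]

theorem mk_Ent : #Ent = ℵ_ ω := by
  rw [Cardinal.mk_toType, card_omega]

theorem mk_Om1 : #Om1 = ℵ_ 1 := by
  rw [Cardinal.mk_toType, card_omega]

theorem mk_Node : #Node = ℵ_ ω := by
  have : Infinite Ent := by
    rw [Cardinal.infinite_iff, mk_Ent]
    exact aleph0_le_aleph _
  rw [Cardinal.mk_list_eq_mk, mk_Ent]

private theorem cof_Lam46 : Order.cof Lam = ℵ_ (ω + 1) := by
  rw [Ordinal.cof_toType, cof_omega_add_one]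

private theorem cof_Om146 : Order.cof Om1 = ℵ_ 1 := by
  have h := cof_omega_add_one 0
  rw [zero_add] at h
  rw [Ordinal.cof_toType, h]

theorem bdd_Lam_set {X : Set Lam} (h : #X ≤ ℵ_ ω) : ∃ β, ∀ x ∈ X, x < β := by
  by_contra hc
  push Not at hc
  have h1 : IsCofinal X := hc
  have h2 := Order.cof_le h1
  rw [cof_Lam46] at h2
  have h3 : ℵ_ ω < ℵ_ (ω + 1) := aleph_lt_aleph.2 (lt_add_one _)
  exact absurd (h2.trans h) (not_le.2 h3)

theorem bdd_Lam {ι : Type} (h : #ι ≤ ℵ_ ω) (f : ι → Lam) : ∃ β, ∀ i, f i < β := by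
  obtain ⟨β, hβ⟩ := bdd_Lam_set (X := range f) (mk_range_le.trans h)
  exact ⟨β, fun i => hβ _ (mem_range_self i)⟩

theorem exists_gt_Lam (β : Lam) : ∃ γ : Lam, β < γ := by
  obtain ⟨γ, hγ⟩ := bdd_Lam_set (X := {β}) (by
    rw [mk_singleton]
    exact one_le_aleph0.trans (aleph0_le_aleph _))
  exact ⟨γ, hγ β rfl⟩

theorem card_unbdd {X : Set Lam} (h : ∀ β, ∃ x ∈ X, β < x) : ℵ_ ω < #X := by
  by_contra hc
  obtain ⟨β, hβ⟩ := bdd_Lam_set (not_lt.1 hc)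
  obtain ⟨x, hx, hx'⟩ := h β
  exact absurd (hβ x hx) (not_lt.2 hx'.le)

theorem mk_Iio_Lam (β : Lam) : #(Iio β) ≤ ℵ_ ω := by
  have h1 : ord #Lam = typeLT Lam := by rw [mk_Lam, ord_aleph, type_toType]
  have h2 := mk_Iio_lt β h1
  rw [mk_Lam, ← succ_aleph, Order.lt_succ_iff] at h2
  exact h2

theorem countable_Iio_Om1 (i : Om1) : (Iio i).Countable := by
  have h1 : ord #Om1 = typeLT Om1 := by rw [mk_Om1, ord_aleph, type_toType]
  have h2 := mk_Iio_lt i h1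
  rw [mk_Om1, ← succ_aleph0, Order.lt_succ_iff] at h2
  rwa [← le_aleph0_iff_set_countable]

theorem bdd_Om1 {X : Set Om1} (h : X.Countable) : ∃ i, ∀ x ∈ X, x < i := by
  by_contra hc
  push Not at hc
  have h1 : IsCofinal X := hc
  have h2 := Order.cof_le h1
  rw [cof_Om146] at h2
  have h3 : ℵ₀ < ℵ_ 1 := aleph0_lt_aleph.2 zero_lt_one
  exact absurd (h2.trans (le_aleph0_iff_set_countable.2 h)) (not_le.2 h3)

theorem exists_gt_Om1 (i : Om1) : ∃ j : Om1, i < j := by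
  obtain ⟨j, hj⟩ := bdd_Om1 (countable_singleton i)
  exact ⟨j, hj i rfl⟩

theorem aleph0_le_kap (n : ℕ) : ℵ₀ ≤ kap n := aleph0_le_aleph _

theorem kap_mono {m n : ℕ} (h : m ≤ n) : kap m ≤ kap n := by
  refine aleph_le_aleph.2 ?_
  gcongr

theorem kap_lt (n : ℕ) : kap n < ℵ_ ω := by
  refine aleph_lt_aleph.2 ?_
  have h : ((n : Ordinal) + 2) = ((n + 2 : ℕ) : Ordinal) := by push_cast; rfl
  rw [h]
  exact natCast_lt_omega0 _

theorem exists_kap {c : Cardinal.{0}} (h : c < ℵ_ ω) : ∃ n, ∀ m, n ≤ m → c < kap m := by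
  obtain ⟨a, ha, hc⟩ := (isNormal_aleph.lt_iff_exists_lt isSuccLimit_omega0).1 h
  obtain ⟨n, rfl⟩ := lt_omega0.1 ha
  refine ⟨n, fun m hm => hc.trans_le (aleph_le_aleph.2 ?_)⟩
  calc (n : Ordinal) ≤ (m : Ordinal) := by exact_mod_cast hm
    _ ≤ m + 2 := le_self_add

private theorem kap_succ46 (n : ℕ) : kap n = Order.succ (ℵ_ ((n : Ordinal) + 1)) := by
  rw [succ_aleph, kap, add_assoc, one_add_one_eq_two]

theorem kap_union (n : ℕ) {ι : Type} (h : #ι ≤ ℵ_ 1) (Z : ι → Set Ent)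
    (hZ : ∀ i, #(Z i) < kap n) : #(⋃ i, Z i : Set Ent) < kap n := by
  rw [kap_succ46, Order.lt_succ_iff]
  refine (mk_iUnion_le _).trans ?_
  have h1 : ℵ_ 1 ≤ ℵ_ ((n : Ordinal) + 1) := aleph_le_aleph.2 le_add_self
  have h2 : ⨆ i, #(Z i) ≤ ℵ_ ((n : Ordinal) + 1) := by
    refine ciSup_le' fun i => ?_
    have := hZ i
    rw [kap_succ46, Order.lt_succ_iff] at this
    exact this
  calc #ι * ⨆ i, #(Z i) ≤ ℵ_ ((n : Ordinal) + 1) * ℵ_ ((n : Ordinal) + 1) :=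
        mul_le_mul' (h.trans h1) h2
    _ = ℵ_ ((n : Ordinal) + 1) := mul_eq_self (aleph0_le_aleph _)

/-- Removing fewer than `kap n` elements. -/
theorem kap_sdiff (n : ℕ) {A Z : Set Ent} (hA : kap n ≤ #A) (hZ : #Z < kap n) :
    kap n ≤ #(A \ Z : Set Ent) := by
  by_contra hc
  rw [not_le] at hc
  have h1 : #A ≤ #(A \ Z : Set Ent) + #Z := by
    refine (mk_le_mk_of_subset (t := (A \ Z) ∪ Z) ?_).trans (mk_union_le _ _)
    rw [sdiff_union_self]
    exact subset_union_left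
  have h2 : #(A \ Z : Set Ent) + #Z < kap n := add_lt_of_lt (aleph0_le_kap n) hc hZ
  exact absurd (hA.trans h1) (not_le.2 h2)

end Pool.Agent.Helper4.RB
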