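import Pool.Agent.Helper4.RB.Card

/-!
# Block RB-A8: closures

`mk_cl_le`: the closure is `⋃ n, X n` with `X 0 = X` and `X (n+1) = X n ∪ {op m l | m, l ∈ lists of
elements of X n}`; `#(List A) ≤ max ℵ₀ #A` (`Cardinal.mk_list_le_max`). (Or: the closure is the image
of the inductive type of terms with variables in `X`.)
`cl_finite`: induction on `Cl`; for `op n l` take the union of the finite sets of the members of `l`
(`cl_mono`).
`sat_cl`: `Cl.app`. `exists_op`: if `𝓠` is empty trivial; otherwise enumerate it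
(`Set.Countable.exists_eq_range`) and choose, for `n` and `l`, a `y` with `Q n l y` if there is one
(`Classical.epsilon`; `U` is nonempty).
`exists_enum`: `Mo op C i u` is countable (`countable_Iio_Om1`) and nonempty (`op 0 []`).
`goodQ_countable`, `reflQ_countable`: finite unions of singletons and of ranges of functions on `ℕ`.
-/

set_option autoImplicit false

namespace Pool.Agent.Helper4.RB

open Cardinal Ordinal Set

variable {op : ℕ → List U → U} {X Y : Set U}

theorem subset_cl (op : ℕ → List U → U) (X : Set U) : X ⊆ cl op X :=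
  fun _ hx => Cl.base hx

theorem cl_mono (op : ℕ → List U → U) (h : X ⊆ Y) : cl op X ⊆ cl op Y := by
  intro x hx
  change Cl op X x at hx
  change Cl op Y x
  induction hx with
  | base h' => exact Cl.base (h h')
  | app n l _ ih => exact Cl.app n l ih

theorem cl_subset (h : X ⊆ cl op Y) : cl op X ⊆ cl op Y := by
  intro x hx
  change Cl op X x at hx
  change Cl op Y x
  induction hx with
  | base h' => exact h h'
  | app n l _ ih => exact Cl.app n l ih

theorem cl_finite {x : U} (h : x ∈ cl op X) : ∃ F : Set U, F.Finite ∧ F ⊆ X ∧ x ∈ cl op F := by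
  change Cl op X x at h
  induction h with
  | base h' =>
    rename_i y
    exact ⟨{y}, finite_singleton y, singleton_subset_iff.2 h', Cl.base rfl⟩
  | app n l _ ih =>
    choose! F hF using ih
    refine ⟨⋃ y ∈ {y | y ∈ l}, F y, ?_, ?_, ?_⟩
    · exact (List.finite_toSet l).biUnion fun y hy => (hF y hy).1
    · exact iUnion₂_subset fun y hy => (hF y hy).2.1
    · refine Cl.app n l fun y hy => ?_
      exact cl_mono op (subset_biUnion_of_mem (u := F) (show y ∈ {y | y ∈ l} from hy))
        (hF y hy).2.2

/-- the arities of the term constructors -/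
private def bt94 (X : Set U) : X ⊕ (ℕ × ℕ) → Type
  | Sum.inl _ => Empty
  | Sum.inr p => Fin p.2

private instance fin_bt94 (X : Set U) (a : X ⊕ (ℕ × ℕ)) : Finite (bt94 X a) := by
  cases a with
  | inl x => exact inferInstanceAs (Finite Empty)
  | inr p => exact inferInstanceAs (Finite (Fin p.2))

/-- evaluation of a node of a term -/
private def st94 (op : ℕ → List U → U) (X : Set U) : (Σ a : X ⊕ (ℕ × ℕ), bt94 X a → U) → U
  | ⟨Sum.inl x, _⟩ => x.1
  | ⟨Sum.inr p, f⟩ => op p.1 (List.ofFn (n := p.2) f)

/-- evaluation of terms -/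
private def ev94 (op : ℕ → List U → U) (X : Set U) : WType (bt94 X) → U :=
  WType.elim U (st94 op X)

private theorem ev_surj94 (op : ℕ → List U → U) (X : Set U) {x : U} (h : Cl op X x) :
    ∃ t, ev94 op X t = x := by
  induction h with
  | base h' =>
    rename_i y
    exact ⟨WType.mk (Sum.inl ⟨y, h'⟩) Empty.elim, rfl⟩
  | app n l _ ih =>
    choose t ht using fun i : Fin l.length => ih (l.get i) (List.get_mem l i)
    refine ⟨WType.mk (Sum.inr (n, l.length)) t, ?_⟩
    have h1 : ev94 op X (WType.mk (Sum.inr (n, l.length)) t)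
        = op n (List.ofFn (n := l.length) fun i => ev94 op X (t i)) := rfl
    rw [h1]
    congr 1
    have h2 : (fun i => ev94 op X (t i)) = l.get := funext ht
    rw [h2, List.ofFn_get]

theorem mk_cl_le (op : ℕ → List U → U) (X : Set U) : #(cl op X) ≤ max ℵ₀ #X := by
  have h1 : cl op X ⊆ range (ev94 op X) := fun x hx => ev_surj94 op X hx
  have h2 : #(WType (bt94 X)) ≤ max (lift.{0} #(X ⊕ (ℕ × ℕ))) ℵ₀ :=
    WType.cardinalMk_le_max_aleph0_of_finite'
  refine (mk_le_mk_of_subset h1).trans (mk_range_le.trans (h2.trans ?_))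
  have h3 : #(X ⊕ (ℕ × ℕ)) ≤ max ℵ₀ #X := by
    rw [mk_sum, Cardinal.lift_id, Cardinal.lift_id]
    have h4 : #(ℕ × ℕ) ≤ ℵ₀ := mk_le_aleph0
    exact (add_le_add le_rfl h4).trans
      ((add_le_max _ _).trans (max_le (max_le (le_max_right _ _) (le_max_left _ _))
        (le_max_left _ _)))
  rw [Cardinal.lift_id]
  exact max_le h3 (le_max_left _ _)

theorem cl_countable (op : ℕ → List U → U) (h : X.Countable) : (cl op X).Countable := by
  rw [← le_aleph0_iff_set_countable] at h ⊢
  exact (mk_cl_le op X).trans (max_le le_rfl h)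

theorem sat_cl {Q : List U → U → Prop} (h : Sk op Q) (X : Set U) : Sat (cl op X) Q := by
  obtain ⟨n, hn⟩ := h
  intro l hl hy
  exact ⟨op n l, Cl.app n l hl, hn l hy⟩

theorem exists_op {𝓠 : Set (List U → U → Prop)} (h : 𝓠.Countable) :
    ∃ op : ℕ → List U → U, ∀ Q ∈ 𝓠, Sk op Q := by
  classical
  have : Nonempty U := ⟨U.ent (Classical.arbitrary Ent)⟩
  rcases 𝓠.eq_empty_or_nonempty with h0 | h0
  · exact ⟨fun _ _ => Classical.arbitrary U, fun Q hQ => by simp [h0] at hQ⟩
  · obtain ⟨f, hf⟩ := h.exists_eq_range h0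
    refine ⟨fun n l => Classical.epsilon (fun y => f n l y), fun Q hQ => ?_⟩
    rw [hf] at hQ
    obtain ⟨n, rfl⟩ := hQ
    exact ⟨n, fun l hy => Classical.epsilon_spec hy⟩

theorem Mo_mono (op : ℕ → List U → U) (C : Set U) (i : Om1) {u v : Node} (h : u <:+ v) :
    Mo op C i u ⊆ Mo op C i v := by
  refine cl_mono op (union_subset_union_right _ ?_)
  rintro y ⟨z, hz, rfl⟩
  exact ⟨z, h.subset hz, rfl⟩

theorem Mo_ent (op : ℕ → List U → U) (C : Set U) (i : Om1) (u : Node) : ∀ z ∈ u, U.ent z ∈ Mo op C i u :=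
  fun z hz => subset_cl op _ (Or.inr ⟨z, hz, rfl⟩)

theorem Mo_o1 (op : ℕ → List U → U) (C : Set U) (i : Om1) (u : Node) : ∀ j < i, U.o1 j ∈ Mo op C i u :=
  fun j hj => subset_cl op _ (Or.inl (Or.inr ⟨j, hj, rfl⟩))

theorem Mo_base (op : ℕ → List U → U) (C : Set U) (i : Om1) (u : Node) : C ⊆ Mo op C i u :=
  fun _ hx => subset_cl op _ (Or.inl (Or.inl hx))

theorem Mo_countable (op : ℕ → List U → U) {C : Set U} (hC : C.Countable) (i : Om1) (u : Node) :
    (Mo op C i u).Countable := by
  refine cl_countable op ((hC.union ?_).union ?_)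
  · refine ((countable_Iio_Om1 i).image U.o1).mono ?_
    rintro y ⟨j, hj, rfl⟩
    exact ⟨j, hj, rfl⟩
  · refine ((List.finite_toSet u).countable.image U.ent).mono ?_
    rintro y ⟨z, hz, rfl⟩
    exact ⟨z, hz, rfl⟩

theorem exists_enum (op : ℕ → List U → U) {C : Set U} (hC : C.Countable) (i : Om1) :
    ∃ K : Node → ℕ → U, ∀ u, rg K u = Mo op C i u := by
  have h1 : ∀ u, ∃ f : ℕ → U, Mo op C i u = range f := fun u =>
    (Mo_countable op hC i u).exists_eq_range
      ⟨op 0 [], Cl.app 0 [] (fun y hy => absurd hy List.not_mem_nil)⟩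
  choose K hK using h1
  exact ⟨K, fun u => (hK u).symm⟩

theorem goodQ_countable (d : Lam → Lam → ℕ) : (GoodQ d).Countable := by
  have h1 : (({QBel, QL1, QDom, QDec, QEx, QEi, QEh, QEk, QMk, QPev, QBnd, QEr d} :
      Set (List U → U → Prop)) ∪ range QEl).Countable :=
    (Set.toFinite _).countable.union (countable_range _)
  refine h1.mono ?_
  rintro Q (h | h | h | h | ⟨n, h⟩ | h | h | h | h | h | h | h | h) <;> subst h <;> simp

theorem reflQ_countable : ReflQ.Countable := by
  have h1 : (range QLv ∪ (range QSS ∪ (range QLo ∪ (range QHi ∪ (range QMid ∪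
      (range QPick ∪ range QGF)))))).Countable :=
    (countable_range _).union ((countable_range _).union ((countable_range _).union
      ((countable_range _).union ((countable_range _).union ((countable_range _).union
        (countable_range _))))))
  refine h1.mono ?_
  rintro Q ⟨m, h | h | h | h | h | h | h⟩ <;> subst h <;> simp

end Pool.Agent.Helper4.RB
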