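import Mathlib

/-!
# Project RB (MP_145a0d_lc): working definitions

`Lam = ω_{ω+1}`, `Om1 = ω_1`, `Ent = ω_ω` (as well ordered types). A node is a finite sequence of
elements of `Ent`; the LAST entry of the sequence is the HEAD of the list, so `u <:+ v` says that
`v` extends `u`, and the children of `u` are the nodes `z :: u`.
-/

set_option autoImplicit false

namespace Pool.Agent.Helper4.RB

open Cardinal Ordinal Set

/-- The ordinals below `ω_{ω+1}`. -/
abbrev Lam : Type := (ω_ (ω + 1)).ToType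

/-- The countable ordinals. -/
abbrev Om1 : Type := (ω_ 1).ToType

/-- The ordinals below `ω_ω`; entries of nodes. -/
abbrev Ent : Type := (ω_ ω).ToType

/-- Nodes. -/
abbrev Node : Type := List Ent

instance : Nonempty Lam := nonempty_toType_iff.2 (omega_pos _).ne'
instance : Nonempty Om1 := nonempty_toType_iff.2 (omega_pos _).ne'
instance : Nonempty Ent := nonempty_toType_iff.2 (omega_pos _).ne'

/-- `κ_n = ℵ_{n+2}`: the amount of splitting at level `n`. -/
noncomputable def kap (n : ℕ) : Cardinal.{0} := ℵ_ ((n : Ordinal) + 2)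

/-! ### Trees -/

/-- `T` is a tree with stem `s`: it consists of nodes extending `s`, and every node `u` of `T` has
at least `κ_{|u|}` children in `T`. -/
structure IsT (s : Node) (T : Set Node) : Prop where
  stem : s ∈ T
  above : ∀ u ∈ T, s <:+ u
  down : ∀ (z : Ent) (u : Node), z :: u ∈ T → u ∈ T ∨ z :: u = s
  split : ∀ u ∈ T, kap u.length ≤ #{z : Ent | z :: u ∈ T}

/-- `T` is a tree. -/
def IsTree (T : Set Node) : Prop := ∃ s, IsT s T

/-- The nodes of `T` extending `u`. -/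
def bel (T : Set Node) (u : Node) : Set Node := {t | t ∈ T ∧ u <:+ t}

/-- `X` is closed under passing to subtrees. -/
def Op (X : Set (Set Node)) : Prop := ∀ T ∈ X, ∀ T', IsTree T' → T' ⊆ T → T' ∈ X

/-- `X` is dense below `T`. -/
def Frc (T : Set Node) (X : Set (Set Node)) : Prop :=
  ∀ T', IsTree T' → T' ⊆ T → ∃ T'', IsTree T'' ∧ T'' ⊆ T' ∧ T'' ∈ X

/-- Every subtree of `T` has a node `v` with `bel T v ∈ X`. -/
def Bar (T : Set Node) (X : Set (Set Node)) : Prop :=
  ∀ T'', IsTree T'' → T'' ⊆ T → ∃ v ∈ T'', bel T v ∈ X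

/-- `S ∈ E`, or no subtree of `S` is in `E`. -/
def Dec (E : Set (Set Node)) : Set (Set Node) :=
  {S | S ∈ E ∨ ∀ S', IsTree S' → S' ⊆ S → S' ∉ E}

/-- `N` is (a name of) an ordinal below `Lam`; `N β` is the set of trees forcing it to be
`≤ β`. -/
structure Valid (N : Lam → Set (Set Node)) : Prop where
  op : ∀ β, Op (N β)
  mono : ∀ β γ, β ≤ γ → N β ⊆ N γ
  dense : ∀ T, IsTree T → ∃ T', IsTree T' ∧ T' ⊆ T ∧ ∃ β, T' ∈ N β

/-- the trees forcing `N < δ` -/
def Lt (N : Lam → Set (Set Node)) (δ : Lam) : Set (Set Node) := {S | ∃ β < δ, S ∈ N β}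

/-- `T` forces that the set of `x` such that `X x` meets the generic filter is unbounded. -/
def Unb (T : Set Node) (X : Lam → Set (Set Node)) : Prop :=
  ∀ β, Frc T {S | ∃ x, β < x ∧ S ∈ X x}

/-! ### Stationary sets and the colouring -/

/-- All fibres of the `d β` are of size `< ℵ_ω`. (`d β α` is the colour of `α < β`.) -/
def Fib (d : Lam → Lam → ℕ) : Prop := ∀ (β : Lam) (c : ℕ), #{α : Lam | α < β ∧ d β α = c} < ℵ_ ω

/-- `c` is an increasing sequence with supremum `δ`. -/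
def Ladder (c : ℕ → Lam) (δ : Lam) : Prop := StrictMono c ∧ (∀ n, c n < δ) ∧ ∀ α < δ, ∃ n, α < c n

/-- Stationary subsets of `Lam`: every function has a nonzero closure point in `S`. -/
def StatL (S : Set Lam) : Prop := ∀ g : Lam → Lam, ∃ β ∈ S, (∃ α, α < β) ∧ ∀ α < β, g α < β

/-- Stationary subsets of `Om1`: every function has a nonzero closure point in `S`. -/
def StatO (S : Set Om1) : Prop := ∀ g : Om1 → Om1, ∃ i ∈ S, (∃ j, j < i) ∧ ∀ j < i, g j < i

/-- The `β` of countable cofinality above `a` such that `d β` is injective on `a`. -/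
def R (d : Lam → Lam → ℕ) (a : Set Lam) : Set Lam :=
  {β | (∃ c, Ladder c β) ∧ (∀ x ∈ a, x < β) ∧ InjOn (d β) a}

/-- `a` is finite, rainbow, and `R d a` is stationary. -/
structure OK (d : Lam → Lam → ℕ) (a : Set Lam) : Prop where
  fin : a.Finite
  rb : ∀ β ∈ a, InjOn (d β) (a ∩ Iio β)
  st : StatL (R d a)

/-- The points to be avoided, given the points `a` and `l`, in order to keep the `d β`, `β ∈ B`,
injective. -/
def Av (d : Lam → Lam → ℕ) (a B : Set Lam) (l : List Lam) : Set Lam :=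
  {x | ∃ β ∈ B, x < β ∧ ∃ y, (y ∈ a ∨ y ∈ l) ∧ y < β ∧ d β x = d β y}

/-- An injective enumeration of `Ent`-many elements of `R d l` above `β` (if there is one). -/
noncomputable def er (d : Lam → Lam → ℕ) (l : List Lam) (β : Lam) : Ent → Lam :=
  Classical.epsilon (fun f : Ent → Lam =>
    Function.Injective f ∧ ∀ z, f z ∈ R d {x | x ∈ l} ∧ β < f z)

/-! ### The universe of objects -/

/-- The objects. -/
inductive U : Type
  | ord (x : Lam)
  | o1 (i : Om1)
  | ent (z : Ent)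
  | tr (T : Set Node)
  | st (E : Set (Set Node))
  | fn (F : List Lam → Lam → Set (Set Node))
  | hy (Y : List Lam → Set (Set Node))
  | mdl (K : Node → ℕ → U)
  | ety (i : Om1) (x : Lam) (b : Bool) (K : Node → ℕ → U) (h : Om1)

/-- The entries of the second part of a condition: an index `i`, a point `x`, a flag `b`, for
`b = true` a model `K`, and a promise `h`. -/
structure Ety : Type where
  i : Om1
  x : Lam
  b : Bool
  K : Node → ℕ → U
  h : Om1

/-- An entry as an object. -/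
def Ety.toU (e : Ety) : U := U.ety e.i e.x e.b e.K e.h

/-- The trivial model (of the entries with `b = false`). -/
def K0 : Node → ℕ → U := fun _ _ => U.tr ∅

/-- A list of ordinals as a list of objects. -/
def ords (l : List Lam) : List U := l.map U.ord

/-- Closure under operations. -/
inductive Cl (op : ℕ → List U → U) (X : Set U) : U → Prop
  | base {x : U} (h : x ∈ X) : Cl op X x
  | app (n : ℕ) (l : List U) (h : ∀ y ∈ l, Cl op X y) : Cl op X (op n l)

/-- The closure of `X` under the operations `op n`. -/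
def cl (op : ℕ → List U → U) (X : Set U) : Set U := {x | Cl op X x}

/-- `M` is closed for the relation `Q`. -/
def Sat (M : Set U) (Q : List U → U → Prop) : Prop :=
  ∀ l : List U, (∀ x ∈ l, x ∈ M) → (∃ y, Q l y) → ∃ y ∈ M, Q l y

/-- One of the operations is a Skolem function of the relation `Q`. -/
def Sk (op : ℕ → List U → U) (Q : List U → U → Prop) : Prop :=
  ∃ n, ∀ l, (∃ y, Q l y) → Q l (op n l)

/-- The closure of `C`, the ordinals below `i` and the entries of `u`. -/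
def Mo (op : ℕ → List U → U) (C : Set U) (i : Om1) (u : Node) : Set U :=
  cl op (C ∪ {y | ∃ j < i, y = U.o1 j} ∪ {y | ∃ z ∈ u, y = U.ent z})

/-- `M` is generic for `T`. -/
def Gen (M : Node → Set U) (T : Set Node) : Prop :=
  ∀ u ∈ T, ∀ E, Op E → U.st E ∈ M u → ∀ T'', IsTree T'' → T'' ⊆ bel T u →
    ∃ v ∈ T'', ∃ S, U.tr S ∈ M v ∧ IsT v S ∧ bel T v ⊆ S ∧ S ∈ Dec E

/-- The set of objects of the model `K` at the node `u`. -/
def rg (K : Node → ℕ → U) (u : Node) : Set U := range (K u)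

/-- The name of the supremum of the `F l`, `F` in `K`. (The last list is a dummy.) -/
def Bd (K : Node → ℕ → U) (l : List Lam) : List Lam → Lam → Set (Set Node) :=
  fun _ β => {T | ∀ u ∈ T, ∀ F, U.fn F ∈ rg K u → Valid (F l) → Frc (bel T u) (F l β)}

/-! ### Relations -/

/-- restriction of trees -/
def QBel : List U → U → Prop := fun l y =>
  ∃ (T : Set Node) (u : Node), l = U.tr T :: u.map U.ent ∧ y = U.tr (bel T u)

/-- direct extensions with a bar in `Dec E` -/
def QL1 : List U → U → Prop := fun l y =>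
  ∃ (E : Set (Set Node)) (T : Set Node) (s : Node) (T' : Set Node), Op E ∧ IsT s T ∧
    l = [U.st E, U.tr T] ∧ y = U.tr T' ∧ IsT s T' ∧ T' ⊆ T ∧ Bar T' (Dec E)

/-- the domain of a name -/
def QDom : List U → U → Prop := fun l y =>
  ∃ F : List Lam → Lam → Set (Set Node), l = [U.fn F] ∧ y = U.st {S | ∃ β, S ∈ F [] β}

/-- bounds of names -/
def QDec : List U → U → Prop := fun l y =>
  ∃ (F : List Lam → Lam → Set (Set Node)) (S : Set Node) (β : Lam),
    l = [U.fn F, U.tr S] ∧ y = U.ord β ∧ S ∈ F [] β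

/-- elements of models -/
def QEl (n : ℕ) : List U → U → Prop := fun l y =>
  ∃ (K : Node → ℕ → U) (u : Node), l = U.mdl K :: u.map U.ent ∧ y = K u n

def QEx : List U → U → Prop := fun l y => ∃ g : Ety, l = [g.toU] ∧ y = U.ord g.x
def QEi : List U → U → Prop := fun l y => ∃ g : Ety, l = [g.toU] ∧ y = U.o1 g.i
def QEh : List U → U → Prop := fun l y => ∃ g : Ety, l = [g.toU] ∧ y = U.o1 g.h
def QEk : List U → U → Prop := fun l y => ∃ g : Ety, l = [g.toU] ∧ y = U.mdl g.K

def QMk : List U → U → Prop := fun l y =>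
  ∃ (x : Lam) (j h : Om1), l = [U.ord x, U.o1 j, U.o1 h] ∧ y = (Ety.mk j x false K0 h).toU

def QPev : List U → U → Prop := fun l y =>
  ∃ (F : List Lam → Lam → Set (Set Node)) (x : Lam),
    l = [U.fn F, U.ord x] ∧ y = U.fn (fun a => F (x :: a))

def QBnd : List U → U → Prop := fun l y =>
  ∃ (K : Node → ℕ → U) (a : List Lam), l = U.mdl K :: ords a ∧ y = U.fn (Bd K a)

def QEr (d : Lam → Lam → ℕ) : List U → U → Prop := fun l y =>
  ∃ (β : Lam) (z : Ent) (a : List Lam), l = U.ord β :: U.ent z :: ords a ∧ y = U.ord (er d a β z)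

/-- The relations needed for good models. -/
def GoodQ (d : Lam → Lam → ℕ) : Set (List U → U → Prop) :=
  {Q | Q = QBel ∨ Q = QL1 ∨ Q = QDom ∨ Q = QDec ∨ (∃ n, Q = QEl n) ∨ Q = QEx ∨ Q = QEi ∨
    Q = QEh ∨ Q = QEk ∨ Q = QMk ∨ Q = QPev ∨ Q = QBnd ∨ Q = QEr d}

/-! ### The hierarchy for the reflection argument -/

/-- `Lv Y m l`: the trees forcing that there are unboundedly many `x` such that ... (`m` times). -/
def Lv (Y : List Lam → Set (Set Node)) : ℕ → List Lam → Set (Set Node)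
  | 0, l => Y l
  | m + 1, l => {T | Unb T (fun x => Lv Y m (l ++ [x]))}

/-- The name of the bound of the next level (`0` if there is none). -/
def GF (Y : List Lam → Set (Set Node)) (m : ℕ) : List Lam → Lam → Set (Set Node) := fun l β =>
  {T | (∀ x, β < x → ∀ T', IsTree T' → T' ⊆ T → T' ∉ Lv Y (m - l.length - 1) (l ++ [x])) ∨
    Unb T (fun x => Lv Y (m - l.length - 1) (l ++ [x]))}

/-- Disjoint intervals `(lo w z, hi w z)`, for the children `z :: w` of each node `w` of `T`, such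
that `bel T (z :: w)` forces some `x` in the interval. -/
def IsSS (X : Lam → Set (Set Node)) (T : Set Node) (lo hi : Node → Ent → Lam) : Prop :=
  ∀ w ∈ T, (∀ z z', z :: w ∈ T → z' :: w ∈ T → z ≠ z' → hi w z ≤ lo w z' ∨ hi w z' ≤ lo w z) ∧
    ∀ z, z :: w ∈ T → Frc (bel T (z :: w)) {S | ∃ x, lo w z < x ∧ x < hi w z ∧ S ∈ X x}

/-- the trees with such intervals -/
def SS (X : Lam → Set (Set Node)) : Set (Set Node) := {T | ∃ lo hi, IsSS X T lo hi}

noncomputable def loS (X : Lam → Set (Set Node)) (T : Set Node) : Node → Ent → Lam :=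
  Classical.epsilon (fun lo => ∃ hi, IsSS X T lo hi)

noncomputable def hiS (X : Lam → Set (Set Node)) (T : Set Node) : Node → Ent → Lam :=
  Classical.epsilon (fun hi => IsSS X T (loS X T) hi)

def QLv (m : ℕ) : List U → U → Prop := fun l y =>
  ∃ Y : List Lam → Set (Set Node), l = [U.hy Y] ∧ y = U.st (Lv Y m [])

def QSS (m : ℕ) : List U → U → Prop := fun l y =>
  ∃ (Y : List Lam → Set (Set Node)) (a : List Lam), l = U.hy Y :: ords a ∧
    y = U.st (SS (fun x => Lv Y m (a ++ [x])))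

def QLo (m : ℕ) : List U → U → Prop := fun l y =>
  ∃ (Y : List Lam → Set (Set Node)) (S : Set Node) (v : Node) (z : Ent) (a : List Lam), IsT v S ∧
    l = U.hy Y :: U.tr S :: U.ent z :: ords a ∧
    y = U.ord (loS (fun x => Lv Y m (a ++ [x])) S v z)

def QHi (m : ℕ) : List U → U → Prop := fun l y =>
  ∃ (Y : List Lam → Set (Set Node)) (S : Set Node) (v : Node) (z : Ent) (a : List Lam), IsT v S ∧
    l = U.hy Y :: U.tr S :: U.ent z :: ords a ∧
    y = U.ord (hiS (fun x => Lv Y m (a ++ [x])) S v z)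

def QMid (m : ℕ) : List U → U → Prop := fun l y =>
  ∃ (Y : List Lam → Set (Set Node)) (b c : Lam) (a : List Lam),
    l = U.hy Y :: U.ord b :: U.ord c :: ords a ∧
    y = U.st {S | ∃ x, b < x ∧ x < c ∧ S ∈ Lv Y m (a ++ [x])}

def QPick (m : ℕ) : List U → U → Prop := fun l y =>
  ∃ (Y : List Lam → Set (Set Node)) (b c : Lam) (S : Set Node) (a : List Lam) (x : Lam),
    l = U.hy Y :: U.ord b :: U.ord c :: U.tr S :: ords a ∧
    y = U.ord x ∧ b < x ∧ x < c ∧ S ∈ Lv Y m (a ++ [x])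

def QGF (m : ℕ) : List U → U → Prop := fun l y =>
  ∃ Y : List Lam → Set (Set Node), l = [U.hy Y] ∧ y = U.fn (GF Y m)

/-- The relations needed for the reflection theorem. -/
def ReflQ : Set (List U → U → Prop) :=
  {Q | ∃ m, Q = QLv m ∨ Q = QSS m ∨ Q = QLo m ∨ Q = QHi m ∨ Q = QMid m ∨ Q = QPick m ∨ Q = QGF m}

/-! ### The poset -/

/-- Good models. -/
structure Good (d : Lam → Lam → ℕ) (e : Ety) : Prop where
  mono : ∀ u v : Node, u <:+ v → rg e.K u ⊆ rg e.K v
  ent : ∀ u : Node, ∀ z ∈ u, U.ent z ∈ rg e.K u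
  o1 : ∀ j < e.i, U.o1 j ∈ rg e.K []
  cof : ∀ α < e.x, ∃ x, α < x ∧ x < e.x ∧ U.ord x ∈ rg e.K []
  lim : ∀ j < e.i, ∃ j', j < j' ∧ j' < e.i
  elem : ∀ (u : Node) (K' : Node → ℕ → U), U.mdl K' ∈ rg e.K u → rg K' u ⊆ rg e.K u
  ex : ∀ (u : Node) (g : Ety), g.toU ∈ rg e.K u → U.ord g.x ∈ rg e.K u
  ei : ∀ (u : Node) (g : Ety), g.toU ∈ rg e.K u → U.o1 g.i ∈ rg e.K u
  eh : ∀ (u : Node) (g : Ety), g.toU ∈ rg e.K u → U.o1 g.h ∈ rg e.K u
  ek : ∀ (u : Node) (g : Ety), g.toU ∈ rg e.K u → U.mdl g.K ∈ rg e.K u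
  mke : ∀ (u : Node) (x : Lam) (j h : Om1), U.ord x ∈ rg e.K u → U.o1 j ∈ rg e.K u →
    U.o1 h ∈ rg e.K u → (Ety.mk j x false K0 h).toU ∈ rg e.K u
  pev : ∀ (u : Node) (F : List Lam → Lam → Set (Set Node)) (x : Lam), U.fn F ∈ rg e.K u →
    U.ord x ∈ rg e.K u → U.fn (fun a => F (x :: a)) ∈ rg e.K u
  bnd : ∀ (u : Node) (K' : Node → ℕ → U) (a : List Lam), U.mdl K' ∈ rg e.K u →
    (∀ x ∈ a, U.ord x ∈ rg e.K u) → U.fn (Bd K' a) ∈ rg e.K u
  er : ∀ (u : Node) (a : List Lam) (β : Lam) (z : Ent), (∀ x ∈ a, U.ord x ∈ rg e.K u) →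
    U.ord β ∈ rg e.K u → U.ent z ∈ rg e.K u → U.ord (er d a β z) ∈ rg e.K u

/-- The model of `e` has only ordinals below `e.x` and countable ordinals below `e.i`. -/
structure GoodT (T : Set Node) (e : Ety) : Prop where
  ordlt : ∀ u ∈ T, ∀ x, U.ord x ∈ rg e.K u → x < e.x
  o1lt : ∀ u ∈ T, ∀ j, U.o1 j ∈ rg e.K u → j < e.i

/-- The growth condition for `e`, with the points `zs` of the later entries. -/
def Gr (T : Set Node) (e : Ety) (zs : List Lam) : Prop :=
  ∀ u ∈ T, ∀ F, U.fn F ∈ rg e.K u → ∀ (l : List Lam) (z : Lam) (r : List Lam),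
    e.x :: zs = l ++ z :: r → Valid (F l) → Frc (bel T u) (Lt (F l) z)

/-- `e'` can be the next entry after `e`. -/
def Nx (e e' : Ety) : Prop := (e'.b = false ∧ e'.i = e.h) ∨ (e'.b = true ∧ e.h < e'.i)

/-- The first entry. -/
structure Base (e0 : Ety) : Prop where
  b : e0.b = false
  i : ∀ j, e0.i ≤ j
  h : e0.i < e0.h

/-- The set of points. -/
def pts (ρ : List Ety) : Set Lam := {x | ∃ e ∈ ρ, e.x = x}

/-- Conditions. -/
structure Cond (d : Lam → Lam → ℕ) (e0 : Ety) (T : Set Node) (ρ : List Ety) : Prop where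
  tree : IsTree T
  head : ∃ ρ', ρ = e0 :: ρ'
  chain : ρ.IsChain Nx
  lth : ∀ e ∈ ρ, e.i < e.h
  inc : ρ.Pairwise (fun e e' => e.x < e'.x)
  mem : ∀ s, IsT s T → ρ.Pairwise (fun e e' => e'.b = true → e.toU ∈ rg e'.K s)
  good : ∀ e ∈ ρ, e.b = true → Good d e ∧ GoodT T e
  gr : ∀ (ρ1 : List Ety) (e : Ety) (ρ2 : List Ety), ρ = ρ1 ++ e :: ρ2 → e.b = true →
    Gr T e (ρ2.map Ety.x)
  ok : OK d (pts ρ)

/-- The poset. -/
structure Po (d : Lam → Lam → ℕ) (e0 : Ety) : Type where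
  T : Set Node
  ρ : List Ety
  cond : Cond d e0 T ρ

instance (d : Lam → Lam → ℕ) (e0 : Ety) : Preorder (Po d e0) where
  le q p := q.T ⊆ p.T ∧ p.ρ.Sublist q.ρ
  le_refl p := ⟨Subset.rfl, List.Sublist.refl _⟩
  le_trans _ _ _ h1 h2 := ⟨h1.1.trans h2.1, h2.2.trans h1.2⟩

theorem le_def {d : Lam → Lam → ℕ} {e0 : Ety} (q p : Po d e0) :
    q ≤ p ↔ q.T ⊆ p.T ∧ p.ρ.Sublist q.ρ := Iff.rfl

end Pool.Agent.Helper4.RB
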