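import Pool.Agent.Helper4.RB.Off
import Pool.Agent.Helper4.RB.Card

/-!
# Block RB-D1: reduction of colourings to `d : Lam → Lam → ℕ`

`o α` is the ordinal corresponding to `α : Lam`. `o_lt_iff`, `o_lt`, `exists_o`: `ToType.mk` is an order
isomorphism.

`exists_d`. Fix `β`. By `mk_Iio_Lam` there is an injection `e : Iio β → Ent`. Let
`B n = {α < β | #(Iio (e α)) ≤ ℵ_n}`: these sets are increasing in `n` with union `Iio β`
(`#(Iio z) < ℵ_ω` for `z : Ent`), and `#(B n) ≤ ℵ_{n+1}` because the set of the `z : Ent` with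
`#(Iio z) ≤ ℵ_n` is an initial segment all of whose proper initial segments have size `≤ ℵ_n`.
For `α < β` let `cls α = {α' < β | f (o α') (o β) = f (o α) (o β)}`; its cardinality is `< ℵ_ω`
(`IsBounded`; the map `α' ↦ (o α', o β)` is injective; universes: `Cardinal.lift`).
Let `C n = {α < β | #(cls α) ≤ ℵ_n ∧ ∃ α' ∈ B n, α' ∈ cls α}`: it is the union of at most `#(B n)` classes
of size `≤ ℵ_n`, so `#(C n) ≤ ℵ_{n+1} * ℵ_n < ℵ_ω`. The `C n` are increasing with union `Iio β`.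
Let `d β α` be the least `n` with `α ∈ C n`. It depends only on the class of `α`, and
`{α < β | d β α = n} ⊆ C n`.
-/

set_option autoImplicit false

namespace Pool.Agent.Helper4.RB

open Cardinal Ordinal Set

/-- the ordinal corresponding to `α` -/
noncomputable def o (α : Lam) : Ordinal.{0} := (ToType.mk.symm α).1

theorem o_lt_iff (α β : Lam) : o α < o β ↔ α < β :=
  (ToType.mk (o := ω_ (ω + 1))).symm.lt_iff_lt (x := α) (y := β)

theorem o_lt (α : Lam) : o α < ω_ (ω + 1) := (ToType.mk.symm α).2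

theorem exists_o {x : Ordinal.{0}} (h : x < ω_ (ω + 1)) : ∃ α : Lam, o α = x := by
  refine ⟨ToType.mk ⟨x, h⟩, ?_⟩
  unfold o
  rw [OrderIso.symm_apply_apply]

private theorem o_inj24 {α β : Lam} (h : o α = o β) : α = β := by
  rcases lt_trichotomy α β with h1 | h1 | h1
  · exact absurd h ((o_lt_iff _ _).2 h1).ne
  · exact h1
  · exact absurd h ((o_lt_iff _ _).2 h1).ne'

private theorem levels24 : ∃ w : ℕ → Ent, Monotone w ∧ (∀ n, #(Iio (w n)) < ℵ_ ω) ∧
    ∀ z, ∃ n, z < w n := by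
  have hlt : ∀ n : ℕ, ω_ (n : Ordinal.{0}) < ω_ ω := fun n =>
    omega_lt_omega.2 (natCast_lt_omega0 n)
  refine ⟨fun n => ToType.mk ⟨ω_ (n : Ordinal.{0}), hlt n⟩, ?_, ?_, ?_⟩
  · intro m n hmn
    refine (ToType.mk (o := ω_ ω)).le_iff_le.2 ?_
    rw [Subtype.mk_le_mk]
    exact omega_le_omega.2 (by exact_mod_cast hmn)
  · intro n
    have h1 : #(Iio (ToType.mk ⟨ω_ (n : Ordinal.{0}), hlt n⟩ : Ent)) = ℵ_ (n : Ordinal.{0}) := by
      have h2 := card_typein (r := fun a b : Ent => a < b)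
        (ToType.mk ⟨ω_ (n : Ordinal.{0}), hlt n⟩ : Ent)
      have h3 : typein (fun a b : Ent => a < b) (ToType.mk ⟨ω_ (n : Ordinal.{0}), hlt n⟩ : Ent) =
          ω_ (n : Ordinal.{0}) := by
        have h4 := (ToType.mk (o := ω_ ω)).symm_apply_apply ⟨ω_ (n : Ordinal.{0}), hlt n⟩
        exact congrArg Subtype.val h4
      rw [h3, card_omega] at h2
      exact h2.symm
    rw [h1]
    exact aleph_lt_aleph.2 (natCast_lt_omega0 n)
  · intro z
    have h1 : (ToType.mk.symm z : Iio (ω_ ω)).1 < ω_ ω := (ToType.mk.symm z).2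
    obtain ⟨a, ha, hz⟩ := (isNormal_omega.lt_iff_exists_lt isSuccLimit_omega0).1 h1
    obtain ⟨n, rfl⟩ := lt_omega0.1 ha
    refine ⟨n, ?_⟩
    rw [← (ToType.mk (o := ω_ ω)).apply_symm_apply z]
    exact (ToType.mk (o := ω_ ω)).lt_iff_lt.2 hz

private theorem cls_lt24 {f : Ordinal.{0} → Ordinal.{0} → Ordinal.{0}} (h : IsBounded f)
    (β α : Lam) : #{α' : Lam | α' < β ∧ f (o α') (o β) = f (o α) (o β)} < ℵ_ ω := by
  have h1 := h (f (o α) (o β))
  have h2 : lift.{1} #{α' : Lam | α' < β ∧ f (o α') (o β) = f (o α) (o β)} ≤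
      lift.{0} #{p : Ordinal.{0} × Ordinal.{0} | p.1 < p.2 ∧ p.2 < ω_ (ω + 1) ∧
        f p.1 p.2 = f (o α) (o β)} := by
    refine Cardinal.lift_mk_le_lift_mk_of_injective
      (f := fun x : {α' : Lam | α' < β ∧ f (o α') (o β) = f (o α) (o β)} =>
        (⟨(o x.1, o β), (o_lt_iff _ _).2 x.2.1, o_lt β, x.2.2⟩ :
          {p : Ordinal.{0} × Ordinal.{0} | p.1 < p.2 ∧ p.2 < ω_ (ω + 1) ∧
            f p.1 p.2 = f (o α) (o β)})) ?_
    intro x y hxy
    have h3 := congrArg (fun z => z.1.1) hxy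
    exact Subtype.ext (o_inj24 h3)
  rw [Cardinal.lift_id'.{0, 1}] at h2
  have h3 := h2.trans_lt h1
  rw [← Cardinal.lift_lt.{0, 1}, lift_aleph, lift_omega0]
  exact h3

theorem exists_d {f : Ordinal.{0} → Ordinal.{0} → Ordinal.{0}} (h : IsBounded f) :
    ∃ d : Lam → Lam → ℕ, Fib d ∧ ∀ α α' β : Lam, α < β → α' < β →
      f (o α) (o β) = f (o α') (o β) → d β α = d β α' := by
  classical
  obtain ⟨w, hw1, hw2, hw3⟩ := levels24
  have hinj : ∀ β : Lam, ∃ e : Lam → Ent, InjOn e (Iio β) := by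
    intro β
    have h1 : #(Iio β) ≤ #Ent := (mk_Iio_Lam β).trans_eq mk_Ent.symm
    obtain ⟨e⟩ := Cardinal.le_def _ _ |>.1 h1
    refine ⟨fun α => if h : α < β then e ⟨α, h⟩ else Classical.arbitrary Ent, ?_⟩
    intro x hx y hy hxy
    have hx' : x < β := hx
    have hy' : y < β := hy
    simp only [dif_pos hx', dif_pos hy'] at hxy
    exact congrArg Subtype.val (e.injective hxy)
  choose e he using hinj
  set S : Lam → Lam → Set Lam := fun β α => {α' | α' < β ∧ f (o α') (o β) = f (o α) (o β)} with hSdef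
  have hS : ∀ β α, #(S β α) < ℵ_ ω := fun β α => cls_lt24 h β α
  set C : Lam → ℕ → Set Lam := fun β n =>
    {α | α < β ∧ #(S β α) < kap n ∧ ∃ α' ∈ S β α, e β α' < w n} with hCdef
  have hC : ∀ β n, #(C β n) < ℵ_ ω := by
    intro β n
    set T : Set Lam := {α | α < β ∧ e β α < w n ∧ #(S β α) < kap n} with hT
    have hTc : #T < ℵ_ ω := by
      refine lt_of_le_of_lt ?_ (hw2 n)
      refine Cardinal.mk_le_of_injective (f := fun x : T => (⟨e β x.1, x.2.2.1⟩ : Iio (w n))) ?_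
      intro x y hxy
      exact Subtype.ext (he β x.2.1 y.2.1 (congrArg Subtype.val hxy))
    have hsub : C β n ⊆ ⋃ x : T, S β x.1 := by
      rintro α ⟨h1, h2, α', h3, h4⟩
      have h5 : S β α' = S β α := by
        ext z
        show (z < β ∧ f (o z) (o β) = f (o α') (o β)) ↔ (z < β ∧ f (o z) (o β) = f (o α) (o β))
        rw [h3.2]
      rw [mem_iUnion]
      refine ⟨⟨α', h3.1, h4, by rw [h5]; exact h2⟩, ?_⟩
      show α ∈ S β α'
      rw [h5]
      exact ⟨h1, rfl⟩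
    refine (Cardinal.mk_le_mk_of_subset hsub).trans_lt ((Cardinal.mk_iUnion_le _).trans_lt ?_)
    refine Cardinal.mul_lt_of_lt (aleph0_le_aleph _) hTc ?_
    refine lt_of_le_of_lt (ciSup_le' fun x => ?_) (kap_lt n)
    exact x.2.2.2.le
  have hCex : ∀ β α, α < β → ∃ n, α ∈ C β n := by
    intro β α hα
    obtain ⟨n1, hn1⟩ := exists_kap (hS β α)
    obtain ⟨n2, hn2⟩ := hw3 (e β α)
    refine ⟨max n1 n2, hα, hn1 _ (le_max_left _ _), α, ⟨hα, rfl⟩, ?_⟩
    exact hn2.trans_le (hw1 (le_max_right _ _))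
  refine ⟨fun β α => sInf {n | α ∈ C β n}, ?_, ?_⟩
  · intro β c
    refine lt_of_le_of_lt (Cardinal.mk_le_mk_of_subset ?_) (hC β c)
    rintro α ⟨h1, h2⟩
    have h3 : sInf {n | α ∈ C β n} ∈ {n | α ∈ C β n} := Nat.sInf_mem (hCex β α h1)
    have h4 : sInf {n | α ∈ C β n} = c := h2
    rw [h4] at h3
    exact h3
  · intro α α' β hα hα' hf
    have h5 : S β α' = S β α := by
      ext z
      show (z < β ∧ f (o z) (o β) = f (o α') (o β)) ↔ (z < β ∧ f (o z) (o β) = f (o α) (o β))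
      rw [hf]
    have h6 : {n | α ∈ C β n} = {n | α' ∈ C β n} := by
      ext n
      show (α < β ∧ #(S β α) < kap n ∧ ∃ x ∈ S β α, e β x < w n) ↔
        (α' < β ∧ #(S β α') < kap n ∧ ∃ x ∈ S β α', e β x < w n)
      rw [h5]
      exact and_congr_left fun _ => ⟨fun _ => hα', fun _ => hα⟩
    show sInf {n | α ∈ C β n} = sInf {n | α' ∈ C β n}
    rw [h6]

end Pool.Agent.Helper4.RB
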