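import Pool.Agent.Helper4.RB.Fin1

/-!
# Block RB-D2: from subsets of `Lam` to sets of ordinals

Given `f`, take `d` from `exists_d`, `A : Set Lam` from the hypothesis `h`, and let `A' = o '' A`.
* elements of `A'` are `< ω_{ω+1}`: `o_lt`.
* rainbow: let `o α, o β, o α', o β'` with `o α < o β`, `o α' < o β'`, `f (o α) (o β) = f (o α') (o β')`. By
  normality `o β = o β'`, so `β = β'`, and `d β α = d β α'`, so `α = α'` by injectivity of `d β` on
  `A ∩ Iio β`.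
* closed: let `x < sSup A'`, `sSup (A' ∩ Iio x) = x`. If `x = 0`: `0 ∈ A'` because `bot ∈ A` is the least
  element of `Lam` (`o bot = 0`: `0 = o γ` for some `γ ≥ bot`, `exists_o`). Otherwise: `x < o γ` for some
  `γ ∈ A` (`exists_lt_of_lt_csSup`), so `x = o α` (`exists_o`), `α < γ`; `A' ∩ Iio x` is unbounded in `x`
  (`exists_lt_of_lt_csSup`, it is nonempty as `x ≠ 0`); apply the closure property.
* order type: `Om1 ≃o A ≃o A'`, universes: `Ordinal.{0}` and `Ordinal.{1}`: `typeLT A'` and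
  `typeLT Om1 = ω_ 1` have the same lift (`Ordinal.lift_type_eq`), `lift (ω_ 1) = ω_ 1`
  (`Ordinal.lift_omega`).
-/

set_option autoImplicit false

namespace Pool.Agent.Helper4.RB

open Cardinal Ordinal Set

private lemma o_inj38 {α β : Lam} (h : o α = o β) : α = β := by
  rcases lt_trichotomy α β with h1 | h1 | h1
  · exact absurd h ((o_lt_iff _ _).2 h1).ne
  · exact h1
  · exact absurd h ((o_lt_iff _ _).2 h1).ne'

theorem polyClosed_of {bot : Lam} (hbot : ∀ γ, bot ≤ γ) (h : ∀ d : Lam → Lam → ℕ, Fib d →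
    ∃ A : Set Lam, bot ∈ A ∧ (∀ β ∈ A, InjOn (d β) (A ∩ Iio β)) ∧
      (∀ α, (∃ γ ∈ A, α < γ) → (∃ b, b < α) → (∀ b < α, ∃ c ∈ A, b < c ∧ c < α) → α ∈ A) ∧
      Nonempty (Om1 ≃o A)) : PolyClosed := by
  intro f _ hnorm hbdd
  obtain ⟨d, hfib, hd⟩ := exists_d hbdd
  obtain ⟨A, hbA, hinj, hcl, ⟨iso⟩⟩ := h d hfib
  have hneA : (o '' A).Nonempty := ⟨_, bot, hbA, rfl⟩
  obtain ⟨γ0, hγ0⟩ := exists_o (x := 0) (omega_pos _)
  have hob : o bot = 0 := by
    by_contra hne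
    have hpos : o γ0 < o bot := by
      rw [hγ0]
      exact pos_iff_ne_zero.2 hne
    exact absurd ((o_lt_iff _ _).1 hpos) (not_lt.2 (hbot γ0))
  refine ⟨o '' A, ?_, ?_, ?_, ?_⟩
  · rintro _ ⟨α, -, rfl⟩
    exact o_lt α
  · intro x hx hxs
    by_cases hx0 : x = 0
    · rw [hx0]
      exact ⟨bot, hbA, hob⟩
    · obtain ⟨y, ⟨γ, hγA, rfl⟩, hy⟩ := exists_lt_of_lt_csSup hneA hx
      obtain ⟨α, rfl⟩ := exists_o (hy.trans (o_lt γ))
      refine ⟨α, hcl α ⟨γ, hγA, (o_lt_iff _ _).1 hy⟩ ⟨bot, ?_⟩ ?_, rfl⟩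
      · rw [← o_lt_iff, hob]
        exact pos_iff_ne_zero.2 hx0
      · intro b hb
        have h1 : o b < sSup (o '' A ∩ Iio (o α)) := by
          rw [hxs]
          exact (o_lt_iff _ _).2 hb
        have h2 : (o '' A ∩ Iio (o α)).Nonempty := by
          rw [nonempty_iff_ne_empty]
          intro h3
          rw [h3, csSup_empty] at h1
          exact not_lt_bot h1
        obtain ⟨_, ⟨⟨c, hcA, rfl⟩, hc⟩, hbc⟩ := exists_lt_of_lt_csSup h2 h1
        exact ⟨c, hcA, (o_lt_iff _ _).1 hbc, (o_lt_iff _ _).1 hc⟩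
  · rintro _ ⟨α, hα, rfl⟩ _ ⟨β, hβ, rfl⟩ _ ⟨α', hα', rfl⟩ _ ⟨β', hβ', rfl⟩ h1 h2 hf
    have hb : β = β' := o_inj38 (hnorm _ _ _ _ h1 (o_lt β) h2 (o_lt β') hf)
    subst hb
    have h3 := hd α α' β ((o_lt_iff _ _).1 h1) ((o_lt_iff _ _).1 h2) hf
    have h4 := hinj β hβ ⟨hα, (o_lt_iff _ _).1 h1⟩ ⟨hα', (o_lt_iff _ _).1 h2⟩ h3
    exact ⟨congrArg o h4, rfl⟩
  · have hmono : StrictMonoOn o A := fun α _ β _ hαβ => (o_lt_iff _ _).2 hαβ
    have e : Om1 ≃o (o '' A) := iso.trans (StrictMonoOn.orderIso o A hmono)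
    have h1 := Ordinal.lift_type_eq.{0, 1, 0}.2 ⟨e.toRelIsoLT⟩
    rw [type_toType, Ordinal.lift_omega] at h1
    simp only [Ordinal.lift_one] at h1
    rw [h1, Ordinal.lift_uzero]

end Pool.Agent.Helper4.RB
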