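import Pool.Agent.Helper4.RB.Off
import Pool.Agent.Helper4.RB.Card

/-!
# Block RB-D3: stationary sets

`statO_of_stationary`: the set `C` of the nonzero limit points closed under `g` is a club. Unbounded: given
`a` choose `a < a 1 < a 2 < ...` with `g j < a (n+1)` for all `j ≤ a n` (`countable_Iio_Om1`, `bdd_Om1`) and
take the least upper bound. (Use the set of all `i` such that `∃ j, j < i`, and `∀ j < i, g j < i` and
`∀ j < i, ∃ j', j < j' < i`.) Closed: clear.
-/

set_option autoImplicit false

namespace Pool.Agent.Helper4.RB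

open Cardinal Ordinal Set

theorem statO_of_stationary {S : Set Om1} (h : Stationary S) : StatO S := by
  intro g
  have hclub : IsClub {i : Omega1 | (∃ j, j < i) ∧ ∀ j < i, g j < i} := by
    constructor
    · intro a
      -- the next element
      have hstep : ∀ b : Om1, ∃ b', b < b' ∧ ∀ j ≤ b, g j < b' := by
        intro b
        have hc : (insert b (g '' Iic b)).Countable := by
          refine Countable.insert b (Countable.image ?_ g)
          obtain ⟨b1, hb1⟩ := exists_gt_Om1 b
          exact (countable_Iio_Om1 b1).mono fun x hx => lt_of_le_of_lt hx hb1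
        obtain ⟨b', hb'⟩ := bdd_Om1 hc
        exact ⟨b', hb' b (mem_insert _ _), fun j hj =>
          hb' _ (mem_insert_of_mem _ (mem_image_of_mem g hj))⟩
      choose nx hnx1 hnx2 using hstep
      obtain ⟨s, hs0, hs⟩ : ∃ s : ℕ → Om1, s 0 = a ∧ ∀ n, s (n + 1) = nx (s n) :=
        ⟨fun n => Nat.rec a (fun _ b => nx b) n, rfl, fun _ => rfl⟩
      have hne : {i : Om1 | ∀ n, s n < i}.Nonempty := by
        obtain ⟨i, hi⟩ := bdd_Om1 (countable_range s)
        exact ⟨i, fun n => hi _ (mem_range_self n)⟩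
      obtain ⟨c, hc, hmin⟩ : ∃ c, (∀ n, s n < c) ∧ ∀ j < c, ∃ n, j ≤ s n := by
        refine ⟨wellFounded_lt.min _ hne, wellFounded_lt.min_mem _ hne, fun j hj => ?_⟩
        by_contra hcon
        push Not at hcon
        exact wellFounded_lt.not_lt_min {i : Om1 | ∀ n, s n < i} hcon hj
      have hac : a < c := by rw [← hs0]; exact hc 0
      refine ⟨c, ⟨⟨a, hac⟩, fun j hj => ?_⟩, hac⟩
      obtain ⟨n, hn⟩ := hmin j hj
      refine lt_trans (hnx2 (s n) j hn) ?_
      rw [← hs]
      exact hc (n + 1)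
    · rintro a ⟨b, hb⟩ hlim
      refine ⟨⟨b, hb⟩, fun j hj => ?_⟩
      obtain ⟨c, hc, hjc, hca⟩ := hlim j hj
      exact lt_trans (hc.2 j hjc) hca
  obtain ⟨i, hiS, hi1, hi2⟩ := h _ hclub
  exact ⟨i, hiS, hi1, hi2⟩

end Pool.Agent.Helper4.RB
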