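import Pool.Agent.Helper4.RB.Card

/-!
# Block RB-C11i: unbounded subsets of `ω_1`

An unbounded subset `I` of `ω_1` is uncountable (`bdd_Om1`), so its order type is `≥ ω_1`
(`Ordinal.card_le_card`, `type` of a countable well order is `< ω_1`), and it is `≤ ω_1` because it
embeds in `Om1` (`Ordinal.type_subtype_le` or `Ordinal.type_le_iff'`). Equal types give an order
isomorphism (`Ordinal.type_eq`).
-/

set_option autoImplicit false

namespace Pool.Agent.Helper4.RB

open Cardinal Ordinal Set

/-- An unbounded subset of `ω_1` has order type `ω_1`. -/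
theorem unbdd_iso (I : Set Om1) (h : ∀ j, ∃ i ∈ I, j < i) : Nonempty (Om1 ≃o I) := by
  have hI : ¬ I.Countable := by
    intro hc
    obtain ⟨b, hb⟩ := bdd_Om1 hc
    obtain ⟨i, hi, hbi⟩ := h b
    exact absurd (hb i hi) (not_lt_of_gt hbi)
  have hcard : ℵ_ 1 ≤ #I := by
    by_contra hlt
    push Not at hlt
    apply hI
    rw [← Cardinal.le_aleph0_iff_set_countable]
    have h1 : (ℵ_ 1 : Cardinal.{0}) = Order.succ ℵ₀ := by
      rw [← Cardinal.succ_aleph0]
    rw [h1] at hlt
    exact Order.lt_succ_iff.1 hlt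
  have hge : ω_ 1 ≤ type (α := I) (· < ·) := by
    refine (Cardinal.ord_aleph 1).ge.trans (Cardinal.ord_le.2 ?_)
    simpa using hcard
  have hle : type (α := I) (· < ·) ≤ ω_ 1 := by
    have : type (α := I) (· < ·) ≤ type (α := Om1) (· < ·) :=
      (Ordinal.type_le_iff'.2 ⟨Subrel.relEmbedding (· < ·) (· ∈ I)⟩)
    simpa using this
  have heq : type (α := Om1) (· < ·) = type (α := I) (· < ·) := by
    rw [le_antisymm hle hge]
    simp
  obtain ⟨f⟩ := Ordinal.type_eq.1 heq
  exact ⟨OrderIso.ofRelIsoLT f⟩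

end Pool.Agent.Helper4.RB
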