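import Pool.Agent.Helper4.RB.P9
import Pool.Agent.Helper4.RB.Iso

/-!
# Block RB-C11: the closed rainbow set given by a filter

Let `E = {e | ∃ p ∈ G, e ∈ p.ρ}`. Any finitely many elements of `E` are entries of a common condition
`r ∈ G` (`hdir`, sublists). So for `e, e' ∈ E` (`index_lt`, `Cond.inc`): `e.i = e'.i → e = e'`;
`e.i < e'.i ↔ e.x < e'.x`, and then `e.h ≤ e'.i`. Let `I = {e.i | e ∈ E}`, `A = {e.x | e ∈ E}`. `e0 ∈ E`.

Rainbow: for `α, α' < β` in `A` use a common condition and `OK.rb`.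

`I` is unbounded by `h1`; so `I ≃o Om1` (`unbdd_iso`), and `e.i ↦ e.x` is an order isomorphism
`I ≃o A`.

Closed: let `α : Lam`, `γ ∈ A`, `α < γ`, `b0 < α`, and for all `b < α` there is `c ∈ A` with `b < c < α`.
Let `I' = {e.i | e ∈ E, e.x < α}`; it is nonempty, has no maximum, and is bounded by the index of `γ`.
Let `i` be the least upper bound of `I'`: the least `i` with `j < i` for all `j ∈ I'` (equivalently,
since `I'` has no maximum: every `k < i` is `< j` for some `j ∈ I'`). Choose `p ∈ G ∩ D2 i`. If there is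
`e ∈ p.ρ` with `e.i < i < e.h`: choose `j ∈ I'` with `e.i < j < i < e.h`, `j = g.i`; but `e.i < g.i` implies
`e.h ≤ g.i`: contradiction. So there is `g ∈ E` with `g.i = i`. `g.b = true`: otherwise (`g ≠ e0` because
`e0.i` is minimal and `i` is not) `g` has a predecessor `e` in `p.ρ` with `g.i = e.h` (`Nx`), `e.i < i`;
choose `j ∈ I'` with `e.i < j < i = e.h`, the same contradiction. For `e ∈ E` with `e.x < α`: `e.i < i = g.i`
so `e.x < g.x`; hence `α ≤ g.x`. If `α < g.x`: by `Good.cof` for `g` there is `x` with `α < x < g.x`,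
`ord x = g.K [] m` for some `m`. Choose `q ∈ G ∩ D3 i m`; `q` has an entry with index `i` (as `q ∈ D2 i`,
the excluded case is impossible as before), which is `g`; so there is `g' ∈ q.ρ` with
`x < g'.x < g.x`. Then `g'.i < g.i = i`, so `g'.i < j = e.i` for some `e ∈ E` with `e.x < α`; so
`g'.x < e.x < α < x`. Contradiction. So `α = g.x ∈ A`.
-/

set_option autoImplicit false

namespace Pool.Agent.Helper4.RB

open Cardinal Ordinal Set

variable {d : Lam → Lam → ℕ} {e0 : Ety}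

theorem extract (hb : Base e0) (G : Set (Po d e0)) (hne : G.Nonempty)
    (hdir : ∀ p ∈ G, ∀ q ∈ G, ∃ r ∈ G, r ≤ p ∧ r ≤ q) (h1 : ∀ i, ∃ p ∈ G, p ∈ D1 d e0 i)
    (h2 : ∀ i, ∃ p ∈ G, p ∈ D2 d e0 i) (h3 : ∀ i m, ∃ p ∈ G, p ∈ D3 d e0 i m) :
    ∃ A : Set Lam, e0.x ∈ A ∧ (∀ β ∈ A, InjOn (d β) (A ∩ Iio β)) ∧
      (∀ α, (∃ γ ∈ A, α < γ) → (∃ b, b < α) → (∀ b < α, ∃ c ∈ A, b < c ∧ c < α) → α ∈ A) ∧
      Nonempty (Om1 ≃o A) := by
  set E : Set Ety := {e | ∃ p ∈ G, e ∈ p.ρ} with hE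
  have hcomm : ∀ e ∈ E, ∀ e' ∈ E, ∃ r ∈ G, e ∈ r.ρ ∧ e' ∈ r.ρ := by
    rintro e ⟨p, hp, hep⟩ e' ⟨q, hq, heq⟩
    obtain ⟨r, hr, hrp, hrq⟩ := hdir p hp q hq
    exact ⟨r, hr, hrp.2.subset hep, hrq.2.subset heq⟩
  have htri : ∀ e ∈ E, ∀ e' ∈ E, e ≠ e' →
      (e.i < e'.i ∧ e.h ≤ e'.i ∧ e.x < e'.x) ∨ (e'.i < e.i ∧ e'.h ≤ e.i ∧ e'.x < e.x) := by
    intro e he e' he' hne
    obtain ⟨r, hr, h4, h5⟩ := hcomm e he e' he'
    have h6 : r.ρ.Pairwise (fun a b => (a.i < b.i ∧ a.h ≤ b.i ∧ a.x < b.x) ∨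
        (b.i < a.i ∧ b.h ≤ a.i ∧ b.x < a.x)) := by
      have h7 := (index_lt r.cond).and r.cond.inc
      exact h7.imp fun h => Or.inl ⟨h.1.1, h.1.2, h.2⟩
    have h8 : Std.Symm (fun a b : Ety => (a.i < b.i ∧ a.h ≤ b.i ∧ a.x < b.x) ∨
        (b.i < a.i ∧ b.h ≤ a.i ∧ b.x < a.x)) := ⟨fun a b h => h.symm⟩
    exact h6.forall h4 h5 hne
  have hinj : ∀ e ∈ E, ∀ e' ∈ E, e.i = e'.i → e = e' := by
    intro e he e' he' hi
    by_contra hne
    rcases htri e he e' he' hne with h | h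
    · exact absurd hi h.1.ne
    · exact absurd hi h.1.ne'
  have hlt : ∀ e ∈ E, ∀ e' ∈ E, e.i < e'.i → e.h ≤ e'.i ∧ e.x < e'.x := by
    intro e he e' he' hi
    have hne : e ≠ e' := by
      rintro rfl
      exact lt_irrefl _ hi
    rcases htri e he e' he' hne with h | h
    · exact h.2
    · exact absurd hi (not_lt.2 h.1.le)
  have hlt' : ∀ e ∈ E, ∀ e' ∈ E, e.x < e'.x → e.i < e'.i := by
    intro e he e' he' hx
    have hne : e ≠ e' := by
      rintro rfl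
      exact lt_irrefl _ hx
    rcases htri e he e' he' hne with h | h
    · exact h.1
    · exact absurd hx (not_lt.2 h.2.2.le)
  have he0 : e0 ∈ E := by
    obtain ⟨p, hp⟩ := hne
    obtain ⟨ρ', hρ'⟩ := p.cond.head
    exact ⟨p, hp, by rw [hρ']; exact List.mem_cons_self⟩
  set A : Set Lam := {x | ∃ e ∈ E, e.x = x} with hA
  refine ⟨A, ⟨e0, he0, rfl⟩, ?_, ?_, ?_⟩
  · rintro β ⟨g, ⟨p3, hp3, hg⟩, rfl⟩ α ⟨⟨e, ⟨p1, hp1, he⟩, rfl⟩, hα⟩ α' ⟨⟨e', ⟨p2, hp2, he'⟩, rfl⟩, hα'⟩ hd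
    obtain ⟨r, hr, hr1, hr2⟩ := hdir p1 hp1 p2 hp2
    obtain ⟨r', hr', hr3, hr4⟩ := hdir r hr p3 hp3
    have k1 : e ∈ r'.ρ := hr3.2.subset (hr1.2.subset he)
    have k2 : e' ∈ r'.ρ := hr3.2.subset (hr2.2.subset he')
    have k3 : g ∈ r'.ρ := hr4.2.subset hg
    exact r'.cond.ok.rb g.x ⟨g, k3, rfl⟩ ⟨⟨e, k1, rfl⟩, hα⟩ ⟨⟨e', k2, rfl⟩, hα'⟩ hd
  · rintro α ⟨γ, ⟨eγ, heγ, rfl⟩, hαγ⟩ ⟨b0, hb0⟩ hlim
    have hbd : ∀ e ∈ E, e.x < α → e.i < eγ.i := fun e he hx => hlt' e he eγ heγ (hx.trans hαγ)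
    obtain ⟨i, hi, hmin⟩ := WellFounded.has_min (wellFounded_lt (α := Om1))
      {k : Om1 | ∀ e ∈ E, e.x < α → e.i < k} ⟨eγ.i, hbd⟩
    have hi' : ∀ e ∈ E, e.x < α → e.i < i := hi
    have hcof : ∀ k < i, ∃ e ∈ E, e.x < α ∧ k < e.i := by
      intro k hk
      by_contra hcon
      push Not at hcon
      have h4 : k ∉ {k : Om1 | ∀ e ∈ E, e.x < α → e.i < k} := fun h => hmin k h hk
      apply h4
      intro e he hx
      obtain ⟨c, ⟨e', he', rfl⟩, hc1, hc2⟩ := hlim e.x hx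
      exact (hlt' e he e' he' hc1).trans_le (hcon e' he' hc2)
    have hno : ∀ e ∈ E, e.i < i → ¬ i < e.h ∧ e.h ≠ i := by
      intro e he hei
      obtain ⟨e', he', hx', hi''⟩ := hcof e.i hei
      have h5 := (hlt e he e' he' hi'').1
      have h6 := hi' e' he' hx'
      exact ⟨fun h => absurd (h.trans_le h5) (not_lt.2 h6.le), (h5.trans_lt h6).ne⟩
    have hD2 : ∀ p ∈ G, p ∈ D2 d e0 i → ∃ e ∈ p.ρ, e.i = i := by
      intro p hp hD
      rcases hD with h | ⟨e, he, hei, heh⟩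
      · exact h
      · exact absurd heh (hno e ⟨p, hp, he⟩ hei).1
    obtain ⟨p, hp, hpD⟩ := h2 i
    obtain ⟨g, hg, hgi⟩ := hD2 p hp hpD
    have hgE : g ∈ E := ⟨p, hp, hg⟩
    have hgb : g.b = true := by
      by_contra hgb
      have hgb' : g.b = false := by simpa using hgb
      obtain ⟨ρ', hρ'⟩ := p.cond.head
      have hge0 : g ≠ e0 := by
        rintro rfl
        obtain ⟨c, ⟨e', he', rfl⟩, hc1, hc2⟩ := hlim b0 hb0
        have h5 := hi' e' he' hc2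
        rw [← hgi] at h5
        exact absurd h5 (not_lt.2 (hb.i _))
      rw [hρ'] at hg
      have hg' : g ∈ ρ' := (List.mem_cons.1 hg).resolve_left hge0
      obtain ⟨l1, l2, hl⟩ := List.append_of_mem hg'
      have hchain := p.cond.chain
      rw [hρ', hl, ← List.cons_append, List.isChain_append] at hchain
      have hne1 : (e0 :: l1) ≠ [] := List.cons_ne_nil _ _
      have hNx : Nx ((e0 :: l1).getLast hne1) g :=
        hchain.2.2 _ (List.getLast?_eq_getLast_of_ne_nil hne1) g rfl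
      set e := (e0 :: l1).getLast hne1 with hedef
      have hep : e ∈ p.ρ := by
        rw [hρ', hl, ← List.cons_append]
        exact List.mem_append_left _ (List.getLast_mem hne1)
      rcases hNx with ⟨_, h5⟩ | ⟨h5, _⟩
      · have h6 := p.cond.lth e hep
        rw [← h5, hgi] at h6
        exact (hno e ⟨p, hp, hep⟩ h6).2 (by rw [← h5, hgi])
      · exact hgb h5
    have hle : α ≤ g.x := by
      by_contra hcon
      push Not at hcon
      exact absurd (hi' g hgE hcon) (by rw [hgi]; exact lt_irrefl _)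
    rcases hle.eq_or_lt with h | h
    · exact ⟨g, hgE, h.symm⟩
    · exfalso
      obtain ⟨x, hx1, hx2, m, hm⟩ := (p.cond.good g hg hgb).1.cof α h
      obtain ⟨q, hq, hqD, hq3⟩ := h3 i m
      obtain ⟨g', hg', hgi'⟩ := hD2 q hq hqD
      have hgg : g' = g := hinj g' ⟨q, hq, hg'⟩ g hgE (hgi'.trans hgi.symm)
      subst hgg
      obtain ⟨g2, hg2, hx3, hx4⟩ := hq3 g' hg' hgi' hgb x hm hx2
      have h5 : g2.i < i := by
        rw [← hgi']
        exact hlt' g2 ⟨q, hq, hg2⟩ g' hgE hx4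
      obtain ⟨e, he, hex, hei⟩ := hcof g2.i h5
      have h6 := (hlt g2 ⟨q, hq, hg2⟩ e he hei).2
      exact absurd (h6.trans (hex.trans (hx1.trans hx3))) (lt_irrefl _)
  · set I : Set Om1 := {i | ∃ e ∈ E, e.i = i} with hI
    have hunb : ∀ j, ∃ i ∈ I, j < i := by
      intro j
      obtain ⟨p, hp, e, he, hj⟩ := h1 j
      exact ⟨e.i, ⟨e, ⟨p, hp, he⟩, rfl⟩, hj⟩
    obtain ⟨φ⟩ := unbdd_iso I hunb
    have hch : ∀ i : I, ∃ e ∈ E, e.i = i := fun i => i.2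
    choose c hc hci using hch
    have hmono : StrictMono (fun i : I => (⟨(c i).x, ⟨c i, hc i, rfl⟩⟩ : A)) := by
      intro i j hij
      have h4 : (c i).i < (c j).i := by
        rw [hci, hci]
        exact hij
      exact (hlt _ (hc i) _ (hc j) h4).2
    have hsurj : Function.Surjective (fun i : I => (⟨(c i).x, ⟨c i, hc i, rfl⟩⟩ : A)) := by
      rintro ⟨x, e, he, rfl⟩
      refine ⟨⟨e.i, ⟨e, he, rfl⟩⟩, ?_⟩
      have h4 : c ⟨e.i, ⟨e, he, rfl⟩⟩ = e := hinj _ (hc _) _ he (hci _)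
      exact Subtype.ext (by simp only [h4])
    exact ⟨φ.trans (StrictMono.orderIsoOfSurjective _ hmono hsurj)⟩

end Pool.Agent.Helper4.RB
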