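import Pool.Agent.Helper4.RB.P8
import Pool.Agent.Helper4.RB.P10
import Pool.Agent.Helper4.RB.Fin2
import Pool.Agent.Helper4.RB.Fin3

/-!
# Assembly
-/

set_option autoImplicit false

namespace Pool.Agent.Helper4.RB

open Cardinal Ordinal Set

theorem exists_base : ∃ e0 : Ety, Base e0 ∧ ∀ γ, e0.x ≤ γ := by
  obtain ⟨i0, hi0⟩ : ∃ i0 : Om1, ∀ j, i0 ≤ j := by
    obtain ⟨i0, -, h⟩ := WellFounded.has_min (wellFounded_lt (α := Om1)) univ ⟨Classical.arbitrary _, trivial⟩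
    exact ⟨i0, fun j => not_lt.1 (h j trivial)⟩
  obtain ⟨x0, hx0⟩ : ∃ x0 : Lam, ∀ j, x0 ≤ j := by
    obtain ⟨i0, -, h⟩ := WellFounded.has_min (wellFounded_lt (α := Lam)) univ ⟨Classical.arbitrary _, trivial⟩
    exact ⟨i0, fun j => not_lt.1 (h j trivial)⟩
  obtain ⟨h, hh⟩ := exists_gt_Om1 i0
  exact ⟨⟨i0, x0, false, K0, h⟩, ⟨rfl, hi0, hh⟩, hx0⟩

theorem nonempty_Po (d : Lam → Lam → ℕ) {e0 : Ety} (hb : Base e0) : Nonempty (Po d e0) := by
  refine ⟨⟨univ, [e0], ⟨⟨[], isT_univ⟩, ⟨[], rfl⟩, ?_, ?_, ?_, ?_, ?_, ?_, ?_⟩⟩⟩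
  · exact List.isChain_singleton _
  · intro e he
    rw [List.mem_singleton.1 he]
    exact hb.h
  · exact List.pairwise_singleton _ _
  · intro s _
    exact List.pairwise_singleton _ _
  · intro e he h
    rw [List.mem_singleton.1 he, hb.b] at h
    exact absurd h Bool.false_ne_true
  · intro ρ1 e ρ2 he h
    have h1 : e ∈ [e0] := by
      rw [he]
      simp
    rw [List.mem_singleton.1 h1, hb.b] at h
    exact absurd h Bool.false_ne_true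
  · have h1 : pts [e0] = {e0.x} := by
      ext x
      simp [pts, eq_comm]
    rw [h1]
    exact ok_singleton d e0.x

theorem preserves {d : Lam → Lam → ℕ} (hd : Fib d) (e0 : Ety) : PreservesStationary (Po d e0) := by
  intro S hS C hC p hp
  obtain ⟨q, hq, i, hi, hi0, h⟩ := ssp hd (statO_of_stationary hS)
    (fun j k => {q : Po d e0 | (q ≤ p ∧ j < k ∧ q ∈ C k) ∨ ∀ r ≤ q, ¬ r ≤ p}) (by
      intro j k q r hrq hq
      rcases hq with ⟨h1, h2, h3⟩ | h1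
      · exact Or.inl ⟨hrq.trans h1, h2, hC.lower k hrq h3⟩
      · exact Or.inr fun t ht => h1 t (ht.trans hrq)) (by
      intro j q
      by_cases h : ∃ r ≤ q, r ≤ p
      · obtain ⟨r, hr, hrp⟩ := h
        obtain ⟨t, ht, c, hc, htc⟩ := hp.1 j r hrp
        exact ⟨t, ht.trans hr, c, Or.inl ⟨ht.trans hrp, hc, htc⟩⟩
      · exact ⟨q, le_rfl, j, Or.inr fun r hr hrp => h ⟨r, hr, hrp⟩⟩) p
  refine ⟨q, hq, i, hi, hp.2 i hi0 q hq ?_⟩
  intro j hj r hr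
  obtain ⟨t, ht, k, hk, htk⟩ := h j hj r hr
  rcases htk with ⟨-, h2, h3⟩ | h1
  · exact ⟨t, ht, k, h2, hk, h3⟩
  · exact absurd (ht.trans (hr.trans hq)) (h1 t le_rfl)

theorem exists_surj : ∃ φ : Om1 → (Om1 × ℕ), Function.Surjective φ := by
  have h1 : #(Om1 × ℕ) ≤ #Om1 := by
    rw [mk_prod, mk_Om1, mk_nat, Cardinal.lift_id, Cardinal.lift_id]
    exact (mul_eq_left (aleph0_le_aleph 1) (aleph0_le_aleph 1) aleph0_ne_zero).le
  obtain ⟨g⟩ := (Cardinal.le_def _ _).1 h1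
  exact ⟨Function.invFun g, Function.invFun_surjective g.injective⟩

theorem main (hMM : MartinsMaximum) : PolyClosed := by
  obtain ⟨e0, hb, hx0⟩ := exists_base
  refine polyClosed_of hx0 fun d hd => ?_
  have hne := nonempty_Po d hb
  obtain ⟨φ, hφ⟩ := exists_surj
  have hcov : ∀ D : Om1 × ℕ → Set (Po d e0), (∀ w p, ∃ q ≤ p, q ∈ D w) →
      ∃ G : Set (Po d e0), IsUpperSet G ∧ (∀ p ∈ G, ∀ q ∈ G, ∃ r ∈ G, r ≤ p ∧ r ≤ q) ∧
        ∀ w, (G ∩ D w).Nonempty := by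
    intro D hD
    obtain ⟨G, h1, h2, h3⟩ := hMM (Po d e0) (preserves hd e0) (fun i => D (φ i)) fun i p => hD _ p
    refine ⟨G, h1, h2, fun w => ?_⟩
    obtain ⟨i, rfl⟩ := hφ w
    exact h3 i
  obtain ⟨G, h1, h2, h3⟩ := hcov (fun w => {p | (w.2 = 0 → p ∈ D1 d e0 w.1) ∧
      (w.2 = 1 → p ∈ D2 d e0 w.1) ∧ ∀ m, w.2 = m + 2 → p ∈ D3 d e0 w.1 m}) (by
    rintro ⟨i, n⟩ p
    rcases n with - | - | m
    · obtain ⟨q, hq, hq'⟩ := dense_D1 hd i p
      exact ⟨q, hq, fun _ => hq', fun h => absurd h (by simp), fun m h => absurd h (by simp)⟩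
    · obtain ⟨q, hq, hq'⟩ := dense_D2 hd hb i p
      exact ⟨q, hq, fun h => absurd h (by simp), fun _ => hq', fun m h => absurd h (by simp)⟩
    · obtain ⟨q, hq, hq'⟩ := dense_D3 hd hb i m p
      refine ⟨q, hq, fun h => absurd h (by simp), fun h => absurd h (by simp), fun m' h => ?_⟩
      have h4 : m = m' := by simpa using h
      rw [← h4]
      exact hq')
  refine extract hb G ?_ h2 ?_ ?_ ?_
  · obtain ⟨p, hp⟩ := h3 (Classical.arbitrary _)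
    exact ⟨p, hp.1⟩
  · intro i
    obtain ⟨p, hp, hp'⟩ := h3 (i, 0)
    exact ⟨p, hp, hp'.1 rfl⟩
  · intro i
    obtain ⟨p, hp, hp'⟩ := h3 (i, 1)
    exact ⟨p, hp, hp'.2.1 rfl⟩
  · intro i m
    obtain ⟨p, hp, hp'⟩ := h3 (i, m + 2)
    exact ⟨p, hp, hp'.2.2 m rfl⟩

end Pool.Agent.Helper4.RB
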