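import Pool.Agent.Helper4.RB.Tr2
import Pool.Agent.Helper4.RB.ClL

/-!
# Block RB-A9: generic trees for the models `Mo op C i` (`i` fixed)

Write `M u = Mo op C i u` (monotone in `u`, countable) and let `K` be the enumeration of
`exists_enum`: `rg K u = M u`. All `M u` are closed for `QBel` and `QL1` (`sat_cl`).

Bookkeeping. For a node `w` with `|w| ≥ |s|` let `(a, b) = Nat.unpair |w|` (so `a ≤ |w|`), let
`u = w.drop (|w| - a)` be the initial segment of `w` of length `a`, and let `task w` be `E` if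
`K u b = st E` with `Op E`; otherwise there is no task (let `E = ∅`: `Op ∅`; but then do nothing).
For a tree `T'` with stem `w` and `tr T' ∈ M w` let `ext w T'` be a tree `T'' ⊆ T'` with stem `w`,
`tr T'' ∈ M w` and `Bar T'' (Dec E)` if `E` is the task (`QL1` for `[st E, tr T']`: `L1` shows that
there is such a `T''` (`op_dec`, `frc_dec`), and `Sat (M w) QL1`; note `st E ∈ M u ⊆ M w`), and
`T'' = T'` if there is no task.

Recursion (on `w` in the node `w ++ s`): `S s = ext s T`, `S (z :: u) = ext (z :: u) (bel (S u) (z :: u))`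
if `z :: u ∈ S u`; `tr (bel (S u) (z :: u)) ∈ M (z :: u)` by `QBel` (the entries of `z :: u` are in
`M (z :: u)`, `tr (S u) ∈ M u`). `Ti`: `s ∈ Ti`; `z :: u ∈ Ti` iff `u ∈ Ti` and `z :: u ∈ S u`. As in the
proof of `fusion`: `Ti` is a tree with stem `s`, its children at `u` are those of `S u`, and
`bel Ti u ⊆ S u`; for `v ∈ Ti` extending `u ∈ Ti`: `bel Ti v ⊆ bel (S u) v`.

Genericity. Let `u ∈ Ti`, `Op E`, `st E ∈ M u`, say `K u b = st E`, and let `T'' ⊆ bel Ti u` be a tree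
with stem `t`. Let `n = Nat.pair |u| b ≥ |u|`. If `n ≤ |t|` let `w` be the initial segment of `t` of
length `n` (it extends `u`) and `T3 = T''`; otherwise choose `w ∈ T''` with `|w| = n` (`exists_len`) and
`T3 = bel T'' w`. In both cases `w ∈ Ti`, `T3` is a subtree of `T''` and of `bel Ti w ⊆ S w`, and `E` is
the task at `w`. So there is `v ∈ T3` with `bel (S w) v ∈ Dec E`. Let `S' = bel (S w) v`: it is a tree
with stem `v` (`v ∈ S w`), `tr S' ∈ M v` by `QBel`, and `bel Ti v ⊆ S'`.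
-/

set_option autoImplicit false

namespace Pool.Agent.Helper4.RB

open Cardinal Ordinal Set

/-- `E` is the task at the node `w` -/
private def Tk6 (K : Node → ℕ → U) (w : Node) (E : Set (Set Node)) : Prop :=
  Op E ∧ K (w.drop (w.length - (Nat.unpair w.length).1)) (Nat.unpair w.length).2 = U.st E

private noncomputable def seq6 (ext : Node → Set Node → Set Node) (T : Set Node) (s : Node) :
    List Ent → Set Node
  | [] => ext s T
  | z :: w => ext (z :: (w ++ s)) (bel (seq6 ext T s w) (z :: (w ++ s)))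

private def in6 (ext : Node → Set Node → Set Node) (T : Set Node) (s : Node) : List Ent → Prop
  | [] => True
  | z :: w => in6 ext T s w ∧ z :: (w ++ s) ∈ seq6 ext T s w

private theorem ent_inj6 : Function.Injective U.ent := fun a b h => by injection h

/-- restriction of a tree in the model -/
private theorem bel_mem6 {M : Set U} (hM : Sat M QBel) {S : Set Node} {v : Node}
    (hS : U.tr S ∈ M) (hv : ∀ z ∈ v, U.ent z ∈ M) : U.tr (bel S v) ∈ M := by
  obtain ⟨y, hy, T, u, h1, h2⟩ := hM (U.tr S :: v.map U.ent) (by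
    intro x hx
    rcases List.mem_cons.1 hx with h | h
    · rw [h]
      exact hS
    · obtain ⟨z, hz, rfl⟩ := List.mem_map.1 h
      exact hv z hz) ⟨_, S, v, rfl, rfl⟩
  injection h1 with h3 h4
  injection h3 with h5
  have h6 : v = u := (List.map_injective_iff.2 ent_inj6) h4
  rw [h2, ← h5, ← h6] at hy
  exact hy

/-- direct extension in the model -/
private theorem ext_ex6 {K : Node → ℕ → U} {M : Node → Set U} (hK : ∀ u, rg K u = M u)
    (hmono : ∀ u v : Node, u <:+ v → M u ⊆ M v) (hQ : ∀ u, Sat (M u) QL1) (w : Node)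
    (T' : Set Node) (hT' : IsT w T') (hm : U.tr T' ∈ M w) :
    ∃ T'' ⊆ T', IsT w T'' ∧ U.tr T'' ∈ M w ∧ ∀ E, Tk6 K w E → Bar T'' (Dec E) := by
  by_cases hc : ∃ E, Tk6 K w E
  · obtain ⟨E, hE1, hE2⟩ := hc
    have hEm : U.st E ∈ M w := by
      refine hmono (w.drop (w.length - (Nat.unpair w.length).1)) w (List.drop_suffix _ _) ?_
      rw [← hK, ← hE2]
      exact mem_range_self _
    obtain ⟨T1, h1, h2, h3⟩ := L1 hT' (op_dec hE1) (frc_dec T' E)
    obtain ⟨y, hy, E', T0, s', T'', h4, h5, h6, h7, h8, h9, h10⟩ := hQ w [U.st E, U.tr T'] (by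
      intro x hx
      rcases List.mem_cons.1 hx with h | h
      · rw [h]
        exact hEm
      · rw [List.mem_singleton.1 h]
        exact hm) ⟨_, E, T', w, T1, hE1, hT', rfl, rfl, h2, h1, h3⟩
    injection h6 with h11 h12
    injection h11 with h13
    injection h12 with h14 _
    injection h14 with h15
    subst h13 h15 h7
    have hs : s' = w := stem_unique h5 hT'
    subst hs
    refine ⟨T'', h9, h8, hy, ?_⟩
    rintro E'' ⟨_, hE3⟩
    rw [hE2] at hE3
    injection hE3 with h16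
    rw [← h16]
    exact h10
  · exact ⟨T', Subset.rfl, hT', hm, fun E hE => absurd ⟨E, hE⟩ hc⟩

private theorem seq6_spec {K : Node → ℕ → U} {M : Node → Set U}
    (hmono : ∀ u v : Node, u <:+ v → M u ⊆ M v) (hent : ∀ u : Node, ∀ z ∈ u, U.ent z ∈ M u)
    (hQ : ∀ u, Sat (M u) QBel) {ext : Node → Set Node → Set Node}
    (hext : ∀ (w : Node) (T' : Set Node), IsT w T' → U.tr T' ∈ M w → ext w T' ⊆ T' ∧
      IsT w (ext w T') ∧ U.tr (ext w T') ∈ M w ∧ ∀ E, Tk6 K w E → Bar (ext w T') (Dec E))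
    {s : Node} {T : Set Node} (hT : IsT s T) (hm : U.tr T ∈ M s) :
    ∀ w : List Ent, in6 ext T s w → IsT (w ++ s) (seq6 ext T s w) ∧ seq6 ext T s w ⊆ T ∧
      U.tr (seq6 ext T s w) ∈ M (w ++ s) ∧ ∀ E, Tk6 K (w ++ s) E → Bar (seq6 ext T s w) (Dec E)
  | [], _ => by
    have h := hext s T hT hm
    exact ⟨h.2.1, h.1, h.2.2.1, h.2.2.2⟩
  | z :: w, hw => by
    obtain ⟨h1, h2, h3, -⟩ := seq6_spec hmono hent hQ hext hT hm w hw.1
    have h4 : IsT (z :: (w ++ s)) (bel (seq6 ext T s w) (z :: (w ++ s))) := isT_bel h1 hw.2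
    have h5 : U.tr (bel (seq6 ext T s w) (z :: (w ++ s))) ∈ M (z :: (w ++ s)) :=
      bel_mem6 (hQ _) (hmono _ _ (List.suffix_cons z _) h3) (hent _)
    have h := hext _ _ h4 h5
    exact ⟨h.2.1, h.1.trans ((bel_sub _ _).trans h2), h.2.2.1, h.2.2.2⟩

private theorem seq6_step {K : Node → ℕ → U} {M : Node → Set U}
    (hmono : ∀ u v : Node, u <:+ v → M u ⊆ M v) (hent : ∀ u : Node, ∀ z ∈ u, U.ent z ∈ M u)
    (hQ : ∀ u, Sat (M u) QBel) {ext : Node → Set Node → Set Node}
    (hext : ∀ (w : Node) (T' : Set Node), IsT w T' → U.tr T' ∈ M w → ext w T' ⊆ T' ∧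
      IsT w (ext w T') ∧ U.tr (ext w T') ∈ M w ∧ ∀ E, Tk6 K w E → Bar (ext w T') (Dec E))
    {s : Node} {T : Set Node} (hT : IsT s T) (hm : U.tr T ∈ M s) (z : Ent) (w : List Ent)
    (hw : in6 ext T s (z :: w)) : seq6 ext T s (z :: w) ⊆ seq6 ext T s w := by
  obtain ⟨h1, h2, h3, -⟩ := seq6_spec hmono hent hQ hext hT hm w hw.1
  have h4 : IsT (z :: (w ++ s)) (bel (seq6 ext T s w) (z :: (w ++ s))) := isT_bel h1 hw.2
  have h5 : U.tr (bel (seq6 ext T s w) (z :: (w ++ s))) ∈ M (z :: (w ++ s)) :=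
    bel_mem6 (hQ _) (hmono _ _ (List.suffix_cons z _) h3) (hent _)
  exact (hext _ _ h4 h5).1.trans (bel_sub _ _)

private theorem seq6_app {K : Node → ℕ → U} {M : Node → Set U}
    (hmono : ∀ u v : Node, u <:+ v → M u ⊆ M v) (hent : ∀ u : Node, ∀ z ∈ u, U.ent z ∈ M u)
    (hQ : ∀ u, Sat (M u) QBel) {ext : Node → Set Node → Set Node}
    (hext : ∀ (w : Node) (T' : Set Node), IsT w T' → U.tr T' ∈ M w → ext w T' ⊆ T' ∧
      IsT w (ext w T') ∧ U.tr (ext w T') ∈ M w ∧ ∀ E, Tk6 K w E → Bar (ext w T') (Dec E))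
    {s : Node} {T : Set Node} (hT : IsT s T) (hm : U.tr T ∈ M s) (x w : List Ent)
    (hw : in6 ext T s (x ++ w)) : seq6 ext T s (x ++ w) ⊆ seq6 ext T s w := by
  induction x with
  | nil => exact Subset.rfl
  | cons z x ih => exact (seq6_step hmono hent hQ hext hT hm z (x ++ w) hw).trans (ih hw.1)

theorem fusion_Mo (op : ℕ → List U → U) (h1 : Sk op QBel) (h2 : Sk op QL1) {C : Set U}
    (hC : C.Countable) {s : Node} {T : Set Node} (hT : IsT s T) (hTC : U.tr T ∈ C) (i : Om1) :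
    ∃ Ti ⊆ T, IsT s Ti ∧ Gen (Mo op C i) Ti ∧
      ∀ u ∈ Ti, ∃ S, U.tr S ∈ Mo op C i u ∧ IsT u S ∧ ∀ z, z :: u ∈ S ↔ z :: u ∈ Ti := by
  obtain ⟨K, hK⟩ := exists_enum op hC i
  have hmono : ∀ u v : Node, u <:+ v → Mo op C i u ⊆ Mo op C i v := fun u v h => Mo_mono op C i h
  have hent : ∀ u : Node, ∀ z ∈ u, U.ent z ∈ Mo op C i u := Mo_ent op C i
  have hQ1 : ∀ u, Sat (Mo op C i u) QBel := fun u => sat_cl h1 _
  have hQ2 : ∀ u, Sat (Mo op C i u) QL1 := fun u => sat_cl h2 _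
  have hm : U.tr T ∈ Mo op C i s := Mo_base op C i s hTC
  have hex : ∀ (w : Node) (T' : Set Node), ∃ T'' : Set Node, IsT w T' → U.tr T' ∈ Mo op C i w →
      T'' ⊆ T' ∧ IsT w T'' ∧ U.tr T'' ∈ Mo op C i w ∧ ∀ E, Tk6 K w E → Bar T'' (Dec E) := by
    intro w T'
    by_cases hc : IsT w T' ∧ U.tr T' ∈ Mo op C i w
    · obtain ⟨T'', h3, h4, h5, h6⟩ := ext_ex6 hK hmono hQ2 w T' hc.1 hc.2
      exact ⟨T'', fun _ _ => ⟨h3, h4, h5, h6⟩⟩
    · exact ⟨∅, fun h3 h4 => absurd ⟨h3, h4⟩ hc⟩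
  choose ext hext using hex
  have hspec := seq6_spec hmono hent hQ1 hext hT hm
  have hIs : IsT s {u | ∃ w : List Ent, u = w ++ s ∧ in6 ext T s w} := by
    refine ⟨⟨[], rfl, trivial⟩, ?_, ?_, ?_⟩
    · rintro u ⟨w, rfl, -⟩
      exact List.suffix_append w s
    · rintro z u ⟨w, hw, hin⟩
      cases w with
      | nil => exact Or.inr hw
      | cons z' w =>
        rw [List.cons_append] at hw
        injection hw with h3 h4
        exact Or.inl ⟨w, h4, hin.1⟩
    · rintro u ⟨w, rfl, hw⟩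
      obtain ⟨h3, -⟩ := hspec w hw
      refine (h3.split (w ++ s) h3.stem).trans (Cardinal.mk_le_mk_of_subset ?_)
      intro z hz
      exact ⟨z :: w, rfl, hw, hz⟩
  have hbel : ∀ w : List Ent, in6 ext T s w →
      bel {u | ∃ w : List Ent, u = w ++ s ∧ in6 ext T s w} (w ++ s) ⊆ seq6 ext T s w := by
    intro w hw
    rintro t ⟨⟨w', rfl, hw'⟩, ht2⟩
    obtain ⟨x, hx⟩ := ht2
    have h4 : x ++ w = w' := by
      rw [← List.append_assoc] at hx
      exact List.append_cancel_right hx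
    subst h4
    exact seq6_app hmono hent hQ1 hext hT hm x w hw' (hspec _ hw').1.stem
  refine ⟨{u | ∃ w : List Ent, u = w ++ s ∧ in6 ext T s w}, ?_, hIs, ?_, ?_⟩
  · rintro u ⟨w, rfl, hw⟩
    obtain ⟨h3, h4, -⟩ := hspec w hw
    exact h4 h3.stem
  · intro u hu E hE hEu T'' hT'' hsub
    obtain ⟨t, ht⟩ := hT''
    rw [← hK u] at hEu
    obtain ⟨b, hb⟩ := hEu
    have hn : u.length ≤ Nat.pair u.length b := Nat.left_le_pair _ _
    have key : ∃ w ∈ {u | ∃ w : List Ent, u = w ++ s ∧ in6 ext T s w}, u <:+ w ∧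
        w.length = Nat.pair u.length b ∧ ∃ T3, IsTree T3 ∧ T3 ⊆ T'' ∧
        T3 ⊆ bel {u | ∃ w : List Ent, u = w ++ s ∧ in6 ext T s w} w := by
      rcases le_or_gt (Nat.pair u.length b) t.length with hle | hlt
      · have hut : u <:+ t := (hsub ht.stem).2
        have hwt : t.drop (t.length - Nat.pair u.length b) <:+ t := List.drop_suffix _ _
        have hwl : (t.drop (t.length - Nat.pair u.length b)).length = Nat.pair u.length b := by
          rw [List.length_drop]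
          omega
        have huw : u <:+ t.drop (t.length - Nat.pair u.length b) :=
          List.suffix_of_suffix_length_le hut hwt (by rw [hwl]; exact hn)
        refine ⟨_, mem_of_suffix hIs ((hIs.above u hu).trans huw) hwt (hsub ht.stem).1, huw, hwl,
          T'', ⟨t, ht⟩, Subset.rfl, ?_⟩
        intro x hx
        exact ⟨(hsub hx).1, hwt.trans (ht.above x hx)⟩
      · obtain ⟨w, hw, hwl⟩ := exists_len ht hlt.le
        refine ⟨w, (hsub hw).1, (hsub hw).2, hwl, bel T'' w, ⟨w, isT_bel ht hw⟩, bel_sub _ _, ?_⟩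
        intro x hx
        exact ⟨(hsub hx.1).1, hx.2⟩
    obtain ⟨w, hw, huw, hwl, T3, hT3, h3, h4⟩ := key
    have htask : Tk6 K w E := by
      refine ⟨hE, ?_⟩
      rw [hwl, Nat.unpair_pair]
      have h5 : w.drop (Nat.pair u.length b - u.length) = u := by
        have := List.suffix_iff_eq_drop.1 huw
        rw [hwl] at this
        exact this.symm
      rw [h5]
      exact hb
    obtain ⟨w0, rfl, hw0⟩ := hw
    obtain ⟨h5, h6, h7, h8⟩ := hspec w0 hw0
    obtain ⟨v, hv, hvE⟩ := h8 E htask T3 hT3 (h4.trans (hbel w0 hw0))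
    have hwv : w0 ++ s <:+ v := (h4 hv).2
    have hvS : v ∈ seq6 ext T s w0 := hbel w0 hw0 (h4 hv)
    refine ⟨v, h3 hv, bel (seq6 ext T s w0) v, ?_, isT_bel h5 hvS, ?_, hvE⟩
    · exact bel_mem6 (hQ1 v) (hmono _ _ hwv h7) (hent v)
    · intro x hx
      exact ⟨hbel w0 hw0 ⟨hx.1, hwv.trans hx.2⟩, hx.2⟩
  · rintro u ⟨w, rfl, hw⟩
    obtain ⟨h3, -, h4, -⟩ := hspec w hw
    refine ⟨seq6 ext T s w, h4, h3, fun z => ⟨fun hz => ⟨z :: w, rfl, hw, hz⟩, ?_⟩⟩
    rintro ⟨w', hw', hin⟩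
    have h5 : z :: w = w' := List.append_cancel_right (bs := s) (by simpa using hw')
    subst h5
    exact hin.2

end Pool.Agent.Helper4.RB
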