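import Pool.Agent.Helper4.RB.Stat1
import Pool.Agent.Helper4.RB.ClL

/-!
# Block RB-A10: a countable closed set whose countable ordinals are an element of `S0`

Let `W i = cl op (C ∪ {o1 j | j < i})`, a countable set (`countable_Iio_Om1`, `cl_countable`), monotone
in `i`. Let `g j` be larger than `j` and than all `k` with
`o1 k ∈ cl op (C ∪ {o1 j' | j' ≤ j})` (`bdd_Om1`). By `statO_lim` there is a nonzero closure point
`i ∈ S0` of `g` which is a limit (`∀ j < i, ∃ j', j < j' < i`). If `o1 k ∈ W i` then by `cl_finite` it is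
in the closure of a finite subset of `C ∪ {o1 j | j < i}`; there is `j < i` such that the finitely many
countable ordinals of this subset are `≤ j` (`i` is not zero), so `k < g j < i`.
-/

set_option autoImplicit false

namespace Pool.Agent.Helper4.RB

open Cardinal Ordinal Set

private def AA75 (C : Set U) (j : Om1) : Set U := C ∪ {y | ∃ j' ≤ j, y = U.o1 j'}

private theorem AA_mono75 (C : Set U) {j j' : Om1} (h : j ≤ j') : AA75 C j ⊆ AA75 C j' := by
  rintro y (hy | ⟨k, hk, rfl⟩)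
  · exact Or.inl hy
  · exact Or.inr ⟨k, hk.trans h, rfl⟩

private theorem AA_countable75 {C : Set U} (hC : C.Countable) (j : Om1) : (AA75 C j).Countable := by
  refine hC.union ?_
  obtain ⟨j1, hj1⟩ := exists_gt_Om1 j
  have h1 := (countable_Iio_Om1 j1).image U.o1
  refine h1.mono ?_
  rintro y ⟨k, hk, rfl⟩
  exact ⟨k, lt_of_le_of_lt hk hj1, rfl⟩

private theorem fin75 {C : Set U} {i : Om1} (hi : ∃ j, j < i) {F : Set U} (hF : F.Finite)
    (hs : F ⊆ C ∪ {y | ∃ j < i, y = U.o1 j}) : ∃ j < i, F ⊆ AA75 C j := by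
  induction F, hF using Set.Finite.induction_on with
  | empty =>
    obtain ⟨j, hj⟩ := hi
    exact ⟨j, hj, Set.empty_subset _⟩
  | @insert y F _ _ ih =>
    obtain ⟨j, hj, hjF⟩ := ih ((Set.subset_insert _ _).trans hs)
    rcases hs (Set.mem_insert y F) with hy | ⟨j', hj', rfl⟩
    · refine ⟨j, hj, ?_⟩
      rw [Set.insert_subset_iff]
      exact ⟨Or.inl hy, hjF⟩
    · refine ⟨max j j', max_lt hj hj', ?_⟩
      rw [Set.insert_subset_iff]
      exact ⟨Or.inr ⟨j', le_max_right _ _, rfl⟩, hjF.trans (AA_mono75 C (le_max_left _ _))⟩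

theorem exists_index (op : ℕ → List U → U) {C : Set U} (hC : C.Countable) {S0 : Set Om1}
    (hS : StatO S0) : ∃ i ∈ S0, (∃ j, j < i) ∧ (∀ j < i, ∃ j', j < j' ∧ j' < i) ∧
      ∀ k, U.o1 k ∈ cl op (C ∪ {y | ∃ j < i, y = U.o1 j}) → k < i := by
  have hg : ∀ j : Om1, ∃ g : Om1, ∀ k, U.o1 k ∈ cl op (AA75 C j) → k < g := by
    intro j
    have h1 : {k | U.o1 k ∈ cl op (AA75 C j)}.Countable :=
      (cl_countable op (AA_countable75 hC j)).preimage (fun a b h => U.o1.inj h)
    obtain ⟨g, hg⟩ := bdd_Om1 h1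
    exact ⟨g, fun k hk => hg k hk⟩
  choose g hg using hg
  obtain ⟨i, ⟨hi, hl⟩, h0, hc⟩ := statO_lim hS g
  refine ⟨i, hi, h0, hl, fun k hk => ?_⟩
  obtain ⟨F, hF, hFs, hkF⟩ := cl_finite hk
  obtain ⟨j, hj, hjF⟩ := fin75 h0 hF hFs
  exact (hg j k (cl_mono op hjF hkF)).trans (hc j hj)

end Pool.Agent.Helper4.RB
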