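import Pool.Agent.Helper4.RB.Tr1

/-!
# Block RB-A11: the game argument

Ranks: for an ordinal `α : Ordinal.{0}` define `Bad α u` by well-founded recursion:
`Bad α u` iff `u ∈ B` or `#{z | z :: u ∈ T ∧ ¬ ∃ β < α, Bad β (z :: u)} < kap |u|`
(this is monotone in `α`). Let `G = {u | ¬ ∃ α, Bad α u}`. If `u ∈ G` then
`#{z | z :: u ∈ T ∧ z :: u ∉ G} < kap |u|` may fail, but we know: `u ∉ B` and
`#{z | z :: u ∈ T ∧ z :: u ∈ G} ≥ kap |u|`: otherwise let `α` be an ordinal larger than the ranks of
all `z :: u ∉ G`, `z : Ent` (small family: `Ordinal.bddAbove_range` / `Ordinal.lsub`); then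
`Bad α u`.

Case 1: `s ∈ G`. Let `T' = {u ∈ T | ∀ v, s <:+ v → v <:+ u → v ∈ G}`. It is a tree with stem `s`
(the children of `u ∈ T'` are the `z` with `z :: u ∈ T`, `z :: u ∈ G`: at least `kap |u|` many), and
`T' ∩ B = ∅`.

Case 2: `s ∉ G`. For every `u ∉ G` let `rk u` be the least `α` with `Bad α u`, and
`Z u = {z | z :: u ∈ T ∧ ¬ ∃ β < rk u, Bad β (z :: u)}` if `u ∉ G` and `u ∉ B`, and `Z u = ∅` otherwise.
So `#(Z u) < kap |u|`. Let `w` be a path as in the statement and suppose `w n ∉ B` for all `n`. By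
induction all `w n ∉ G` and `rk (w (n+1)) < rk (w n)`: `z ∉ Z (w n)`, `z :: w n ∈ T` give
`∃ β < rk (w n), Bad β (z :: w n)`. An infinite decreasing sequence of ordinals; contradiction.
-/

set_option autoImplicit false

namespace Pool.Agent.Helper4.RB

open Cardinal Ordinal Set

/-- The losing nodes. -/
private inductive W33 (T B : Set Node) : Node → Prop
  | base (u : Node) (h : u ∈ B) : W33 T B u
  | step (u : Node) (Z : Set Ent) (hZ : #Z < kap u.length)
      (h : ∀ z, z :: u ∈ T → z ∉ Z → W33 T B (z :: u)) : W33 T B u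

private lemma kap_pos33 (n : ℕ) : 0 < kap n := Cardinal.aleph_pos _

private lemma suffix_unique33 {z z' : Ent} {u w : Node} (h : (z :: u) <:+ w)
    (h' : (z' :: u) <:+ w) : z = z' := by
  have h1 : (z :: u) <:+ (z' :: u) := List.suffix_of_suffix_length_le h h' (by simp)
  have h2 := h1.eq_of_length (by simp)
  exact (List.cons.inj h2).1

private lemma win33 {T B : Set Node} {u : Node} (hu : W33 T B u) :
    ∃ Z : Node → Set Ent, (∀ w, #(Z w) < kap w.length) ∧
      ∀ w : ℕ → Node, w 0 = u → (∀ n, ∃ z, w (n + 1) = z :: w n ∧ z :: w n ∈ T ∧ z ∉ Z (w n)) →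
        ∃ n, w n ∈ B := by
  classical
  induction hu with
  | base u h =>
    refine ⟨fun _ => ∅, fun w => ?_, fun w hw _ => ⟨0, ?_⟩⟩
    · rw [Cardinal.mk_emptyCollection]
      exact kap_pos33 _
    · rw [hw]
      exact h
  | step u Z0 hZ0 h ih =>
    have hex : ∀ z : Ent, ∃ Zz : Node → Set Ent, (∀ w, #(Zz w) < kap w.length) ∧
        (z :: u ∈ T → z ∉ Z0 → ∀ w : ℕ → Node, w 0 = z :: u →
          (∀ n, ∃ y, w (n + 1) = y :: w n ∧ y :: w n ∈ T ∧ y ∉ Zz (w n)) → ∃ n, w n ∈ B) := by
      intro z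
      by_cases hz : z :: u ∈ T ∧ z ∉ Z0
      · obtain ⟨Zz, h1, h2⟩ := ih z hz.1 hz.2
        exact ⟨Zz, h1, fun _ _ => h2⟩
      · refine ⟨fun _ => ∅, fun w => ?_, fun h1 h2 => absurd ⟨h1, h2⟩ hz⟩
        rw [Cardinal.mk_emptyCollection]
        exact kap_pos33 _
    choose Zf hZf1 hZf2 using hex
    refine ⟨fun w => if w = u then Z0 else {y | ∃ z, (z :: u) <:+ w ∧ y ∈ Zf z w}, ?_, ?_⟩
    · intro w
      by_cases hw : w = u
      · simp only [hw, if_true]
        exact hZ0
      · simp only [hw, if_false]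
        by_cases hz : ∃ z, (z :: u) <:+ w
        · obtain ⟨z, hz⟩ := hz
          have heq : {y | ∃ z, (z :: u) <:+ w ∧ y ∈ Zf z w} = Zf z w := by
            ext y
            constructor
            · rintro ⟨z', hz', hy⟩
              rwa [suffix_unique33 hz hz']
            · intro hy
              exact ⟨z, hz, hy⟩
          rw [heq]
          exact hZf1 z w
        · have heq : {y | ∃ z, (z :: u) <:+ w ∧ y ∈ Zf z w} = ∅ := by
            ext y
            constructor
            · rintro ⟨z', hz', -⟩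
              exact absurd ⟨z', hz'⟩ hz
            · intro hy
              exact absurd hy (Set.notMem_empty _)
          rw [heq, Cardinal.mk_emptyCollection]
          exact kap_pos33 _
    · intro w hw0 hw
      obtain ⟨z, hz1, hz2, hz3⟩ := hw 0
      rw [hw0] at hz1 hz2 hz3
      simp only [if_true] at hz3
      have hsuf : ∀ n, (z :: u) <:+ w (n + 1) := by
        intro n
        induction n with
        | zero => rw [hz1]
        | succ n ihn =>
          obtain ⟨y, hy, -, -⟩ := hw (n + 1)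
          rw [hy]
          exact ihn.trans (List.suffix_cons _ _)
      have hres := hZf2 z hz2 hz3 (fun n => w (n + 1)) hz1 (by
        intro n
        obtain ⟨y, hy1, hy2, hy3⟩ := hw (n + 1)
        refine ⟨y, hy1, hy2, fun hmem => hy3 ?_⟩
        have hne : w (n + 1) ≠ u := by
          intro he
          have := (hsuf n).length_le
          rw [he, List.length_cons] at this
          omega
        simp only [hne, if_false]
        exact ⟨z, hsuf n, hmem⟩)
      obtain ⟨n, hn⟩ := hres
      exact ⟨n + 1, hn⟩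

theorem game {s : Node} {T : Set Node} (hT : IsT s T) (B : Set Node) :
    (∃ T' ⊆ T, IsT s T' ∧ ∀ u ∈ T', u ∉ B) ∨
    ∃ Z : Node → Set Ent, (∀ w, #(Z w) < kap w.length) ∧
      ∀ w : ℕ → Node, w 0 = s → (∀ n, ∃ z, w (n + 1) = z :: w n ∧ z :: w n ∈ T ∧ z ∉ Z (w n)) →
        ∃ n, w n ∈ B := by
  by_cases hs : W33 T B s
  · exact Or.inr (win33 hs)
  · left
    have hself : ∀ u ∈ {u | u ∈ T ∧ ∀ v, s <:+ v → v <:+ u → ¬ W33 T B v}, ¬ W33 T B u :=
      fun u hu => hu.2 u (hT.above u hu.1) List.suffix_rfl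
    refine ⟨{u | u ∈ T ∧ ∀ v, s <:+ v → v <:+ u → ¬ W33 T B v}, fun u hu => hu.1,
      ⟨⟨hT.stem, ?_⟩, fun u hu => hT.above u hu.1, ?_, ?_⟩, ?_⟩
    · intro v hv1 hv2
      have : v = s := hv2.eq_of_length (le_antisymm hv2.length_le hv1.length_le)
      rw [this]
      exact hs
    · rintro z u ⟨hu1, hu2⟩
      rcases hT.down z u hu1 with h | h
      · exact Or.inl ⟨h, fun v hv1 hv2 => hu2 v hv1 (hv2.trans (List.suffix_cons _ _))⟩
      · exact Or.inr h
    · intro u hu
      by_contra hlt
      rw [not_le] at hlt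
      refine hself u hu (W33.step u _ hlt ?_)
      intro z hz1 hz2
      by_contra hW
      apply hz2
      refine ⟨hz1, fun v hv1 hv2 => ?_⟩
      rcases List.suffix_cons_iff.1 hv2 with h | h
      · rw [h]
        exact hW
      · exact hu.2 v hv1 h
    · intro u hu hB
      exact hself u hu (W33.base u hB)

end Pool.Agent.Helper4.RB
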