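import Pool.Agent.Helper4.RB.Nb1
import Pool.Agent.Helper4.RB.Nb2
import Pool.Agent.Helper4.RB.Nb3

/-!
# Block RB-A12: the Namba lemma

Replace `S0` by its limit points `{i ∈ S0 | ∀ j < i, ∃ j' ...}` (`statO_lim`); nonzero: `exists_index`
gives it. For every `i` let `Ti i` be the tree of `fusion_Mo`, and `B i` the set of the nodes `u` such
that `o1 j ∈ Mo op C i u` for some `j` with `¬ j < i`. Apply `game` to `Ti i`, `B i`. If for some `i ∈ S0`
(nonzero, limit) the first alternative holds we are done: `T' ⊆ Ti i`, and `Gen` is inherited by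
subtrees (`bel T' v ⊆ bel (Ti i) v`).

Otherwise let `Z i` be the function of the second alternative (`i ∈ S0` nonzero limit; `Z i = ∅`
for the other `i`; note that the first alternative fails for these `i`), and
`Zs u = ⋃ i, Z i u`: `#(Zs u) < kap |u|` (`kap_union`, `mk_Om1`). Let
`Q l y := ∃ S u z, l = tr S :: u.map ent ∧ y = ent z ∧ z :: u ∈ S ∧ z ∉ Zs u`, and let `op'` be
`op' 0 = ` a Skolem function for `Q`, `op' (n+1) = op n`; so `Sk op' Q`, and every set closed under `op'`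
is closed under `op`: `cl op X ⊆ cl op' X` for all `X`. By `exists_index` for `op'` and
`C' = C ∪ {ent z | z ∈ s}` there is `i ∈ S0` (nonzero, limit) such that
`N = cl op' (C' ∪ {o1 j | j < i})` has only countable ordinals `< i`.

Construct `w : ℕ → Node` with `w n ∈ Ti i` and all entries of `w n` in `N` (`ent z ∈ N` for `z ∈ w n`):
`w 0 = s`. Given `w n`: `Mo op C i (w n) ⊆ N` (all generators are in `N`), so there is `S` with
`tr S ∈ N`, `IsT (w n) S`, `z :: w n ∈ S ↔ z :: w n ∈ Ti i`. There is `z` with `z :: w n ∈ S`,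
`z ∉ Zs (w n)` (`exists_child`), so by `Sat N Q` there is such a `z` with `ent z ∈ N` (from `Q l y` with
`l = tr S :: (w n).map ent` recover `S` and `w n` by injectivity of the constructors). Let
`w (n+1) = z :: w n`. By the second alternative `w n ∈ B i` for some `n`, i.e. `o1 j ∈ Mo op C i (w n) ⊆ N`
with `¬ j < i`, a contradiction.
-/

set_option autoImplicit false

namespace Pool.Agent.Helper4.RB

open Cardinal Ordinal Set

private lemma gen_sub_h12 {M : Node → Set U} {T T' : Set Node} (h : Gen M T) (hT : T' ⊆ T) :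
    Gen M T' := by
  intro u hu E hE hst T'' hT'' hsub
  obtain ⟨v, hv, S, h1, h2, h3, h4⟩ := h u (hT hu) E hE hst T'' hT''
    (hsub.trans (bel_mono hT u))
  exact ⟨v, hv, S, h1, h2, (bel_mono hT v).trans h3, h4⟩

private lemma zero_lt_kap_h12 (n : ℕ) : 0 < kap n :=
  lt_of_lt_of_le Cardinal.aleph0_pos (aleph0_le_kap n)

/-- The relation for the children outside `Zs`. -/
private def QZ_h12 (Zs : Node → Set Ent) : List U → U → Prop := fun l y =>
  ∃ (S : Set Node) (u : Node) (z : Ent), l = U.tr S :: u.map U.ent ∧ y = U.ent z ∧ z :: u ∈ S ∧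
    z ∉ Zs u

/-- The operations `op` with a Skolem function of `Q` added. -/
private noncomputable def opE_h12 (op : ℕ → List U → U) (Q : List U → U → Prop) :
    ℕ → List U → U
  | 0, l => @Classical.epsilon U ⟨U.tr ∅⟩ (Q l)
  | n + 1, l => op n l

private lemma sk_opE_h12 (op : ℕ → List U → U) (Q : List U → U → Prop) :
    Sk (opE_h12 op Q) Q :=
  ⟨0, fun l h => by
    have h1 := @Classical.epsilon_spec_aux U ⟨U.tr ∅⟩ (Q l) h
    exact h1⟩

private lemma cl_opE_h12 (op : ℕ → List U → U) (Q : List U → U → Prop) (X : Set U) :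
    cl op X ⊆ cl (opE_h12 op Q) X := by
  intro x hx
  induction hx with
  | base h => exact Cl.base h
  | app n l _ ih => exact Cl.app (op := opE_h12 op Q) (n + 1) l ih

theorem namba (op : ℕ → List U → U) (h1 : Sk op QBel) (h2 : Sk op QL1) {C : Set U}
    (hC : C.Countable) {s : Node} {T : Set Node} (hT : IsT s T) (hTC : U.tr T ∈ C)
    {S0 : Set Om1} (hS : StatO S0) :
    ∃ i ∈ S0, (∃ j, j < i) ∧ (∀ j < i, ∃ j', j < j' ∧ j' < i) ∧ ∃ T' ⊆ T, IsT s T' ∧
      (∀ u ∈ T', ∀ j, U.o1 j ∈ Mo op C i u → j < i) ∧ Gen (Mo op C i) T' := by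
  classical
  by_contra hcon
  have hfus := fun i => fusion_Mo op h1 h2 hC hT hTC i
  choose Ti hTiT hTi hGen hSel using hfus
  have hgame : ∀ i : Om1, ∃ Z : Node → Set Ent, (∀ w, #(Z w) < kap w.length) ∧
      (i ∈ S0 → (∃ j, j < i) → (∀ j < i, ∃ j', j < j' ∧ j' < i) →
        ∀ w : ℕ → Node, w 0 = s →
          (∀ n, ∃ z, w (n + 1) = z :: w n ∧ z :: w n ∈ Ti i ∧ z ∉ Z (w n)) →
          ∃ n, ∃ j, ¬ j < i ∧ U.o1 j ∈ Mo op C i (w n)) := by
    intro i
    by_cases hP : i ∈ S0 ∧ (∃ j, j < i) ∧ (∀ j < i, ∃ j', j < j' ∧ j' < i)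
    · rcases game (hTi i) {u | ∃ j, ¬ j < i ∧ U.o1 j ∈ Mo op C i u} with
        ⟨T', hT'1, hT'2, hT'3⟩ | ⟨Z, hZ1, hZ2⟩
      · exfalso
        apply hcon
        refine ⟨i, hP.1, hP.2.1, hP.2.2, T', hT'1.trans (hTiT i), hT'2, ?_,
          gen_sub_h12 (hGen i) hT'1⟩
        intro u hu j hj
        by_contra hlt
        exact hT'3 u hu ⟨j, hlt, hj⟩
      · exact ⟨Z, hZ1, fun _ _ _ => hZ2⟩
    · refine ⟨fun _ => ∅, fun w => ?_, fun a b c => absurd ⟨a, b, c⟩ hP⟩
      rw [Cardinal.mk_emptyCollection]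
      exact zero_lt_kap_h12 _
  choose Z hZ1 hZ2 using hgame
  have hZs : ∀ u : Node, #(⋃ i, Z i u : Set Ent) < kap u.length := fun u =>
    kap_union u.length mk_Om1.le (fun i => Z i u) (fun i => hZ1 i u)
  obtain ⟨op', hop'⟩ : ∃ op', op' = opE_h12 op (QZ_h12 fun u => ⋃ i, Z i u) := ⟨_, rfl⟩
  have hsk : Sk op' (QZ_h12 fun u => ⋃ i, Z i u) := by
    rw [hop']
    exact sk_opE_h12 _ _
  have hcl : ∀ X, cl op X ⊆ cl op' X := by
    rw [hop']
    exact fun X => cl_opE_h12 _ _ X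
  have hC' : (C ∪ {y | ∃ z ∈ s, y = U.ent z}).Countable := by
    refine hC.union (Set.Finite.countable ?_)
    refine ((List.finite_toSet s).image U.ent).subset ?_
    rintro y ⟨z, hz, rfl⟩
    exact ⟨z, hz, rfl⟩
  obtain ⟨i, hi, hi0, hilim, hidx⟩ := exists_index op' hC' hS
  obtain ⟨N, hN⟩ : ∃ N, N = cl op' (C ∪ {y | ∃ z ∈ s, y = U.ent z} ∪
    {y | ∃ j < i, y = U.o1 j}) := ⟨_, rfl⟩
  have hNC : C ⊆ N := by
    rw [hN]
    exact fun y hy => subset_cl op' _ (Or.inl (Or.inl hy))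
  have hNs : ∀ z ∈ s, U.ent z ∈ N := by
    rw [hN]
    exact fun z hz => subset_cl op' _ (Or.inl (Or.inr ⟨z, hz, rfl⟩))
  have hNo : ∀ j < i, U.o1 j ∈ N := by
    rw [hN]
    exact fun j hj => subset_cl op' _ (Or.inr ⟨j, hj, rfl⟩)
  have hNcl : ∀ X ⊆ N, cl op' X ⊆ N := by
    rw [hN]
    exact fun X hX => cl_subset hX
  have hNi : ∀ k, U.o1 k ∈ N → k < i := by
    rw [hN]
    exact hidx
  have hMo : ∀ w : Node, (∀ z ∈ w, U.ent z ∈ N) → Mo op C i w ⊆ N := by
    intro w hw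
    refine (hcl _).trans (hNcl _ ?_)
    rintro y ((hy | ⟨j, hj, rfl⟩) | ⟨z, hz, rfl⟩)
    · exact hNC hy
    · exact hNo j hj
    · exact hw z hz
  have hstep : ∀ w : Node, w ∈ Ti i → (∀ z ∈ w, U.ent z ∈ N) →
      ∃ z, z :: w ∈ Ti i ∧ U.ent z ∈ N ∧ z ∉ ⋃ i, Z i w := by
    intro w hw hwN
    obtain ⟨S, hS1, hS2, hS3⟩ := hSel i w hw
    obtain ⟨z, hz1, hz2⟩ := exists_child hS2 hS2.stem (hZs w)
    have hsat : Sat N (QZ_h12 fun u => ⋃ i, Z i u) := by
      rw [hN]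
      exact sat_cl hsk _
    obtain ⟨y, hyN, S', u', z', hl, hy, hz3, hz4⟩ := hsat (U.tr S :: w.map U.ent) (by
      intro x hx
      rcases List.mem_cons.1 hx with rfl | hx
      · exact hMo w hwN hS1
      · obtain ⟨z, hz, rfl⟩ := List.mem_map.1 hx
        exact hwN z hz) ⟨U.ent z, S, w, z, rfl, rfl, hz1, hz2⟩
    obtain ⟨hl1, hl2⟩ := List.cons.inj hl
    have hSS : S = S' := U.tr.inj hl1
    have huw : w = u' := List.map_injective_iff.2 (fun a b hab => U.ent.inj hab) hl2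
    subst hSS
    subst huw
    rw [hy] at hyN
    exact ⟨z', (hS3 z').1 hz3, hyN, hz4⟩
  choose! nx hnx1 hnx2 hnx3 using hstep
  let w : ℕ → Node := fun n => Nat.rec s (fun _ v => nx v :: v) n
  have hw0 : w 0 = s := rfl
  have hws : ∀ n, w (n + 1) = nx (w n) :: w n := fun n => rfl
  have hinv : ∀ n, w n ∈ Ti i ∧ ∀ z ∈ w n, U.ent z ∈ N := by
    intro n
    induction n with
    | zero =>
      rw [hw0]
      exact ⟨(hTi i).stem, hNs⟩
    | succ n ih =>
      rw [hws]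
      refine ⟨hnx1 _ ih.1 ih.2, ?_⟩
      intro z hz
      rcases List.mem_cons.1 hz with rfl | hz
      · exact hnx2 _ ih.1 ih.2
      · exact ih.2 z hz
  obtain ⟨n, j, hj1, hj2⟩ := hZ2 i hi hi0 hilim w hw0 (fun n =>
    ⟨nx (w n), hws n, hnx1 _ (hinv n).1 (hinv n).2, fun hmem =>
      hnx3 _ (hinv n).1 (hinv n).2 (Set.mem_iUnion.2 ⟨i, hmem⟩)⟩)
  exact hj1 (hNi j (hMo _ (hinv n).2 hj2))

end Pool.Agent.Helper4.RB
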