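import Mathlib

/-!
# MP_145a0d_lc: the statement

Martin's Maximum, and the relation `ℵ_{ω+1} →poly (ω_1-cl)^2_{<ℵ_ω-bdd}`.
-/

set_option autoImplicit false

namespace Pool.Agent.Helper4.RB

open Cardinal Ordinal Set

/-- The set of all ordinals below `ω_1`. -/
abbrev Omega1 : Type := (ω_ 1).ToType

/-- Closed unbounded subsets of `ω_1`. -/
def IsClub (C : Set Omega1) : Prop :=
  (∀ a, ∃ c ∈ C, a < c) ∧
  ∀ a, (∃ b, b < a) → (∀ b < a, ∃ c ∈ C, b < c ∧ c < a) → a ∈ C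

/-- Stationary subsets of `ω_1`. -/
def Stationary (S : Set Omega1) : Prop := ∀ C, IsClub C → (S ∩ C).Nonempty

/-- `C` is a name of a subset of `ω_1`, given by the sets `C i` of the conditions of `P` which force
that `i` belongs to it. -/
structure IsName {P : Type} [Preorder P] (C : Omega1 → Set P) : Prop where
  lower : ∀ i, IsLowerSet (C i)
  dense : ∀ i p, (∀ q ≤ p, ∃ r ≤ q, r ∈ C i) → p ∈ C i

/-- `p` forces that the set named by `C` is unbounded in `ω_1`. -/
def ForcesUnbounded {P : Type} [Preorder P] (p : P) (C : Omega1 → Set P) : Prop :=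
  ∀ a, ∀ q ≤ p, ∃ r ≤ q, ∃ c, a < c ∧ r ∈ C c

/-- `p` forces that the set named by `C` has elements below `a` above each `b < a`. -/
def ForcesUnboundedIn {P : Type} [Preorder P] (p : P) (C : Omega1 → Set P) (a : Omega1) : Prop :=
  ∀ b < a, ∀ q ≤ p, ∃ r ≤ q, ∃ c, b < c ∧ c < a ∧ r ∈ C c

/-- `p` forces that the set named by `C` is closed and unbounded in `ω_1`. -/
def ForcesClub {P : Type} [Preorder P] (p : P) (C : Omega1 → Set P) : Prop :=
  ForcesUnbounded p C ∧
  ∀ a, (∃ b, b < a) → ∀ q ≤ p, ForcesUnboundedIn q C a → q ∈ C a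

/-- The forcing notion `P` preserves stationary subsets of `ω_1`: if `S` is stationary and `p` forces
that (the set named by) `C` is a club, then some `q ≤ p` forces that some `i ∈ S` belongs to `C`.
(Applied to all `p' ≤ p`, this says that `p` forces that `C` meets `S`.) -/
def PreservesStationary (P : Type) [Preorder P] : Prop :=
  ∀ S : Set Omega1, Stationary S → ∀ C : Omega1 → Set P, IsName C →
    ∀ p, ForcesClub p C → ∃ q ≤ p, ∃ i ∈ S, q ∈ C i

/-- Martin's Maximum: if `P` preserves stationary subsets of `ω_1` and the `D i`, `i < ω_1`, are dense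
subsets of `P`, then there is a filter on `P` meeting all of them. -/
def MartinsMaximum : Prop :=
  ∀ (P : Type) [Preorder P] [Nonempty P], PreservesStationary P →
    ∀ D : Omega1 → Set P, (∀ i p, ∃ q ≤ p, q ∈ D i) →
    ∃ G : Set P, IsUpperSet G ∧ (∀ p ∈ G, ∀ q ∈ G, ∃ r ∈ G, r ≤ p ∧ r ≤ q) ∧
      ∀ i, (G ∩ D i).Nonempty

/-- `f` is a map from the pairs `α < β < ω_{ω+1}` to `ω_{ω+1}`. -/
def IsColouring (f : Ordinal.{0} → Ordinal.{0} → Ordinal.{0}) : Prop :=
  ∀ α β, α < β → β < ω_ (ω + 1) → f α β < ω_ (ω + 1)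

/-- `f` is normal. -/
def IsNormalColouring (f : Ordinal.{0} → Ordinal.{0} → Ordinal.{0}) : Prop :=
  ∀ α β α' β', α < β → β < ω_ (ω + 1) → α' < β' → β' < ω_ (ω + 1) → f α β = f α' β' → β = β'

/-- All colour classes of `f` have fewer than `ℵ_ω` elements. -/
def IsBounded (f : Ordinal.{0} → Ordinal.{0} → Ordinal.{0}) : Prop :=
  ∀ ξ, #{p : Ordinal.{0} × Ordinal.{0} | p.1 < p.2 ∧ p.2 < ω_ (ω + 1) ∧ f p.1 p.2 = ξ} < ℵ_ ω

/-- `A` is `f`-rainbow: `f` is injective on the pairs of elements of `A`. -/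
def IsRainbow (f : Ordinal.{0} → Ordinal.{0} → Ordinal.{0}) (A : Set Ordinal.{0}) : Prop :=
  ∀ α ∈ A, ∀ β ∈ A, ∀ α' ∈ A, ∀ β' ∈ A, α < β → α' < β' → f α β = f α' β' → α = α' ∧ β = β'

/-- `A` is closed in its supremum. -/
def IsClosedInSup (A : Set Ordinal.{0}) : Prop :=
  ∀ α < sSup A, sSup (A ∩ Iio α) = α → α ∈ A

/-- The relation `ℵ_{ω+1} →poly (ω_1-cl)^2_{<ℵ_ω-bdd}`. -/
def PolyClosed : Prop :=
  ∀ f : Ordinal.{0} → Ordinal.{0} → Ordinal.{0}, IsColouring f → IsNormalColouring f →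
    IsBounded f → ∃ A : Set Ordinal.{0}, (∀ α ∈ A, α < ω_ (ω + 1)) ∧ IsClosedInSup A ∧
      IsRainbow f A ∧ typeLT A = ω_ 1

end Pool.Agent.Helper4.RB
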