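import Pool.Agent.Helper4.RB.Tr1

/-!
# Block RB-C1: basic facts on conditions

`gr_sub`: `bel T' u ⊆ bel T u`, `frc_sub`. `gr_prefix`: `e.x :: zs = l ++ z :: r` implies
`e.x :: (zs ++ zs') = l ++ z :: (r ++ zs')`.
`cond_restrict`: the stem of a subtree extends the stem (`stem_suffix`), so `mem` follows by
`Good.mono`.
`cond_prefix`: `List.IsChain`, `Pairwise` of a prefix; `ok_subset` is proved in block A2 for sets (here:
`OK` of a subset is easy: `R d` is antitone): `StatL` is monotone.
`index_lt`: `e.i < e.h ≤ e'.i` for consecutive entries; transitivity along the chain.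
`entry_of`: a split `ρ = ρ1 ++ e :: ρ2` (`List.append_of_mem`).
`pev_list`: induction on `a`: `Good.pev` for the head, then the induction hypothesis.
`gmem`: for `g` before `e` in the list and `e.b = true`: `Cond.mem`.
-/

set_option autoImplicit false

namespace Pool.Agent.Helper4.RB

open Cardinal Ordinal Set

variable {d : Lam → Lam → ℕ} {e0 : Ety} {T T' : Set Node} {ρ ρ1 ρ2 : List Ety}

theorem ok_mono {a b : Set Lam} (h : OK d a) (hb : b ⊆ a) : OK d b := by
  refine ⟨h.fin.subset hb, fun β hβ => (h.rb β (hb hβ)).mono (inter_subset_inter_left _ hb), ?_⟩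
  intro g
  obtain ⟨β, hβ, h1, h2⟩ := h.st g
  refine ⟨β, ?_, h1, h2⟩
  obtain ⟨hc, hx, hi⟩ := hβ
  exact ⟨hc, fun x hx' => hx x (hb hx'), hi.mono hb⟩

theorem gr_sub {e : Ety} {zs : List Lam} (h : Gr T e zs) (hs : T' ⊆ T) : Gr T' e zs := by
  intro u hu F hF l z r heq hv
  exact frc_sub (h u (hs hu) F hF l z r heq hv) (bel_mono hs u)

theorem gr_prefix {e : Ety} {zs zs' : List Lam} (h : Gr T e (zs ++ zs')) : Gr T e zs := by
  intro u hu F hF l z r heq hv
  refine h u hu F hF l z (r ++ zs') ?_ hv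
  have e1 : e.x :: (zs ++ zs') = (e.x :: zs) ++ zs' := rfl
  rw [e1, heq, List.append_assoc, List.cons_append]

theorem cond_restrict (h : Cond d e0 T ρ) (hT' : IsTree T') (hs : T' ⊆ T) : Cond d e0 T' ρ := by
  refine ⟨hT', h.head, h.chain, h.lth, h.inc, ?_, ?_, ?_, h.ok⟩
  · intro s' hs'
    obtain ⟨s, hsT⟩ := h.tree
    refine List.Pairwise.imp_of_mem ?_ (h.mem s hsT)
    intro a b _ hb hab hbt
    exact (h.good b hb hbt).1.mono s s' (stem_suffix hsT hs' hs) (hab hbt)
  · intro e he hb
    refine ⟨(h.good e he hb).1, ?_, ?_⟩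
    · intro u hu
      exact (h.good e he hb).2.ordlt u (hs hu)
    · intro u hu
      exact (h.good e he hb).2.o1lt u (hs hu)
  · intro ρ1 e ρ2 heq hb
    exact gr_sub (h.gr ρ1 e ρ2 heq hb) hs

theorem cond_prefix (h : Cond d e0 T (ρ1 ++ ρ2)) (hne : ρ1 ≠ []) : Cond d e0 T ρ1 := by
  refine ⟨h.tree, ?_, ?_, ?_, ?_, ?_, ?_, ?_, ?_⟩
  · obtain ⟨ρ', hρ'⟩ := h.head
    cases ρ1 with
    | nil => exact absurd rfl hne
    | cons a l =>
      rw [List.cons_append, List.cons.injEq] at hρ'
      exact ⟨l, by rw [hρ'.1]⟩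
  · exact (List.isChain_append.1 h.chain).1
  · exact fun e he => h.lth e (List.mem_append_left _ he)
  · exact (List.pairwise_append.1 h.inc).1
  · exact fun s hs => (List.pairwise_append.1 (h.mem s hs)).1
  · exact fun e he hb => h.good e (List.mem_append_left _ he) hb
  · intro ρa e ρb heq hb
    have h1 := h.gr ρa e (ρb ++ ρ2) (by rw [heq, List.append_assoc, List.cons_append]) hb
    rw [List.map_append] at h1
    exact gr_prefix h1
  · refine ok_mono h.ok ?_
    rintro x ⟨e, he, hx⟩
    exact ⟨e, List.mem_append_left _ he, hx⟩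

private theorem chain_pw_h17 : ∀ ρ : List Ety, ρ.IsChain Nx → (∀ e ∈ ρ, e.i < e.h) →
    ρ.Pairwise (fun e e' => e.i < e'.i ∧ e.h ≤ e'.i) := by
  intro ρ
  induction ρ with
  | nil => intro _ _; exact List.Pairwise.nil
  | cons a l ih =>
    intro hc hl
    have hcl : l.IsChain Nx := by
      have h2 : (a :: l) = [a] ++ l := rfl
      rw [h2] at hc
      exact (List.isChain_append.1 hc).2.1
    have ihl := ih hcl (fun e he => hl e (List.mem_cons_of_mem _ he))
    refine List.Pairwise.cons ?_ ihl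
    cases l with
    | nil => intro e he; simp at he
    | cons b l' =>
      have hab : Nx a b := by
        rw [List.isChain_cons_cons] at hc
        exact hc.1
      have hab' : a.h ≤ b.i := by
        rcases hab with h1 | h1
        · exact h1.2.ge
        · exact h1.2.le
      have hai : a.i < a.h := hl a (by simp)
      have hbi : b.i < b.h := hl b (by simp)
      intro e he
      rw [List.mem_cons] at he
      rcases he with rfl | he
      · exact ⟨hai.trans_le hab', hab'⟩
      · have h3 := (List.pairwise_cons.1 ihl).1 e he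
        exact ⟨(hai.trans_le hab').trans h3.1, hab'.trans h3.1.le⟩

theorem index_lt (h : Cond d e0 T ρ) : ρ.Pairwise (fun e e' => e.i < e'.i ∧ e.h ≤ e'.i) :=
  chain_pw_h17 ρ h.chain h.lth

theorem pts_append (ρ1 ρ2 : List Ety) : pts (ρ1 ++ ρ2) = pts ρ1 ∪ pts ρ2 := by
  ext x
  simp [pts, or_and_right, exists_or]

theorem pts_cons (e : Ety) (ρ : List Ety) : pts (e :: ρ) = insert e.x (pts ρ) := by
  ext x
  simp [pts, eq_comm]

theorem pts_eq_map (ρ : List Ety) : pts ρ = {x | x ∈ ρ.map Ety.x} := by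
  ext x
  simp [pts]

theorem pev_list {e : Ety} (h : Good d e) {u : Node} (a : List Lam) :
    ∀ F, U.fn F ∈ rg e.K u → (∀ x ∈ a, U.ord x ∈ rg e.K u) →
      U.fn (fun l => F (a ++ l)) ∈ rg e.K u := by
  induction a with
  | nil => intro F hF _; exact hF
  | cons x a ih =>
    intro F hF hx
    exact ih (fun b => F (x :: b)) (h.pev u F x hF (hx x (by simp)))
      (fun y hy => hx y (List.mem_cons_of_mem _ hy))

theorem gmem {s : Node} {e g : Ety} (h : Cond d e0 T (ρ1 ++ e :: ρ2)) (hs : IsT s T)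
    (hb : e.b = true) (hg : g ∈ ρ1) : g.toU ∈ rg e.K s :=
  (List.pairwise_append.1 (h.mem s hs)).2.2 g hg e (by simp) hb

end Pool.Agent.Helper4.RB
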