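import Pool.Agent.Helper4.RB.P1

/-!
# Block RB-C2: adding an entry at the end

`Cond.append`. Everything but the growth condition is direct (`List.isChain_append`,
`List.pairwise_append`). Growth for an entry `e` of `ρ ++ [n]` with `e.b = true`, with the later
entries `ρ2`:
* `e = n`, `ρ2 = []`: `n.x :: [] = l ++ z :: r` forces `l = []`, `z = n.x`: `hgr`.
* `e` in `ρ`, `ρ = ρ1 ++ e :: ρ2'`, `ρ2 = ρ2' ++ [n]`: let `e.x :: (ρ2'.map x ++ [n.x]) = l ++ z :: r`. If
  `r` is not empty, this is an instance of `h.gr` (drop the last element). If `r = []` then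
  `l = e.x :: ρ2'.map x` and `z = n.x`; by `hbd` there is `β < n.x` with `T ∈ Bd e.K l [] β`, so
  `Frc (bel T u) (F l β)` for `u ∈ T`, `fn F ∈ rg e.K u`, `Valid (F l)`; and `F l β ⊆ Lt (F l) n.x`.
-/

set_option autoImplicit false

namespace Pool.Agent.Helper4.RB

open Cardinal Ordinal Set

variable {d : Lam → Lam → ℕ} {e0 : Ety} {T : Set Node} {ρ : List Ety}

private theorem frc_mono82 {T : Set Node} {X Y : Set (Set Node)} (h : Frc T X) (hXY : X ⊆ Y) : Frc T Y := by
  intro T' hT' hs
  obtain ⟨T'', h1, h2, h3⟩ := h T' hT' hs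
  exact ⟨T'', h1, h2, hXY h3⟩

theorem cond_append (h : Cond d e0 T ρ) {n : Ety}
    (hnx : ∀ e, ρ.getLast? = some e → Nx e n) (hl : n.i < n.h) (hx : ∀ e ∈ ρ, e.x < n.x)
    (hmem : n.b = true → ∀ s, IsT s T → ∀ e ∈ ρ, e.toU ∈ rg n.K s)
    (hgood : n.b = true → Good d n ∧ GoodT T n)
    (hgr : n.b = true → ∀ u ∈ T, ∀ F, U.fn F ∈ rg n.K u → Valid (F []) →
      Frc (bel T u) (Lt (F []) n.x))
    (hbd : ∀ (ρ1 : List Ety) (e : Ety) (ρ2 : List Ety), ρ = ρ1 ++ e :: ρ2 → e.b = true →
      ∃ β < n.x, T ∈ Bd e.K (e.x :: ρ2.map Ety.x) [] β)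
    (hok : OK d (insert n.x (pts ρ))) : Cond d e0 T (ρ ++ [n]) := by
  have hpts : pts (ρ ++ [n]) = insert n.x (pts ρ) := by
    ext x
    constructor
    · rintro ⟨e, he, rfl⟩
      rcases List.mem_append.1 he with h1 | h1
      · exact Or.inr ⟨e, h1, rfl⟩
      · rw [List.mem_singleton] at h1
        subst h1
        exact Or.inl rfl
    · rintro (rfl | ⟨e, he, rfl⟩)
      · exact ⟨n, List.mem_append.2 (Or.inr (List.mem_singleton.2 rfl)), rfl⟩
      · exact ⟨e, List.mem_append.2 (Or.inl he), rfl⟩
  refine ⟨h.tree, ?_, ?_, ?_, ?_, ?_, ?_, ?_, ?_⟩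
  · obtain ⟨ρ', hρ'⟩ := h.head
    exact ⟨ρ' ++ [n], by rw [hρ', List.cons_append]⟩
  · rw [List.isChain_append]
    refine ⟨h.chain, List.isChain_singleton n, ?_⟩
    intro x hx1 y hy
    have h1 : y = n := by
      simpa using hy.symm
    rw [h1]
    exact hnx x hx1
  · intro e he
    rcases List.mem_append.1 he with h1 | h1
    · exact h.lth e h1
    · rw [List.mem_singleton] at h1
      subst h1
      exact hl
  · rw [List.pairwise_append]
    refine ⟨h.inc, List.pairwise_singleton _ _, ?_⟩
    intro a ha b hb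
    rw [List.mem_singleton] at hb
    subst hb
    exact hx a ha
  · intro s hs
    rw [List.pairwise_append]
    refine ⟨h.mem s hs, List.pairwise_singleton _ _, ?_⟩
    intro a ha b hb
    rw [List.mem_singleton] at hb
    subst hb
    intro hb
    exact hmem hb s hs a ha
  · intro e he hb
    rcases List.mem_append.1 he with h1 | h1
    · exact h.good e h1 hb
    · rw [List.mem_singleton] at h1
      subst h1
      exact hgood hb
  · intro ρ1 e ρ2 hρ hb
    rcases List.eq_nil_or_concat ρ2 with h1 | ⟨ρ2', m, h1⟩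
    · -- the last entry
      subst h1
      obtain ⟨h2, h3⟩ := List.append_inj' hρ rfl
      have h4 : n = e := by simpa using h3
      subst h4
      intro u hu F hF l z r hlz hv
      rw [List.map_nil] at hlz
      have h5 : l = [] ∧ z = n.x := by
        cases l with
        | nil =>
          rw [List.nil_append] at hlz
          have := List.cons.inj hlz
          exact ⟨rfl, this.1.symm⟩
        | cons a l =>
          exfalso
          have h6 := congrArg List.length hlz
          simp at h6
      obtain ⟨h5, h6⟩ := h5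
      subst h5
      subst h6
      exact hgr hb u hu F hF hv
    · have h1' : ρ2 = ρ2' ++ [m] := by simpa using h1
      subst h1'
      have h2 : ρ ++ [n] = (ρ1 ++ e :: ρ2') ++ [m] := by
        rw [hρ]
        simp
      obtain ⟨h3, h4⟩ := List.append_inj' h2 rfl
      have h5 : n = m := by simpa using h4
      subst h5
      intro u hu F hF l z r hlz hv
      rw [List.map_append, List.map_singleton] at hlz
      rcases List.eq_nil_or_concat r with h6 | ⟨r', m', h6⟩
      · subst h6
        have h7 : (e.x :: ρ2'.map Ety.x) ++ [n.x] = l ++ [z] := by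
          rw [← hlz]
          simp
        obtain ⟨h8, h9⟩ := List.append_inj' h7 rfl
        have h10 : n.x = z := by simpa using h9
        obtain ⟨β, hβ, hT⟩ := hbd ρ1 e ρ2' h3 hb
        rw [h8] at hT
        have h11 := hT u hu F hF hv
        refine frc_mono82 h11 ?_
        intro S hS
        exact ⟨β, by rw [← h10]; exact hβ, hS⟩
      · have h6' : r = r' ++ [m'] := by simpa using h6
        subst h6'
        have h7 : (e.x :: ρ2'.map Ety.x) ++ [n.x] = (l ++ z :: r') ++ [m'] := by
          have h8 : (l ++ z :: r') ++ [m'] = l ++ z :: (r' ++ [m']) := by simp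
          rw [h8, ← hlz]
          simp
        obtain ⟨h8, h9⟩ := List.append_inj' h7 rfl
        exact h.gr ρ1 e ρ2' h3 hb u hu F hF l z r' h8 hv
  · rw [hpts]
    exact hok

end Pool.Agent.Helper4.RB
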