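import Pool.Agent.Helper4.RB.P1

/-!
# Block RB-C3: amalgamation

`T' = bel Tq v` is a tree with stem `v`; let `sq` be the stem of `Tq` (`sq <:+ v`) and let `sS` be the
stem of `S`; `v ∈ T' ⊆ S`, so `sS <:+ v`. `ρ ≠ []`: both lists start with `e0`; if `ρ = []` then
`e = e0`, but then (if `η = []` and `ρ = []`, `hr` has no head) `η` starts with `e0 = e`, whose `toU`
is in `rg e.K v`, so `o1 e.i ∈ rg e.K v` and `e.i < e.i`; contradiction. (`Cond.head`, `GoodT`.)

Check the clauses for `ρ ++ η ++ e :: ρ'`: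
* chain: inside `ρ ++ η` and inside `e :: ρ'` by `hr`, `hq`. From the last entry `g` of `ρ ++ η` to `e`:
  if `η = []` it is `hq`; otherwise `g ∈ η`, `g.toU ∈ rg e.K v`, so `o1 g.h ∈ rg e.K v` (`Good.eh`) and
  `g.h < e.i` by `GoodT.o1lt` at `v ∈ Tq`; `e.b = true`, so `Nx g e`.
* lth, good: by `hr`, `hq` and restriction to `T' ⊆ S`, `T' ⊆ Tq`.
* inc: for `g ∈ η`: `ord g.x ∈ rg e.K v` (`Good.ex`), so `g.x < e.x` (`GoodT.ordlt`), and `e.x` is less
  than the points of `ρ'`.
* mem (at the stem `v`): pairs in `ρ ++ η`: by `hr` and `Good.mono`; pairs `(g, g')` with `g ∈ ρ` or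
  `g = e` or `g ∈ ρ'`, `g' ∈ e :: ρ'`: by `hq`. `g ∈ η`, `g' = e`: `hη`. `g ∈ η`, `g' ∈ ρ'`, `g'.b = true`:
  `e.toU ∈ rg g'.K sq ⊆ rg g'.K v`, so `mdl e.K ∈ rg g'.K v` (`Good.ek`) and
  `g.toU ∈ rg e.K v ⊆ rg g'.K v` (`Good.elem`).
* growth. For the entries `e` and in `ρ'` the later points are the same as in `hq` (`gr_sub`). For
  `g ∈ ρ ++ η` with `g.b = true`, `ρ ++ η = ρ1 ++ g :: ρ2`, let `u ∈ T'`, `fn F ∈ rg g.K u`,
  `g.x :: (ρ2.map x ++ e.x :: ρ'.map x) = l ++ z :: r`, `Valid (F l)`. Either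
  `g.x :: ρ2.map x = l ++ z :: r'` for some `r'`: by `hr.gr` and `u ∈ S`, `bel T' u ⊆ bel S u`. Or
  `l = (g.x :: ρ2.map x) ++ l'` and `e.x :: ρ'.map x = l' ++ z :: r`. Let `a = g.x :: ρ2.map x` and
  `F' = fun l => F (a ++ l)`. We have `g.toU ∈ rg e.K v` (`hη`, or `hq.mem` and `Good.mono` if `g ∈ ρ`), so
  `mdl g.K ∈ rg e.K v ⊆ rg e.K u`, `fn F ∈ rg g.K u ⊆ rg e.K u`, and the points of `a` are the points of
  entries in `ρ ++ η`, so they are in `rg e.K u` as well (`Good.ex`). By `pev_list`,
  `fn F' ∈ rg e.K u`, and `hq.gr` for `e` at `u ∈ Tq`, `F'`, `l'`, `z`, `r` gives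
  `Frc (bel Tq u) (Lt (F' l') z)`; `F' l' = F l`.
* ok: `hok`.
-/

set_option autoImplicit false

namespace Pool.Agent.Helper4.RB

open Cardinal Ordinal Set

variable {d : Lam → Lam → ℕ} {e0 : Ety}

theorem amalg {Tq S : Set Node} {ρ η ρ' : List Ety} {e : Ety} (heb : e.b = true)
    (hq : Cond d e0 Tq (ρ ++ e :: ρ')) (hr : Cond d e0 S (ρ ++ η)) {v : Node} (hv : v ∈ Tq)
    (hvS : bel Tq v ⊆ S) (hη : ∀ g ∈ η, g.toU ∈ rg e.K v)
    (hok : OK d (pts (ρ ++ η ++ e :: ρ'))) : Cond d e0 (bel Tq v) (ρ ++ η ++ e :: ρ') := by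
  obtain ⟨sq, hsq⟩ := hq.tree
  obtain ⟨sS, hsS⟩ := hr.tree
  have hsv : sq <:+ v := hsq.above v hv
  have hvv : v ∈ bel Tq v := ⟨hv, List.suffix_refl v⟩
  have hSv : sS <:+ v := hsS.above v (hvS hvv)
  have hT' : IsT v (bel Tq v) := isT_bel hsq hv
  have hge := hq.good e (List.mem_append_right _ (List.mem_cons_self)) heb
  have Ge : Good d e := hge.1
  have GTe : GoodT Tq e := hge.2
  have hall : ∀ g ∈ ρ ++ η, g.toU ∈ rg e.K v := by
    intro g hg
    rcases List.mem_append.1 hg with h | h
    · exact Ge.mono sq v hsv (gmem hq hsq heb h)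
    · exact hη g h
  have hqinc := List.pairwise_append.1 hq.inc
  have hqmem := List.pairwise_append.1 (hq.mem sq hsq)
  refine ⟨⟨v, hT'⟩, ?_, ?_, ?_, ?_, ?_, ?_, ?_, hok⟩
  · obtain ⟨ρ'', hρ''⟩ := hr.head
    exact ⟨ρ'' ++ e :: ρ', by rw [hρ'', List.cons_append]⟩
  · rw [List.isChain_append]
    refine ⟨hr.chain, (List.isChain_append.1 hq.chain).2.1, ?_⟩
    intro x hx y hy
    rcases List.eq_nil_or_concat η with h | ⟨η', m, h⟩
    · subst h
      rw [List.append_nil] at hx
      exact (List.isChain_append.1 hq.chain).2.2 x hx y hy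
    · have hxη : x ∈ η := by
        have h1 : (ρ ++ η).getLast? = some m := by
          rw [h]
          simp
        rw [h1] at hx
        have h2 : m = x := by simpa using hx
        rw [h, ← h2]
        simp
      have hye : y = e := by
        have h1 : (e :: ρ').head? = some e := rfl
        rw [h1] at hy
        have h2 : e = y := by simpa using hy
        exact h2.symm
      rw [hye]
      exact Or.inr ⟨heb, GTe.o1lt v hv _ (Ge.eh v x (hη x hxη))⟩
  · intro g hg
    rcases List.mem_append.1 hg with h | h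
    · exact hr.lth g h
    · exact hq.lth g (List.mem_append_right _ h)
  · rw [List.pairwise_append]
    refine ⟨hr.inc, hqinc.2.1, ?_⟩
    intro a ha b hb
    rcases List.mem_append.1 ha with h | h
    · exact hqinc.2.2 a h b hb
    · have h1 : a.x < e.x := GTe.ordlt v hv _ (Ge.ex v a (hη a h))
      rcases List.mem_cons.1 hb with h2 | h2
      · rw [h2]
        exact h1
      · exact h1.trans ((List.pairwise_cons.1 hqinc.2.1).1 b h2)
  · intro s hs
    have hsv' : s = v := stem_unique hs hT'
    subst hsv'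
    rw [List.pairwise_append]
    refine ⟨?_, ?_, ?_⟩
    · refine List.Pairwise.imp_of_mem ?_ (hr.mem sS hsS)
      intro a b _ hb hab hbt
      exact (hr.good b hb hbt).1.mono sS s hSv (hab hbt)
    · refine List.Pairwise.imp_of_mem ?_ hqmem.2.1
      intro a b _ hb hab hbt
      exact (hq.good b (List.mem_append_right _ hb) hbt).1.mono sq s hsv (hab hbt)
    · intro a ha b hb hbt
      have Gb : Good d b := (hq.good b (List.mem_append_right _ hb) hbt).1
      rcases List.mem_append.1 ha with h | h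
      · exact Gb.mono sq s hsv (hqmem.2.2 a h b hb hbt)
      · rcases List.mem_cons.1 hb with h2 | h2
        · rw [h2]
          exact hη a h
        · have h3 : e.toU ∈ rg b.K s :=
            Gb.mono sq s hsv ((List.pairwise_cons.1 hqmem.2.1).1 b h2 hbt)
          exact Gb.elem s e.K (Gb.ek s e h3) (hη a h)
  · intro g hg hb
    rcases List.mem_append.1 hg with h | h
    · have h1 := hr.good g h hb
      exact ⟨h1.1, fun u hu => h1.2.ordlt u (hvS hu), fun u hu => h1.2.o1lt u (hvS hu)⟩
    · have h1 := hq.good g (List.mem_append_right _ h) hb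
      exact ⟨h1.1, fun u hu => h1.2.ordlt u hu.1, fun u hu => h1.2.o1lt u hu.1⟩
  · intro ρ1 g ρ2 heq hb
    rcases List.append_eq_append_iff.1 heq with ⟨a', h1, h2⟩ | ⟨c', h1, h2⟩
    · refine gr_sub (hq.gr (ρ ++ a') g ρ2 ?_ hb) (bel_sub Tq v)
      rw [h2, List.append_assoc]
    · cases c' with
      | nil =>
        rw [List.nil_append, List.cons.injEq] at h2
        obtain ⟨h3, h4⟩ := h2
        subst h3
        subst h4
        exact gr_sub (hq.gr ρ g ρ2 rfl hb) (bel_sub Tq v)
      | cons g' c'' =>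
        rw [List.cons_append, List.cons.injEq] at h2
        obtain ⟨h3, h4⟩ := h2
        subst h3
        subst h4
        have hgmem : g ∈ ρ ++ η := by rw [h1]; simp
        have main : ∀ u ∈ bel Tq v, ∀ F, U.fn F ∈ rg g.K u → ∀ (l' : List Lam) (z : Lam)
            (r : List Lam), e.x :: ρ'.map Ety.x = l' ++ z :: r →
            Valid (F ((g.x :: c''.map Ety.x) ++ l')) →
            Frc (bel (bel Tq v) u) (Lt (F ((g.x :: c''.map Ety.x) ++ l')) z) := by
          intro u hu F hF l' z r hB hV
          have hvu : v <:+ u := hu.2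
          have hmd : U.mdl g.K ∈ rg e.K u := Ge.mono v u hvu (Ge.ek v g (hall g hgmem))
          have hFe : U.fn F ∈ rg e.K u := Ge.elem u g.K hmd hF
          have hx : ∀ x ∈ g.x :: c''.map Ety.x, U.ord x ∈ rg e.K u := by
            intro x hx
            have h5 : ∃ g1 ∈ ρ ++ η, g1.x = x := by
              rcases List.mem_cons.1 hx with h6 | h6
              · exact ⟨g, hgmem, h6.symm⟩
              · obtain ⟨g1, h7, h8⟩ := List.mem_map.1 h6
                refine ⟨g1, ?_, h8⟩
                rw [h1]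
                exact List.mem_append_right _ (List.mem_cons_of_mem _ h7)
            obtain ⟨g1, h7, h8⟩ := h5
            rw [← h8]
            exact Ge.mono v u hvu (Ge.ex v g1 (hall g1 h7))
          have hF' := pev_list Ge (g.x :: c''.map Ety.x) F hFe hx
          have h9 := hq.gr ρ e ρ' rfl heb u hu.1 _ hF' l' z r hB hV
          exact frc_sub h9 (bel_mono (bel_sub Tq v) u)
        intro u hu F hF l z r heq2 hV
        rw [List.map_append, List.map_cons, ← List.cons_append] at heq2
        rcases List.append_eq_append_iff.1 heq2 with ⟨a', h5, h6⟩ | ⟨c1, h5, h6⟩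
        · rw [h5] at hV ⊢
          exact main u hu F hF a' z r h6 hV
        · cases c1 with
          | nil =>
            rw [List.append_nil] at h5
            rw [List.nil_append] at h6
            have h7 := main u hu F hF [] z r (by rw [List.nil_append]; exact h6.symm)
            rw [List.append_nil, h5] at h7
            exact h7 hV
          | cons z' c2 =>
            rw [List.cons_append, List.cons.injEq] at h6
            obtain ⟨h7, h8⟩ := h6
            subst h7
            have h9 := hr.gr ρ1 g c'' h1 hb u (hvS hu) F hF l z c2 h5 hV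
            exact frc_sub h9 (bel_mono hvS u)

end Pool.Agent.Helper4.RB
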