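import Pool.Agent.Helper4.RB.Tr2

/-!
# Block RB-A6: fusion, bounds of names

`fusion`. Choose, for every node `u` and every `T' ⊆ T` with `IsT u T'`, a tree `ext u T' ⊆ T'` with
stem `u` in `Q u`. Define `S` on nodes by recursion on the list (for nodes `w ++ s` by recursion on
`w`): `S s = ext s T`, `S (z :: u) = ext (z :: u) (bel (S u) (z :: u))` if `z :: u ∈ S u` (junk
otherwise), and let `T'` be the set of the nodes `w ++ s` such that all tails are chosen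
successively: `s ∈ T'`, and `z :: u ∈ T'` iff `u ∈ T'` and `z :: u ∈ S u`. For `u ∈ T'`: `IsT u (S u)`,
`S u ∈ Q u`, the children of `u` in `T'` are those in `S u`, and `bel T' u ⊆ S u` (by induction
`S v ⊆ S u` for `v ∈ T'` extending `u`). So `IsT s T'`, and `bel T' u ∈ Q u` by `hQo`.

`L2`. By `L1` (for `X = {S | ∃ β, S ∈ N β}`, which is open) there is a direct extension `T'` with
`Bar T' X`. For every `v ∈ T'` with `bel T' v ∈ X` choose `β v` with `bel T' v ∈ N (β v)`; let `β` be an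
upper bound of all `β v` (`mk_Node`, `bdd_Lam`). `Frc T' (N β)`: for a tree `T'' ⊆ T'` there is
`v ∈ T''` with `bel T' v ∈ X`, so `bel T' v ∈ N β` and `bel T'' v ∈ N β` by openness.

`L3`. `fusion` with `Q w` = the set of trees `T''` such that
`∃ β, ∀ u, u <:+ w → ∀ k ≤ |w|, Frc T'' (N u k β)` (finitely many applications of `L2`: induction on a
finite list of pairs `(u, k)`; the `N u k` are monotone). For `w ∈ T'` choose `β w`, let `β` be an upper
bound. Given `u ∈ T'`, `k`, and a tree `T'' ⊆ bel T' u`: choose `w ∈ T''` with `|w| ≥ k` (`exists_len`);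
`w` extends `u`, `Frc (bel T' w) (N u k (β w))`, and `bel T'' w ⊆ bel T' w`.

`valid_Bd`. Openness: `bel T' u ⊆ bel T u` for `T' ⊆ T`. Density: `L3` for
`N u k β = F l β` if `K u k = fn F` and `Valid (F l)`, and `N u k β = univ` otherwise.
-/

set_option autoImplicit false

namespace Pool.Agent.Helper4.RB

open Cardinal Ordinal Set

section Fusion77

variable {s : Node} {T : Set Node} {Q : Node → Set (Set Node)}

open Classical in
private noncomputable def ext77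
    (hQ : ∀ (u : Node) (T' : Set Node), IsT u T' → T' ⊆ T → ∃ T'' ⊆ T', IsT u T'' ∧ T'' ∈ Q u)
    (u : Node) (T' : Set Node) : Set Node :=
  if h : IsT u T' ∧ T' ⊆ T then (hQ u T' h.1 h.2).choose else T'

private theorem ext77_spec
    (hQ : ∀ (u : Node) (T' : Set Node), IsT u T' → T' ⊆ T → ∃ T'' ⊆ T', IsT u T'' ∧ T'' ∈ Q u)
    {u : Node} {T' : Set Node} (h1 : IsT u T') (h2 : T' ⊆ T) :
    ext77 hQ u T' ⊆ T' ∧ IsT u (ext77 hQ u T') ∧ ext77 hQ u T' ∈ Q u := by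
  unfold ext77
  rw [dif_pos ⟨h1, h2⟩]
  exact (hQ u T' h1 h2).choose_spec

private noncomputable def seq77
    (hQ : ∀ (u : Node) (T' : Set Node), IsT u T' → T' ⊆ T → ∃ T'' ⊆ T', IsT u T'' ∧ T'' ∈ Q u)
    (s : Node) : List Ent → Set Node
  | [] => ext77 hQ s T
  | z :: w => ext77 hQ (z :: (w ++ s)) (bel (seq77 hQ s w) (z :: (w ++ s)))

private def in77
    (hQ : ∀ (u : Node) (T' : Set Node), IsT u T' → T' ⊆ T → ∃ T'' ⊆ T', IsT u T'' ∧ T'' ∈ Q u)
    (s : Node) : List Ent → Prop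
  | [] => True
  | z :: w => in77 hQ s w ∧ z :: (w ++ s) ∈ seq77 hQ s w

private theorem seq77_spec (hT : IsT s T)
    (hQ : ∀ (u : Node) (T' : Set Node), IsT u T' → T' ⊆ T → ∃ T'' ⊆ T', IsT u T'' ∧ T'' ∈ Q u) :
    ∀ w : List Ent, in77 hQ s w →
      IsT (w ++ s) (seq77 hQ s w) ∧ seq77 hQ s w ⊆ T ∧ seq77 hQ s w ∈ Q (w ++ s)
  | [], _ => by
    have h := ext77_spec hQ hT Subset.rfl
    exact ⟨h.2.1, h.1, h.2.2⟩
  | z :: w, hw => by
    obtain ⟨h1, h2, -⟩ := seq77_spec hT hQ w hw.1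
    have h3 : IsT (z :: (w ++ s)) (bel (seq77 hQ s w) (z :: (w ++ s))) := isT_bel h1 hw.2
    have h4 : bel (seq77 hQ s w) (z :: (w ++ s)) ⊆ T := (bel_sub _ _).trans h2
    have h := ext77_spec hQ h3 h4
    exact ⟨h.2.1, h.1.trans h4, h.2.2⟩

private theorem seq77_step (hT : IsT s T)
    (hQ : ∀ (u : Node) (T' : Set Node), IsT u T' → T' ⊆ T → ∃ T'' ⊆ T', IsT u T'' ∧ T'' ∈ Q u)
    (z : Ent) (w : List Ent) (hw : in77 hQ s (z :: w)) : seq77 hQ s (z :: w) ⊆ seq77 hQ s w := by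
  obtain ⟨h1, h2, -⟩ := seq77_spec hT hQ w hw.1
  have h3 : IsT (z :: (w ++ s)) (bel (seq77 hQ s w) (z :: (w ++ s))) := isT_bel h1 hw.2
  have h4 : bel (seq77 hQ s w) (z :: (w ++ s)) ⊆ T := (bel_sub _ _).trans h2
  exact (ext77_spec hQ h3 h4).1.trans (bel_sub _ _)

private theorem seq77_app (hT : IsT s T)
    (hQ : ∀ (u : Node) (T' : Set Node), IsT u T' → T' ⊆ T → ∃ T'' ⊆ T', IsT u T'' ∧ T'' ∈ Q u)
    (x w : List Ent) (hw : in77 hQ s (x ++ w)) : seq77 hQ s (x ++ w) ⊆ seq77 hQ s w := by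
  induction x with
  | nil => exact Subset.rfl
  | cons z x ih => exact (seq77_step hT hQ z (x ++ w) hw).trans (ih hw.1)

end Fusion77

theorem fusion {s : Node} {T : Set Node} (hT : IsT s T) (Q : Node → Set (Set Node))
    (hQ : ∀ (u : Node) (T' : Set Node), IsT u T' → T' ⊆ T → ∃ T'' ⊆ T', IsT u T'' ∧ T'' ∈ Q u)
    (hQo : ∀ (u : Node) (T' T'' : Set Node), IsT u T' → IsT u T'' → T'' ⊆ T' → T' ∈ Q u → T'' ∈ Q u) :
    ∃ T' ⊆ T, IsT s T' ∧ ∀ u ∈ T', bel T' u ∈ Q u := by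
  let T' : Set Node := {u | ∃ w : List Ent, u = w ++ s ∧ in77 hQ s w}
  have hTT : T' ⊆ T := by
    rintro u ⟨w, rfl, hw⟩
    obtain ⟨h1, h2, -⟩ := seq77_spec hT hQ w hw
    exact h2 h1.stem
  have hIs : IsT s T' := by
    refine ⟨⟨[], rfl, trivial⟩, ?_, ?_, ?_⟩
    · rintro u ⟨w, rfl, -⟩
      exact List.suffix_append w s
    · rintro z u ⟨w, hw, hin⟩
      cases w with
      | nil => exact Or.inr hw
      | cons z' w =>
        rw [List.cons_append] at hw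
        injection hw with h1 h2
        exact Or.inl ⟨w, h2, hin.1⟩
    · rintro u ⟨w, rfl, hw⟩
      obtain ⟨h1, -, -⟩ := seq77_spec hT hQ w hw
      refine (h1.split (w ++ s) h1.stem).trans (Cardinal.mk_le_mk_of_subset ?_)
      intro z hz
      exact ⟨z :: w, rfl, hw, hz⟩
  refine ⟨T', hTT, hIs, ?_⟩
  intro u hu
  have hb := isT_bel hIs hu
  obtain ⟨w, rfl, hw⟩ := hu
  obtain ⟨h1, -, h3⟩ := seq77_spec hT hQ w hw
  refine hQo (w ++ s) (seq77 hQ s w) _ h1 hb ?_ h3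
  rintro t ⟨⟨w', rfl, hw'⟩, ht2⟩
  obtain ⟨x, hx⟩ := ht2
  have h4 : x ++ w = w' := by
    rw [← List.append_assoc] at hx
    exact List.append_cancel_right hx
  subst h4
  exact seq77_app hT hQ x w hw' (seq77_spec hT hQ _ hw').1.stem

theorem L2 {s : Node} {T : Set Node} (hT : IsT s T) (N : Lam → Set (Set Node))
    (hop : ∀ β, Op (N β)) (hmono : ∀ β γ, β ≤ γ → N β ⊆ N γ) (hd : Frc T {S | ∃ β, S ∈ N β}) :
    ∃ T' ⊆ T, ∃ β, IsT s T' ∧ Frc T' (N β) := by
  have hX : Op {S | ∃ β, S ∈ N β} := by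
    rintro S ⟨β, hβ⟩ S' h1 h2
    exact ⟨β, hop β S hβ S' h1 h2⟩
  obtain ⟨T', h1, h2, h3⟩ := L1 hT hX hd
  have h4 : ∀ v : Node, ∃ β : Lam, (∃ γ, bel T' v ∈ N γ) → bel T' v ∈ N β := by
    intro v
    by_cases hv : ∃ γ, bel T' v ∈ N γ
    · obtain ⟨γ, hγ⟩ := hv
      exact ⟨γ, fun _ => hγ⟩
    · exact ⟨Classical.arbitrary Lam, fun h => absurd h hv⟩
  choose b hb using h4
  obtain ⟨β, hβ⟩ := bdd_Lam mk_Node.le b
  refine ⟨T', h1, β, h2, ?_⟩
  intro T'' h5 h6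
  obtain ⟨v, hv, hvX⟩ := h3 T'' h5 h6
  refine ⟨bel T'' v, isTree_bel h5 hv, bel_sub _ _, ?_⟩
  exact hop β _ (hmono _ _ (hβ v).le (hb v hvX)) _ (isTree_bel h5 hv) (bel_mono h6 v)

private theorem L3_list77 {w : Node} (N : Node → ℕ → Lam → Set (Set Node))
    (hN : ∀ u k, Valid (N u k)) (l : List (Node × ℕ)) :
    ∀ T0 : Set Node, IsT w T0 → ∃ T'' ⊆ T0, IsT w T'' ∧ ∃ β, ∀ p ∈ l, Frc T'' (N p.1 p.2 β) := by
  induction l with
  | nil =>
    intro T0 h0
    exact ⟨T0, Subset.rfl, h0, Classical.arbitrary Lam, fun p hp => absurd hp (List.not_mem_nil)⟩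
  | cons q l ih =>
    intro T0 h0
    obtain ⟨T1, h1, h2, β1, h3⟩ := ih T0 h0
    have hd : Frc T1 {S | ∃ β, S ∈ N q.1 q.2 β} := by
      intro S hS _
      obtain ⟨S', h4, h5, h6⟩ := (hN q.1 q.2).dense S hS
      exact ⟨S', h4, h5, h6⟩
    obtain ⟨T2, h4, β2, h5, h6⟩ := L2 h2 (N q.1 q.2) (hN q.1 q.2).op (hN q.1 q.2).mono hd
    refine ⟨T2, h4.trans h1, h5, max β1 β2, ?_⟩
    intro p hp
    rcases List.mem_cons.1 hp with h | h
    · subst h
      exact frc_mono h6 ((hN _ _).mono _ _ (le_max_right _ _))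
    · exact frc_mono (frc_sub (h3 p h) h4) ((hN _ _).mono _ _ (le_max_left _ _))

theorem L3 {s : Node} {T : Set Node} (hT : IsT s T) (N : Node → ℕ → Lam → Set (Set Node))
    (hN : ∀ u k, Valid (N u k)) :
    ∃ T' ⊆ T, ∃ β, IsT s T' ∧ ∀ u ∈ T', ∀ k, Frc (bel T' u) (N u k β) := by
  obtain ⟨T', h1, h2, h3⟩ := fusion hT
    (fun w => {S | ∃ β : Lam, ∀ u : Node, u <:+ w → ∀ k ≤ w.length, Frc S (N u k β)})
    (by
      intro w T0 h0 _
      obtain ⟨T'', h4, h5, β, h6⟩ := L3_list77 N hN (w.tails ×ˢ List.range (w.length + 1)) T0 h0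
      refine ⟨T'', h4, h5, β, fun u hu k hk => ?_⟩
      refine h6 (u, k) (List.mem_product.2 ⟨(List.mem_tails _ _).2 hu, List.mem_range.2 ?_⟩)
      exact Nat.lt_succ_of_le hk)
    (by
      rintro w S S' _ _ h4 ⟨β, h5⟩
      exact ⟨β, fun u hu k hk => frc_sub (h5 u hu k hk) h4⟩)
  have h4 : ∀ w : Node, ∃ β : Lam, w ∈ T' →
      ∀ u : Node, u <:+ w → ∀ k ≤ w.length, Frc (bel T' w) (N u k β) := by
    intro w
    by_cases hw : w ∈ T'
    · obtain ⟨β, hβ⟩ := h3 w hw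
      exact ⟨β, fun _ => hβ⟩
    · exact ⟨Classical.arbitrary Lam, fun h => absurd h hw⟩
  choose b hb using h4
  obtain ⟨β, hβ⟩ := bdd_Lam mk_Node.le b
  refine ⟨T', h1, β, h2, ?_⟩
  intro u _ k T'' h5 h6
  obtain ⟨t, ht⟩ := h5
  obtain ⟨w, hw, hlen⟩ := exists_len ht (n := max k t.length) (le_max_right _ _)
  have h7 := h6 hw
  have h8 : k ≤ w.length := by
    rw [hlen]
    exact le_max_left _ _
  have h9 := hb w h7.1 u h7.2 k h8
  have h10 : IsTree (bel T'' w) := ⟨w, isT_bel ht hw⟩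
  have h11 : bel T'' w ⊆ bel T' w := bel_mono (h6.trans (bel_sub _ _)) w
  obtain ⟨T3, h12, h13, h14⟩ := h9 _ h10 h11
  exact ⟨T3, h12, h13.trans (bel_sub _ _), (hN u k).mono _ _ (hβ w).le h14⟩

open Classical in
theorem valid_Bd (K : Node → ℕ → U) (l l' : List Lam) : Valid (Bd K l l') := by
  refine ⟨?_, ?_, ?_⟩
  · intro β T hT T' _ h2 u hu F hF hV
    exact frc_sub (hT u (h2 hu) F hF hV) (bel_mono h2 u)
  · intro β γ hβγ T hT u hu F hF hV
    exact frc_mono (hT u hu F hF hV) (hV.mono _ _ hβγ)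
  · intro T hT
    obtain ⟨s, hs⟩ := hT
    let N : Node → ℕ → Lam → Set (Set Node) := fun u k =>
      if h : ∃ F : List Lam → Lam → Set (Set Node), K u k = U.fn F ∧ Valid (F l) then
        h.choose l else fun _ => Set.univ
    have hN : ∀ u k, Valid (N u k) := by
      intro u k
      by_cases h : ∃ F : List Lam → Lam → Set (Set Node), K u k = U.fn F ∧ Valid (F l)
      · have h1 : N u k = h.choose l := dif_pos h
        rw [h1]
        exact h.choose_spec.2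
      · have h1 : N u k = fun _ => Set.univ := dif_neg h
        rw [h1]
        refine ⟨fun _ _ _ _ _ _ => mem_univ _, fun _ _ _ => Subset.rfl, fun S hS => ?_⟩
        exact ⟨S, hS, Subset.rfl, Classical.arbitrary Lam, mem_univ _⟩
    obtain ⟨T', h1, β, h2, h3⟩ := L3 hs N hN
    refine ⟨T', ⟨s, h2⟩, h1, β, ?_⟩
    intro u hu F hF hV
    obtain ⟨k, hk⟩ := hF
    have h : ∃ F : List Lam → Lam → Set (Set Node), K u k = U.fn F ∧ Valid (F l) := ⟨F, hk, hV⟩
    have h4 : N u k = h.choose l := dif_pos h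
    have h5 : h.choose = F := by
      have h6 : U.fn F = U.fn h.choose := hk.symm.trans h.choose_spec.1
      injection h6 with h7
      exact h7.symm
    have h6 := h3 u hu k
    rw [h4, h5] at h6
    exact h6

end Pool.Agent.Helper4.RB
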