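import Pool.Agent.Helper4.RB.P1
import Pool.Agent.Helper4.RB.Tr3

/-!
# Block RB-C4: bounding finitely many names

`exists_bound`: there are finitely many `e` with `ρ = ρ1 ++ e :: ρ2`, `e.b = true`. Each
`Bd e.K (e.x :: ρ2.map x) []` is valid (`valid_Bd`), so by density we can pass successively to
subtrees (openness and monotonicity keep what has been achieved): e.g. prove by induction on the list
`ρ'` that for every tree `T` there are `T' ⊆ T` and `β` which work for all suffixes `e :: ρ2` of `ρ'`.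

`exists_bound_mid`: the same with `β < e'.x`. Let `s` be the stem of `T`. For every `e` with
`ρ = ρ1 ++ e :: ρ2`, `e.b = true`: `e.toU ∈ rg e'.K s` and the points of `e :: ρ2` are in `rg e'.K s`
(`gmem`, `Good.ex`, `Good.ek`), so `fn (Bd e.K (e.x :: ρ2.map x)) ∈ rg e'.K s` by `Good.bnd`. The growth
condition for `e'` with `l = []`, `z = e'.x` gives `Frc (bel T s) (Lt (Bd ..) e'.x)`, and
`bel T s = T`. So below every subtree of `T` there is a tree in `Bd .. β` for some `β < e'.x`; do this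
successively for the finitely many `e` and take the maximum of the `β`.
-/

set_option autoImplicit false

namespace Pool.Agent.Helper4.RB

open Cardinal Ordinal Set

variable {d : Lam → Lam → ℕ} {e0 : Ety} {T : Set Node} {ρ ρ' : List Ety}

private theorem aux58 {δ : Lam} (hδ : ∃ β, β < δ) : ∀ (ρ : List Ety) {T : Set Node}, IsTree T →
    (∀ (ρ1 : List Ety) (e : Ety) (ρ2 : List Ety), ρ = ρ1 ++ e :: ρ2 → e.b = true →
      Frc T (Lt (Bd e.K (e.x :: ρ2.map Ety.x) []) δ)) →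
    ∃ T' ⊆ T, IsTree T' ∧ ∃ β < δ,
      ∀ (ρ1 : List Ety) (e : Ety) (ρ2 : List Ety), ρ = ρ1 ++ e :: ρ2 → e.b = true →
        T' ∈ Bd e.K (e.x :: ρ2.map Ety.x) [] β := by
  intro ρ
  induction ρ with
  | nil =>
    intro T hT _
    obtain ⟨β, hβ⟩ := hδ
    refine ⟨T, Subset.rfl, hT, β, hβ, ?_⟩
    intro ρ1 e ρ2 h
    exact absurd h (by simp)
  | cons a l ih =>
    intro T hT hF
    obtain ⟨T1, h1s, h1, β1, hβ1, hB1⟩ := ih hT fun ρ1 e ρ2 h hb =>
      hF (a :: ρ1) e ρ2 (by rw [h, List.cons_append]) hb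
    by_cases hab : a.b = true
    · obtain ⟨T2, h2, h2s, β2, hβ2, hB2⟩ := hF [] a l rfl hab T1 h1 h1s
      refine ⟨T2, h2s.trans h1s, h2, max β1 β2, max_lt hβ1 hβ2, ?_⟩
      intro ρ1 e ρ2 h hb
      cases ρ1 with
      | nil =>
        rw [List.nil_append, List.cons.injEq] at h
        rw [← h.1, ← h.2]
        exact (valid_Bd _ _ _).mono _ _ (le_max_right _ _) hB2
      | cons a' l' =>
        rw [List.cons_append, List.cons.injEq] at h
        exact (valid_Bd _ _ _).mono _ _ (le_max_left _ _)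
          ((valid_Bd _ _ _).op _ _ (hB1 l' e ρ2 h.2 hb) _ h2 h2s)
    · refine ⟨T1, h1s, h1, β1, hβ1, ?_⟩
      intro ρ1 e ρ2 h hb
      cases ρ1 with
      | nil =>
        rw [List.nil_append, List.cons.injEq] at h
        rw [h.1] at hab
        exact absurd hb hab
      | cons a' l' =>
        rw [List.cons_append, List.cons.injEq] at h
        exact hB1 l' e ρ2 h.2 hb

theorem exists_bound (hT : IsTree T) (ρ : List Ety) : ∃ T' ⊆ T, IsTree T' ∧ ∃ β,
    ∀ (ρ1 : List Ety) (e : Ety) (ρ2 : List Ety), ρ = ρ1 ++ e :: ρ2 → e.b = true →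
      T' ∈ Bd e.K (e.x :: ρ2.map Ety.x) [] β := by
  induction ρ with
  | nil =>
    refine ⟨T, Subset.rfl, hT, Classical.arbitrary Lam, ?_⟩
    intro ρ1 e ρ2 h
    exact absurd h (by simp)
  | cons a l ih =>
    obtain ⟨T1, h1s, h1, β1, hB1⟩ := ih
    obtain ⟨T2, h2, h2s, β2, hB2⟩ := (valid_Bd a.K (a.x :: l.map Ety.x) []).dense T1 h1
    refine ⟨T2, h2s.trans h1s, h2, max β1 β2, ?_⟩
    intro ρ1 e ρ2 h hb
    cases ρ1 with
    | nil =>
      rw [List.nil_append, List.cons.injEq] at h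
      rw [← h.1, ← h.2]
      exact (valid_Bd _ _ _).mono _ _ (le_max_right _ _) hB2
    | cons a' l' =>
      rw [List.cons_append, List.cons.injEq] at h
      exact (valid_Bd _ _ _).mono _ _ (le_max_left _ _)
        ((valid_Bd _ _ _).op _ _ (hB1 l' e ρ2 h.2 hb) _ h2 h2s)

/-- `ρ ≠ []` is needed: otherwise `e'.x` could be `0`. -/
theorem exists_bound_mid {e' : Ety} (h : Cond d e0 T (ρ ++ e' :: ρ')) (hb : e'.b = true)
    (hρ : ρ ≠ []) :
    ∃ T' ⊆ T, IsTree T' ∧ ∃ β < e'.x,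
    ∀ (ρ1 : List Ety) (e : Ety) (ρ2 : List Ety), ρ = ρ1 ++ e :: ρ2 → e.b = true →
      T' ∈ Bd e.K (e.x :: ρ2.map Ety.x) [] β := by
  have hδ : ∃ β, β < e'.x := by
    obtain ⟨g, l, rfl⟩ := List.exists_cons_of_ne_nil hρ
    exact ⟨g.x, (List.pairwise_append.1 h.inc).2.2 g (by simp) e' (by simp)⟩
  refine aux58 hδ ρ h.tree ?_
  intro ρ1 e ρ2 heq heb
  obtain ⟨s, hs⟩ := h.tree
  have hg := (h.good e' (by simp) hb).1
  have hmem : ∀ g ∈ ρ, g.toU ∈ rg e'.K s := fun g hg' => gmem h hs hb hg'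
  have he : e ∈ ρ := by rw [heq]; simp
  have h1 : U.fn (Bd e.K (e.x :: ρ2.map Ety.x)) ∈ rg e'.K s := by
    refine hg.bnd s e.K _ (hg.ek s e (hmem e he)) ?_
    intro x hx
    rcases List.mem_cons.1 hx with h2 | h2
    · rw [h2]
      exact hg.ex s e (hmem e he)
    · obtain ⟨g, hg1, rfl⟩ := List.mem_map.1 h2
      exact hg.ex s g (hmem g (by rw [heq]; simp [hg1]))
  have h2 := h.gr ρ e' ρ' rfl hb s hs.stem _ h1 [] e'.x (ρ'.map Ety.x) rfl (valid_Bd _ _ _)
  rw [bel_stem hs] at h2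
  exact h2

end Pool.Agent.Helper4.RB
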