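import Pool.Agent.Helper4.RB.P1

/-!
# Block RB-C5: models closed under the relations `GoodQ` are good

Each clause is an application of `Sat` for the corresponding relation: e.g. for `elem`, `QEl n` for the
list `mdl K' :: u.map ent` (its members are in `rg e.K u` by `hent`) gives `K' u n ∈ rg e.K u`: the `y`
provided by `Sat` satisfies `l = mdl K'' :: u'.map ent`, `y = K'' u' n`, and the constructors are
injective (`List.map_injective_iff`). `Ety.toU` is injective.
-/

set_option autoImplicit false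

namespace Pool.Agent.Helper4.RB

open Cardinal Ordinal Set

theorem toU_injective : Function.Injective Ety.toU := by
  rintro ⟨i, x, b, K, h⟩ ⟨i', x', b', K', h'⟩ heq
  simp only [Ety.toU, U.ety.injEq] at heq
  obtain ⟨rfl, rfl, rfl, rfl, rfl⟩ := heq
  rfl

theorem ords_injective : Function.Injective ords := by
  have h : Function.Injective U.ord := fun x y hxy => by
    injection hxy
  exact List.map_injective_iff.2 h

private theorem ent_inj27 : Function.Injective (List.map U.ent) := by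
  have h : Function.Injective U.ent := fun x y hxy => by
    injection hxy
  exact List.map_injective_iff.2 h

private theorem mem_ords27 {M : Set U} {a : List Lam} (h : ∀ x ∈ a, U.ord x ∈ M) : ∀ y ∈ ords a, y ∈ M := by
  intro y hy
  rw [ords, List.mem_map] at hy
  obtain ⟨x, hx, rfl⟩ := hy
  exact h x hx

theorem good_of_sat {d : Lam → Lam → ℕ} {e : Ety}
    (hmono : ∀ u v : Node, u <:+ v → rg e.K u ⊆ rg e.K v)
    (hent : ∀ u : Node, ∀ z ∈ u, U.ent z ∈ rg e.K u) (ho1 : ∀ j < e.i, U.o1 j ∈ rg e.K [])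
    (hcof : ∀ α < e.x, ∃ x, α < x ∧ x < e.x ∧ U.ord x ∈ rg e.K [])
    (hlim : ∀ j < e.i, ∃ j', j < j' ∧ j' < e.i)
    (hsat : ∀ Q ∈ GoodQ d, ∀ u, Sat (rg e.K u) Q) : Good d e := by
  have hentl : ∀ u : Node, ∀ y ∈ u.map U.ent, y ∈ rg e.K u := by
    intro u y hy
    rw [List.mem_map] at hy
    obtain ⟨z, hz, rfl⟩ := hy
    exact hent u z hz
  refine ⟨hmono, hent, ho1, hcof, hlim, ?_, ?_, ?_, ?_, ?_, ?_, ?_, ?_, ?_⟩
  · intro u K' hK
    rintro _ ⟨n, rfl⟩
    have hQ : QEl n ∈ GoodQ d := by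
      show _ ∨ _
      exact Or.inr (Or.inr (Or.inr (Or.inr (Or.inl ⟨n, rfl⟩))))
    obtain ⟨y, hy, K'', u'', hl, rfl⟩ := hsat _ hQ u (U.mdl K' :: u.map U.ent) (by
      intro x hx
      rw [List.mem_cons] at hx
      rcases hx with rfl | hx
      · exact hK
      · exact hentl u x hx) ⟨K' u n, K', u, rfl, rfl⟩
    rw [List.cons.injEq, U.mdl.injEq] at hl
    obtain ⟨rfl, h2⟩ := hl
    rw [← ent_inj27 h2] at hy
    exact hy
  · intro u g hg
    have hQ : QEx ∈ GoodQ d := by
      show _ ∨ _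
      exact Or.inr (Or.inr (Or.inr (Or.inr (Or.inr (Or.inl rfl)))))
    obtain ⟨y, hy, g', hl, rfl⟩ := hsat _ hQ u [g.toU] (by
      intro x hx
      rw [List.mem_singleton] at hx
      rw [hx]
      exact hg) ⟨_, g, rfl, rfl⟩
    rw [List.cons.injEq] at hl
    rw [toU_injective hl.1]
    exact hy
  · intro u g hg
    have hQ : QEi ∈ GoodQ d := by
      show _ ∨ _
      exact Or.inr (Or.inr (Or.inr (Or.inr (Or.inr (Or.inr (Or.inl rfl))))))
    obtain ⟨y, hy, g', hl, rfl⟩ := hsat _ hQ u [g.toU] (by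
      intro x hx
      rw [List.mem_singleton] at hx
      rw [hx]
      exact hg) ⟨_, g, rfl, rfl⟩
    rw [List.cons.injEq] at hl
    rw [toU_injective hl.1]
    exact hy
  · intro u g hg
    have hQ : QEh ∈ GoodQ d := by
      show _ ∨ _
      exact Or.inr (Or.inr (Or.inr (Or.inr (Or.inr (Or.inr (Or.inr (Or.inl rfl)))))))
    obtain ⟨y, hy, g', hl, rfl⟩ := hsat _ hQ u [g.toU] (by
      intro x hx
      rw [List.mem_singleton] at hx
      rw [hx]
      exact hg) ⟨_, g, rfl, rfl⟩
    rw [List.cons.injEq] at hl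
    rw [toU_injective hl.1]
    exact hy
  · intro u g hg
    have hQ : QEk ∈ GoodQ d := by
      show _ ∨ _
      exact Or.inr (Or.inr (Or.inr (Or.inr (Or.inr (Or.inr (Or.inr (Or.inr (Or.inl rfl))))))))
    obtain ⟨y, hy, g', hl, rfl⟩ := hsat _ hQ u [g.toU] (by
      intro x hx
      rw [List.mem_singleton] at hx
      rw [hx]
      exact hg) ⟨_, g, rfl, rfl⟩
    rw [List.cons.injEq] at hl
    rw [toU_injective hl.1]
    exact hy
  · intro u x j h hx hj hh
    have hQ : QMk ∈ GoodQ d := by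
      show _ ∨ _
      exact Or.inr (Or.inr (Or.inr (Or.inr (Or.inr (Or.inr (Or.inr (Or.inr (Or.inr (Or.inl rfl)))))))))
    obtain ⟨y, hy, x', j', h', hl, rfl⟩ := hsat _ hQ u [U.ord x, U.o1 j, U.o1 h] (by
      intro w hw
      simp only [List.mem_cons, List.not_mem_nil, or_false] at hw
      rcases hw with rfl | rfl | rfl
      · exact hx
      · exact hj
      · exact hh) ⟨_, x, j, h, rfl, rfl⟩
    rw [List.cons.injEq, List.cons.injEq, List.cons.injEq, U.ord.injEq, U.o1.injEq, U.o1.injEq] at hl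
    obtain ⟨rfl, rfl, rfl, -⟩ := hl
    exact hy
  · intro u F x hF hx
    have hQ : QPev ∈ GoodQ d := by
      show _ ∨ _
      exact Or.inr (Or.inr (Or.inr (Or.inr (Or.inr (Or.inr (Or.inr (Or.inr (Or.inr (Or.inr
        (Or.inl rfl))))))))))
    obtain ⟨y, hy, F', x', hl, rfl⟩ := hsat _ hQ u [U.fn F, U.ord x] (by
      intro w hw
      simp only [List.mem_cons, List.not_mem_nil, or_false] at hw
      rcases hw with rfl | rfl
      · exact hF
      · exact hx) ⟨_, F, x, rfl, rfl⟩
    rw [List.cons.injEq, List.cons.injEq, U.fn.injEq, U.ord.injEq] at hl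
    obtain ⟨rfl, rfl, -⟩ := hl
    exact hy
  · intro u K' a hK ha
    have hQ : QBnd ∈ GoodQ d := by
      show _ ∨ _
      exact Or.inr (Or.inr (Or.inr (Or.inr (Or.inr (Or.inr (Or.inr (Or.inr (Or.inr (Or.inr
        (Or.inr (Or.inl rfl)))))))))))
    obtain ⟨y, hy, K'', a'', hl, rfl⟩ := hsat _ hQ u (U.mdl K' :: ords a) (by
      intro w hw
      rw [List.mem_cons] at hw
      rcases hw with rfl | hw
      · exact hK
      · exact mem_ords27 ha w hw) ⟨_, K', a, rfl, rfl⟩
    rw [List.cons.injEq, U.mdl.injEq] at hl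
    obtain ⟨rfl, h2⟩ := hl
    rw [← ords_injective h2] at hy
    exact hy
  · intro u a β z ha hβ hz
    have hQ : QEr d ∈ GoodQ d := by
      show _ ∨ _
      exact Or.inr (Or.inr (Or.inr (Or.inr (Or.inr (Or.inr (Or.inr (Or.inr (Or.inr (Or.inr
        (Or.inr (Or.inr rfl)))))))))))
    obtain ⟨y, hy, β', z', a', hl, rfl⟩ := hsat _ hQ u (U.ord β :: U.ent z :: ords a) (by
      intro w hw
      rw [List.mem_cons, List.mem_cons] at hw
      rcases hw with rfl | rfl | hw
      · exact hβ
      · exact hz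
      · exact mem_ords27 ha w hw) ⟨_, β, z, a, rfl, rfl⟩
    rw [List.cons.injEq, List.cons.injEq, U.ord.injEq, U.ent.injEq] at hl
    obtain ⟨rfl, rfl, h3⟩ := hl
    rw [← ords_injective h3] at hy
    exact hy

end Pool.Agent.Helper4.RB
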