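import Pool.Agent.Helper4.RB.Stat1

/-!
# Block RB-A3: extending finite sets of points

`ok_insert`. For `δ ∈ R d a` the set `insert δ a` is finite and rainbow (`d δ` is injective on `a`,
all elements of `a` are `< δ`). Let `Y = {δ ∈ R d a | R d (insert δ a) not stationary}`; the claim
is that `Y` is bounded. Suppose not. For `δ ∈ Y` choose `g δ : Lam → Lam` without nonzero closure
points in `R d (insert δ a)`. Let `g' γ` be an upper bound of all `g δ α`, `δ, α ≤ γ` (`mk_Iio_Lam`,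
`bdd_Lam`). By `card_unbdd`, `#Y > ℵ_ω`, so there is an injection `Ent → Y`, its values are bounded
by some `γ0`, and so `#{δ ∈ Y | δ < β} ≥ ℵ_ω` for all `β ≥ γ0`. By `statL_above` there is a nonzero
closure point `β > γ0` of `g'` in `R d a`. For every `δ ∈ Y` with `δ < β`, `β` is a closure point of
`g δ` (`g δ α ≤ g' (max δ α) < β`), so `β ∉ R d (insert δ a)`; as `β ∈ R d a` and `δ < β`, `d β` is
not injective on `insert δ a`, that is `d β δ = d β x` for some `x ∈ a`. So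
`{δ ∈ Y | δ < β} ⊆ ⋃ x ∈ a, {α < β | d β α = d β x}`, a finite union of sets of size `< ℵ_ω` (`Fib`),
so of size `< ℵ_ω` (`Cardinal.add_lt_of_lt`, induction on the finite set). Contradiction.

`mk_Av`: `Av d a B l` is contained in the union, over `β ∈ B` and `y ∈ a ∪ l`, of the fibres
`{x < β | d β x = d β y}`; a finite union.

`injOn_Av`: induction on `xs` (from the right: `List.reverseRecOn`), or directly: two elements of
`(a ∪ xs) ∩ Iio β` with the same colour: both in `a`: by hypothesis; otherwise take the one which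
appears as `x` in `xs = l ++ x :: r` such that the other one is in `a` or in `l` (if both are in
`xs` take the later position); `x ∉ Av d a B l` gives a contradiction, unless they are equal.

`pigeon`. For `i : ι` let `A i` be the set of the `β ∈ R d a` such that `Q i`, `xs i` avoids
`Av d a (insert β up)`, and all elements of `xs i` are `< β`. Then `R d a = ⋃ A i`, so some `A i` is
stationary (`statL_iUnion`, `statL_mono`). For `β ∈ A i`: `d β` is injective on
`a = a ∩ Iio β`, so by `injOn_Av` on `a ∪ xs i`; hence `A i ⊆ R d (a ∪ xs i)`. As `A i` is nonempty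
(stationary), `xs i` avoids `Av d a up` (`Av` is monotone in `B`).
-/

set_option autoImplicit false

namespace Pool.Agent.Helper4.RB

open Cardinal Ordinal Set

variable {d : Lam → Lam → ℕ}

private theorem alephw50 : ℵ₀ ≤ ℵ_ ω := aleph0_le_aleph _

private theorem fin_union50 {ι : Type} {s : Set ι} (hs : s.Finite) (f : ι → Set Lam)
    (h : ∀ i ∈ s, #(f i) < ℵ_ ω) : #(⋃ i ∈ s, f i : Set Lam) < ℵ_ ω := by
  induction s, hs using Set.Finite.induction_on with
  | empty =>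
    simp only [mem_empty_iff_false, iUnion_of_empty, iUnion_empty]
    rw [mk_eq_zero]
    exact lt_of_lt_of_le aleph0_pos alephw50
  | insert _ _ ih =>
    rw [biUnion_insert]
    refine lt_of_le_of_lt (mk_union_le _ _) ?_
    refine add_lt_of_lt alephw50 (h _ (mem_insert _ _)) (ih fun i hi => h i (mem_insert_of_mem _ hi))

private theorem bound50 (G : Lam → Lam → Lam) (γ : Lam) :
    ∃ b, ∀ δ ≤ γ, ∀ α ≤ γ, G δ α < b := by
  obtain ⟨γ', hγ'⟩ := exists_gt_Lam γ
  have hc : #(Iio γ' × Iio γ') ≤ ℵ_ ω := by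
    rw [mk_prod, Cardinal.lift_id]
    calc #(Iio γ') * #(Iio γ') ≤ ℵ_ ω * ℵ_ ω := mul_le_mul' (mk_Iio_Lam γ') (mk_Iio_Lam γ')
      _ = ℵ_ ω := mul_eq_self alephw50
  obtain ⟨b, hb⟩ := bdd_Lam hc (fun p => G p.1.1 p.2.1)
  exact ⟨b, fun δ hδ α hα => hb (⟨δ, lt_of_le_of_lt hδ hγ'⟩, ⟨α, lt_of_le_of_lt hα hγ'⟩)⟩

theorem ok_insert (hd : Fib d) {a : Set Lam} (ha : OK d a) :
    ∃ β, ∀ δ ∈ R d a, β < δ → OK d (insert δ a) := by
  classical
  have hmain : ∃ β, ∀ δ ∈ R d a, β < δ → StatL (R d (insert δ a)) := by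
    by_contra hcon
    push Not at hcon
    set Y : Set Lam := {δ | δ ∈ R d a ∧ ¬ StatL (R d (insert δ a))} with hY
    have hun : ∀ β, ∃ x ∈ Y, β < x := by
      intro β
      obtain ⟨δ, h1, h2, h3⟩ := hcon β
      exact ⟨δ, ⟨h1, h3⟩, h2⟩
    have hg : ∀ δ, ∃ g : Lam → Lam, δ ∈ Y →
        ∀ β ∈ R d (insert δ a), ¬ ((∃ α, α < β) ∧ ∀ α < β, g α < β) := by
      intro δ
      by_cases hδ : δ ∈ Y
      · have h1 := hδ.2
        unfold StatL at h1
        push Not at h1
        obtain ⟨g, h2⟩ := h1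
        refine ⟨g, fun _ β hβ h3 => ?_⟩
        obtain ⟨α, hα, h4⟩ := h2 β hβ h3.1
        exact absurd (h3.2 α hα) (not_lt.2 h4)
      · exact ⟨id, fun h => absurd h hδ⟩
    choose G hG using hg
    choose g' hg' using bound50 G
    have hcard := card_unbdd hun
    have hle : #Ent ≤ #Y := by
      rw [mk_Ent]
      exact hcard.le
    obtain ⟨e⟩ := hle
    obtain ⟨γ0, hγ0⟩ := bdd_Lam (ι := Ent) mk_Ent.le (fun z => (e z : Lam))
    obtain ⟨β, ⟨hβR, hβγ⟩, hβne, hβcl⟩ := statL_above ha.st γ0 g'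
    have hsub : {δ | δ ∈ Y ∧ δ < β} ⊆ ⋃ x ∈ a, {α : Lam | α < β ∧ d β α = d β x} := by
      rintro δ ⟨hδY, hδβ⟩
      have hδa : δ ∉ a := fun h => lt_irrefl _ (hδY.1.2.1 δ h)
      have hnot : ¬ InjOn (d β) (insert δ a) := by
        intro hinj
        have hβ' : β ∈ R d (insert δ a) := by
          refine ⟨hβR.1, ?_, hinj⟩
          intro x hx
          rcases mem_insert_iff.1 hx with rfl | hx
          · exact hδβ
          · exact hβR.2.1 x hx
        refine hG δ hδY β hβ' ⟨hβne, fun α hα => ?_⟩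
        exact (hg' (max δ α) δ (le_max_left _ _) α (le_max_right _ _)).trans
          (hβcl _ (max_lt hδβ hα))
      rw [injOn_insert hδa] at hnot
      push Not at hnot
      obtain ⟨x, hx, hxe⟩ := hnot hβR.2.2
      rw [mem_iUnion₂]
      exact ⟨x, hx, hδβ, hxe.symm⟩
    have hfin : #(⋃ x ∈ a, {α : Lam | α < β ∧ d β α = d β x} : Set Lam) < ℵ_ ω :=
      fin_union50 ha.fin _ fun x _ => hd β (d β x)
    have h1 : #Ent ≤ #{δ | δ ∈ Y ∧ δ < β} := by
      refine mk_le_of_injective (f := fun z => ⟨(e z : Lam), (e z).2, (hγ0 z).trans hβγ⟩) ?_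
      intro z z' h
      have h2 := congrArg Subtype.val h
      exact e.injective (Subtype.ext h2)
    have h2 := h1.trans (mk_le_mk_of_subset hsub)
    rw [mk_Ent] at h2
    exact absurd (lt_of_le_of_lt h2 hfin) (lt_irrefl _)
  obtain ⟨β, hβ⟩ := hmain
  refine ⟨β, fun δ hδ hlt => ⟨ha.fin.insert δ, ?_, hβ δ hδ hlt⟩⟩
  intro γ hγ
  rcases mem_insert_iff.1 hγ with hγ1 | hγ1
  · rw [hγ1]
    refine hδ.2.2.mono ?_
    rintro x ⟨hx, hx2⟩
    rcases mem_insert_iff.1 hx with hx1 | hx1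
    · rw [hx1] at hx2
      exact absurd (mem_Iio.1 hx2) (lt_irrefl _)
    · exact hx1
  · refine (ha.rb γ hγ1).mono ?_
    rintro x ⟨hx, hx2⟩
    rcases mem_insert_iff.1 hx with hx1 | hx1
    · rw [hx1] at hx2
      exact absurd (lt_trans (mem_Iio.1 hx2) (hδ.2.1 γ hγ1)) (lt_irrefl _)
    · exact ⟨hx1, hx2⟩

theorem mk_Av (hd : Fib d) {a B : Set Lam} (ha : a.Finite) (hB : B.Finite) (l : List Lam) :
    #(Av d a B l) < ℵ_ ω := by
  have hfin : (B ×ˢ (a ∪ {y | y ∈ l})).Finite := hB.prod (ha.union (List.finite_toSet l))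
  have h1 := fin_union50 hfin (fun p => {α : Lam | α < p.1 ∧ d p.1 α = d p.1 p.2})
    fun p _ => hd p.1 (d p.1 p.2)
  refine lt_of_le_of_lt (mk_le_mk_of_subset ?_) h1
  rintro x ⟨β, hβ, hxβ, y, hy, hyβ, he⟩
  rw [mem_iUnion₂]
  exact ⟨(β, y), ⟨hβ, hy⟩, hxβ, he⟩

theorem injOn_Av {a B : Set Lam} {β : Lam} (hβ : β ∈ B) (hinj : InjOn (d β) (a ∩ Iio β))
    (xs : List Lam) (hx : ∀ (l : List Lam) (x : Lam) (r : List Lam), xs = l ++ x :: r →
      x ∉ Av d a B l) : InjOn (d β) ((a ∪ {x | x ∈ xs}) ∩ Iio β) := by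
  induction xs using List.reverseRecOn with
  | nil =>
    refine hinj.mono ?_
    rintro x ⟨hx | hx, hx2⟩
    · exact ⟨hx, hx2⟩
    · exact absurd hx (by simp)
  | append_singleton ys x ih =>
    have ih' := ih (fun l z r h => hx l z (r ++ [x]) (by rw [h]; simp))
    have hxA : x ∉ Av d a B ys := hx ys x [] rfl
    have hmem : ∀ u, u ∈ (a ∪ {z | z ∈ ys ++ [x]}) ∩ Iio β →
        u ∈ (a ∪ {z | z ∈ ys}) ∩ Iio β ∨ u = x := by
      rintro u ⟨hu | hu, hu2⟩
      · exact Or.inl ⟨Or.inl hu, hu2⟩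
      · rcases List.mem_append.1 hu with hu | hu
        · exact Or.inl ⟨Or.inr hu, hu2⟩
        · exact Or.inr (List.mem_singleton.1 hu)
    intro u hu v hv huv
    rcases hmem u hu with hu' | rfl
    · rcases hmem v hv with hv' | rfl
      · exact ih' hu' hv' huv
      · exfalso
        exact hxA ⟨β, hβ, hv.2, u, hu'.1, hu'.2, huv.symm⟩
    · rcases hmem v hv with hv' | rfl
      · exfalso
        exact hxA ⟨β, hβ, hu.2, v, hv'.1, hv'.2, huv⟩
      · rfl

theorem pigeon {a up : Set Lam} (ha : OK d a) {ι : Type} (hι : #ι ≤ ℵ_ ω)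
    (xs : ι → List Lam) (Q : ι → Prop)
    (h : ∀ β ∈ R d a, ∃ i, Q i ∧ (∀ (l : List Lam) (x : Lam) (r : List Lam), xs i = l ++ x :: r →
      x ∉ Av d a (insert β up) l) ∧ ∀ x ∈ xs i, x < β) :
    ∃ i, Q i ∧ (∀ (l : List Lam) (x : Lam) (r : List Lam), xs i = l ++ x :: r →
      x ∉ Av d a up l) ∧ StatL (R d (a ∪ {x | x ∈ xs i})) := by
  let A : ι → Set Lam := fun i => {β | β ∈ R d a ∧ Q i ∧
    (∀ (l : List Lam) (x : Lam) (r : List Lam), xs i = l ++ x :: r →
      x ∉ Av d a (insert β up) l) ∧ ∀ x ∈ xs i, x < β}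
  have hst : StatL (⋃ i, A i) := by
    refine statL_mono ?_ ha.st
    intro β hβ
    obtain ⟨i, h1, h2, h3⟩ := h β hβ
    exact mem_iUnion.2 ⟨i, hβ, h1, h2, h3⟩
  obtain ⟨i, hi⟩ := statL_iUnion hι A hst
  obtain ⟨β0, hβ0, -, -⟩ := hi id
  refine ⟨i, hβ0.2.1, ?_, ?_⟩
  · intro l x r hx hxA
    refine hβ0.2.2.1 l x r hx ?_
    obtain ⟨β, hβ, h1⟩ := hxA
    exact ⟨β, mem_insert_of_mem _ hβ, h1⟩
  · refine statL_mono ?_ hi
    rintro β ⟨hβR, -, hβA, hβx⟩
    have hlt : ∀ x ∈ a ∪ {x | x ∈ xs i}, x < β := by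
      rintro x (hx | hx)
      · exact hβR.2.1 x hx
      · exact hβx x hx
    refine ⟨hβR.1, hlt, ?_⟩
    have h1 := injOn_Av (mem_insert β up) (hβR.2.2.mono inter_subset_left) (xs i) hβA
    refine h1.mono ?_
    intro x hx
    exact ⟨hx, hlt x hx⟩

end Pool.Agent.Helper4.RB
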