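import Pool.Agent.Helper4.RB.P2
import Pool.Agent.Helper4.RB.P3
import Pool.Agent.Helper4.RB.P4
import Pool.Agent.Helper4.RB.Stat2

/-!
# Block RB-C6m: adding a point in the middle

`add_mid`. Let `δ = e'.x`, `a = pts p.ρ`, `ρ1 = ρ ++ [e]`, `b = (ρ1.map Ety.x)` (so `{x ∈ b} = pts ρ1`).
* `exists_bound_mid`: `T1 ⊆ p.T` with stem `s1`, `β < δ` with `T1 ∈ Bd g.K (g.x :: ..) [] β` for all
  `g ∈ ρ1` with `g.b = true`.
* `β1` with `β, γ, e.x < β1 < δ` and `ord β1 ∈ rg e'.K []` (`Good.cof` for the maximum, which is `< δ`).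
* `R d (pts ρ1)` is stationary (`ok_mono`), so `er d b β1 : Ent → Lam` is injective with values in
  `R d (pts ρ1)` above `β1` (`er_spec`).
* Let `up = pts (e' :: ρ')`. Apply `pigeon` with `ι = Node × Ent`, `xs (w, z) = [er d b β1 z]`,
  `Q (w, z) := z :: w ∈ T1`. Hypothesis: let `β' ∈ R d a`. `A = Av d a (insert β' up) []` has
  cardinality `< ℵ_ω` (`mk_Av`), choose `n` by `exists_kap` and `w ∈ T1` with `|w| ≥ n`
  (`exists_len`). The set `{z | er d b β1 z ∈ A}` has cardinality `≤ #A < kap |w|` (injectivity), so by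
  `exists_child` there is `z` with `z :: w ∈ T1` and `er d b β1 z ∉ A`. Also
  `er d b β1 z < δ < β'`: `ord (er d b β1 z) ∈ rg e'.K (z :: w)` by `Good.er` (the members of `b` are in
  `rg e'.K` of the stem of `p.T` by `gmem`, `Good.ex`; `Good.mono`; `z :: w` extends the stem of `p.T`),
  and `GoodT.ordlt`.
* `pigeon` gives `(w, z)` with `v := z :: w ∈ T1`, `x := er d b β1 z ∉ Av d a up []`, and
  `R d (a ∪ {x})` stationary.
* `OK d (a ∪ {x})`: rainbow: for `β'' ∈ up`, `d β''` is injective on `(a ∪ {x}) ∩ Iio β''` by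
  `injOn_Av`; for `β'' = x`: `a ∩ Iio x ⊆ pts ρ1` (the others are `≥ δ > x`) and `x ∈ R d (pts ρ1)`; for
  `β'' ∈ pts ρ1`, `x > β1 > e.x ≥ β''`, so `(a ∪ {x}) ∩ Iio β'' = a ∩ Iio β''`.
* Let `n = ⟨e.h, x, false, K0, h'⟩`, `T2 = bel T1 v`. `r = (T2, ρ1 ++ [n])` is a condition by
  `cond_append` (for `cond_restrict (cond_prefix ..)`), with `β < x`; `Nx e n`: `n.i = e.h`.
* `amalg` with `Tq = T2` (restrict `p.cond` to `T2`), `S = T2`, `v` (`bel T2 v = T2`), `ρ := ρ1`,
  `η = [n]`, `e := e'`; `n.toU ∈ rg e'.K v` by `Good.mke`: `ord x ∈ rg e'.K v`, `o1 e.h ∈ rg e'.K v`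
  (`gmem`, `Good.eh`), `o1 h' ∈ rg e'.K v` (`Good.o1`, `h' < e'.i`).
-/

set_option autoImplicit false

namespace Pool.Agent.Helper4.RB

open Cardinal Ordinal Set

variable {d : Lam → Lam → ℕ} {e0 : Ety}

private theorem mk_ne36 : #(Node × Ent) ≤ ℵ_ ω := by
  rw [mk_prod, Cardinal.lift_id, Cardinal.lift_id, mk_Node, mk_Ent]
  exact (mul_eq_self (aleph0_le_aleph _)).le

private theorem single_split36 {y x : Lam} {l r : List Lam} (h : [y] = l ++ x :: r) :
    l = [] ∧ x = y := by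
  cases l with
  | nil =>
    rw [List.nil_append] at h
    exact ⟨rfl, (List.cons.inj h).1.symm⟩
  | cons a l =>
    exfalso
    have h6 := congrArg List.length h
    simp at h6

theorem add_mid (hd : Fib d) (p : Po d e0) {ρ ρ' : List Ety} {e e' : Ety}
    (hρ : p.ρ = ρ ++ e :: e' :: ρ') (hb : e'.b = true) {γ : Lam} (hγ : γ < e'.x) {h' : Om1}
    (h1 : e.h < h') (h2 : h' < e'.i) :
    ∃ q ≤ p, ∃ n : Ety, q.ρ = ρ ++ e :: n :: e' :: ρ' ∧ n.b = false ∧ n.i = e.h ∧ n.h = h' ∧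
      γ < n.x ∧ n.x < e'.x := by
  have C : Cond d e0 p.T ((ρ ++ [e]) ++ e' :: ρ') := by
    have h0 := p.cond
    rw [hρ] at h0
    have h3 : (ρ ++ [e]) ++ e' :: ρ' = ρ ++ e :: e' :: ρ' := by simp
    rw [h3]
    exact h0
  obtain ⟨T1, hT1s, hT1, β, hβ, hβb⟩ := exists_bound_mid C hb (by simp)
  obtain ⟨s1, hs1⟩ := hT1
  obtain ⟨s0, hs0⟩ := p.cond.tree
  have hs01 : s0 <:+ s1 := stem_suffix hs0 hs1 hT1s
  have hgood := C.good e' (by simp) hb
  have hinc := List.pairwise_append.1 C.inc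
  have hex : e.x < e'.x := hinc.2.2 e (by simp) e' (by simp)
  obtain ⟨β1, hβ1, hβ1', hβ1K⟩ := hgood.1.cof (max β (max γ e.x)) (max_lt hβ (max_lt hγ hex))
  have hββ1 : β < β1 := (le_max_left _ _).trans_lt hβ1
  have hγβ1 : γ < β1 := ((le_max_left _ _).trans (le_max_right _ _)).trans_lt hβ1
  have heβ1 : e.x < β1 := ((le_max_right _ _).trans (le_max_right _ _)).trans_lt hβ1
  set b : List Lam := (ρ ++ [e]).map Ety.x with hbdef
  have hbp : {x | x ∈ b} = pts (ρ ++ [e]) := (pts_eq_map _).symm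
  have hsubb : pts (ρ ++ [e]) ⊆ pts ((ρ ++ [e]) ++ e' :: ρ') := by
    rw [pts_append (ρ ++ [e])]
    exact subset_union_left
  have hstb : StatL (R d {x | x ∈ b}) := by
    rw [hbp]
    exact (ok_mono C.ok hsubb).st
  obtain ⟨hinj, her⟩ := er_spec hstb β1
  -- the points of the first part
  have hlow : ∀ y ∈ pts (ρ ++ [e]), y ≤ e.x := by
    rintro y ⟨g, hg, rfl⟩
    rcases List.mem_append.1 hg with h3 | h3
    · exact ((List.pairwise_append.1 hinc.1).2.2 g h3 e (by simp)).le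
    · rw [List.mem_singleton] at h3
      rw [h3]
  have hhigh : ∀ y ∈ pts (e' :: ρ'), e'.x ≤ y := by
    rintro y ⟨g, hg, rfl⟩
    rcases List.mem_cons.1 hg with h3 | h3
    · rw [h3]
    · exact ((List.pairwise_cons.1 hinc.2.1).1 g h3).le
  have ha : pts ((ρ ++ [e]) ++ e' :: ρ') = pts (ρ ++ [e]) ∪ pts (e' :: ρ') := pts_append _ _
  -- the new points are in the model
  have hmemK : ∀ (w : Node) (z : Ent), z :: w ∈ T1 → U.ord (er d b β1 z) ∈ rg e'.K (z :: w) := by
    intro w z hzw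
    have h3 : s0 <:+ z :: w := hs01.trans (hs1.above _ hzw)
    refine hgood.1.er (z :: w) b β1 z ?_ ?_ ?_
    · intro x hx
      rw [hbdef, List.mem_map] at hx
      obtain ⟨g, hg, rfl⟩ := hx
      exact hgood.1.mono _ _ h3 (hgood.1.ex _ g (gmem C hs0 hb hg))
    · exact hgood.1.mono _ _ List.nil_suffix hβ1K
    · exact hgood.1.ent _ z (by simp)
  have hltx : ∀ (w : Node) (z : Ent), z :: w ∈ T1 → er d b β1 z < e'.x := fun w z hzw =>
    hgood.2.ordlt _ (hT1s hzw) _ (hmemK w z hzw)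
  obtain ⟨⟨w, z⟩, hQ, hav, hst⟩ := pigeon (up := pts (e' :: ρ')) C.ok mk_ne36
    (fun i : Node × Ent => [er d b β1 i.2]) (fun i : Node × Ent => i.2 :: i.1 ∈ T1) (by
      intro β' hβ'
      have hfinup : (insert β' (pts (e' :: ρ'))).Finite := by
        refine Set.Finite.insert _ (C.ok.fin.subset ?_)
        rw [ha]
        exact subset_union_right
      have hA := mk_Av hd C.ok.fin hfinup ([] : List Lam)
      obtain ⟨n, hn⟩ := exists_kap hA
      obtain ⟨w, hw, hlen⟩ := exists_len hs1 (le_max_right n s1.length)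
      have hZ : #{z : Ent | er d b β1 z ∈
          Av d (pts ((ρ ++ [e]) ++ e' :: ρ')) (insert β' (pts (e' :: ρ'))) []} < kap w.length := by
        refine lt_of_le_of_lt ?_ (hn w.length (by rw [hlen]; exact le_max_left _ _))
        refine mk_le_of_injective (f := fun z => ⟨er d b β1 z.1, z.2⟩) ?_
        intro z z' hzz
        exact Subtype.ext (hinj (congrArg Subtype.val hzz))
      obtain ⟨z, hz, hzZ⟩ := exists_child hs1 hw hZ
      refine ⟨(w, z), hz, ?_, ?_⟩
      · intro l x r hx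
        obtain ⟨h3, h4⟩ := single_split36 hx
        rw [h3, h4]
        exact hzZ
      · intro x hx
        rw [List.mem_singleton] at hx
        rw [hx]
        refine (hltx w z hz).trans (hβ'.2.1 _ ?_)
        exact ⟨e', by simp, rfl⟩)
  simp only at hQ hav hst
  set x : Lam := er d b β1 z with hxdef
  have hxR := (her z).1
  have hβ1x : β1 < x := (her z).2
  have hxe' : x < e'.x := hltx w z hQ
  have hxa : {y | y ∈ [x]} = {x} := by
    ext y
    simp
  rw [hxa] at hst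
  have hok : OK d (pts ((ρ ++ [e]) ++ e' :: ρ') ∪ {x}) := by
    refine ⟨C.ok.fin.union (finite_singleton x), ?_, hst⟩
    rintro δ (hδ | hδ)
    · rw [ha] at hδ
      rcases hδ with hδ | hδ
      · have h3 : δ < x := ((hlow δ hδ).trans_lt heβ1).trans hβ1x
        refine (C.ok.rb δ (hsubb hδ)).mono ?_
        rintro y ⟨hy | hy, hy2⟩
        · exact ⟨hy, hy2⟩
        · rw [mem_singleton_iff] at hy
          rw [hy] at hy2
          exact absurd (mem_Iio.1 hy2) (not_lt.2 h3.le)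
      · have h3 := injOn_Av (d := d) (a := pts ((ρ ++ [e]) ++ e' :: ρ')) (B := pts (e' :: ρ')) hδ
          (C.ok.rb δ (by rw [ha]; exact Or.inr hδ)) [x] hav
        rw [hxa] at h3
        exact h3
    · rw [mem_singleton_iff] at hδ
      rw [hδ]
      refine hxR.2.2.mono ?_
      rintro y ⟨hy | hy, hy2⟩
      · rw [ha] at hy
        rcases hy with hy | hy
        · rw [hbp]
          exact hy
        · exact absurd (mem_Iio.1 hy2) (not_lt.2 (hxe'.le.trans (hhigh y hy)))
      · rw [mem_singleton_iff] at hy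
        rw [hy] at hy2
        exact absurd (mem_Iio.1 hy2) (lt_irrefl _)
  set n : Ety := ⟨e.h, x, false, K0, h'⟩ with hn
  have hT2s : bel T1 (z :: w) ⊆ p.T := (bel_sub _ _).trans hT1s
  have hT2 : IsTree (bel T1 (z :: w)) := isTree_bel ⟨s1, hs1⟩ hQ
  have hr : Cond d e0 (bel T1 (z :: w)) ((ρ ++ [e]) ++ [n]) := by
    refine cond_append (cond_restrict (cond_prefix C (by simp)) hT2 hT2s) ?_ h1 ?_ ?_ ?_ ?_ ?_ ?_
    · intro g hg
      have h3 : g = e := by
        simpa using hg.symm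
      rw [h3]
      exact Or.inl ⟨rfl, rfl⟩
    · intro g hg
      refine hxR.2.1 g.x ?_
      rw [hbp]
      exact ⟨g, hg, rfl⟩
    · intro h3
      exact absurd h3 Bool.false_ne_true
    · intro h3
      exact absurd h3 Bool.false_ne_true
    · intro h3
      exact absurd h3 Bool.false_ne_true
    · intro ρ1 g ρ2 hg hgb
      exact ⟨β, hββ1.trans hβ1x, (valid_Bd _ _ _).op β _ (hβb ρ1 g ρ2 hg hgb) _ hT2 (bel_sub _ _)⟩
    · refine ok_mono hok ?_
      rintro y hy
      rcases mem_insert_iff.1 hy with hy | hy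
      · exact Or.inr hy
      · exact Or.inl (hsubb hy)
  have hv : z :: w ∈ bel T1 (z :: w) := ⟨hQ, List.suffix_refl _⟩
  have h03 : s0 <:+ z :: w := hs01.trans (hs1.above _ hQ)
  have hq : Cond d e0 (bel (bel T1 (z :: w)) (z :: w)) ((ρ ++ [e]) ++ [n] ++ e' :: ρ') := by
    refine amalg hb (cond_restrict C hT2 hT2s) hr hv (bel_sub _ _) ?_ ?_
    · intro g hg
      rw [List.mem_singleton] at hg
      rw [hg]
      refine hgood.1.mke _ x e.h h' (hmemK w z hQ) ?_ ?_
      · exact hgood.1.mono _ _ h03 (hgood.1.eh _ e (gmem C hs0 hb (by simp)))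
      · exact hgood.1.mono _ _ List.nil_suffix (hgood.1.o1 h' h2)
    · refine ok_mono hok ?_
      rintro y hy
      rw [pts_append, pts_append] at hy
      rcases hy with (hy | hy) | hy
      · exact Or.inl (hsubb hy)
      · obtain ⟨g, hg, hgy⟩ := hy
        rw [List.mem_singleton] at hg
        rw [← hgy, hg]
        exact Or.inr rfl
      · refine Or.inl ?_
        rw [ha]
        exact Or.inr hy
  refine ⟨⟨_, _, hq⟩, ?_, n, ?_, rfl, rfl, rfl, hγβ1.trans hβ1x, hxe'⟩
  · refine ⟨(bel_sub _ _).trans hT2s, ?_⟩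
    show p.ρ.Sublist ((ρ ++ [e]) ++ [n] ++ e' :: ρ')
    rw [hρ]
    have h3 : ρ ++ e :: e' :: ρ' = (ρ ++ [e]) ++ e' :: ρ' := by simp
    rw [h3]
    exact List.Sublist.append (List.sublist_append_left _ _) (List.Sublist.refl _)
  · show (ρ ++ [e]) ++ [n] ++ e' :: ρ' = ρ ++ e :: n :: e' :: ρ'
    simp

end Pool.Agent.Helper4.RB
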