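import Pool.Agent.Helper4.RB.P2
import Pool.Agent.Helper4.RB.P4
import Pool.Agent.Helper4.RB.Stat2

/-!
# Block RB-C6t: adding a point at the top

`add_top`. Let `e` be the last entry of `p.ρ` (nonempty by `head`). Take `T' ⊆ p.T` and `β` from
`exists_bound`, `β1` from `ok_insert` for `a = pts p.ρ`, and `x ∈ R d a` larger than `β`, `β1`, `γ`
(`statL_unbdd` for `StatL (R d a)`); the elements of `a` are `< x`. Let `h` be larger than `e.h` and `i`
(`exists_gt_Om1`), `n = ⟨e.h, x, false, K0, h⟩`. `cond_append` applies to `cond_restrict` and `n`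
(`n.b = false`); `hnx`: the last entry is `e`, and `Nx e n` by the first alternative.
-/

set_option autoImplicit false

namespace Pool.Agent.Helper4.RB

open Cardinal Ordinal Set

variable {d : Lam → Lam → ℕ} {e0 : Ety}

theorem add_top (hd : Fib d) (p : Po d e0) (γ : Lam) (i : Om1) :
    ∃ q ≤ p, ∃ e n : Ety, p.ρ.getLast? = some e ∧ q.ρ = p.ρ ++ [n] ∧ n.b = false ∧ n.i = e.h ∧
      γ < n.x ∧ i < n.h := by
  obtain ⟨ρ', hρ'⟩ := p.cond.head
  have hne : p.ρ ≠ [] := by
    rw [hρ']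
    exact List.cons_ne_nil _ _
  obtain ⟨e, he⟩ : ∃ e, p.ρ.getLast? = some e := ⟨p.ρ.getLast hne, List.getLast?_eq_some_getLast hne⟩
  obtain ⟨T', hs, hT', β, hβ⟩ := exists_bound p.cond.tree p.ρ
  obtain ⟨β1, h1⟩ := ok_insert hd p.cond.ok
  obtain ⟨x, hx, hlt⟩ := statL_unbdd p.cond.ok.st (max β (max β1 γ))
  obtain ⟨h, hh⟩ := exists_gt_Om1 (max e.h i)
  have hβx : β < x := (le_max_left _ _).trans_lt hlt
  have hβ1x : β1 < x := ((le_max_left _ _).trans (le_max_right _ _)).trans_lt hlt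
  have hγx : γ < x := ((le_max_right _ _).trans (le_max_right _ _)).trans_lt hlt
  have hc : Cond d e0 T' (p.ρ ++ [⟨e.h, x, false, K0, h⟩]) := by
    refine cond_append (cond_restrict p.cond hT' hs) ?_ ?_ ?_ ?_ ?_ ?_ ?_ ?_
    · intro e' he'
      rw [he] at he'
      obtain rfl := Option.some_inj.1 he'
      exact Or.inl ⟨rfl, rfl⟩
    · exact (le_max_left _ _).trans_lt hh
    · intro e' he'
      exact hx.2.1 _ ⟨e', he', rfl⟩
    · intro hb
      exact absurd hb Bool.false_ne_true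
    · intro hb
      exact absurd hb Bool.false_ne_true
    · intro hb
      exact absurd hb Bool.false_ne_true
    · intro ρ1 e' ρ2 hρ hb
      exact ⟨β, hβx, hβ ρ1 e' ρ2 hρ hb⟩
    · exact h1 x hx hβ1x
  refine ⟨⟨T', p.ρ ++ [⟨e.h, x, false, K0, h⟩], hc⟩, ⟨hs, List.sublist_append_left _ _⟩, e,
    ⟨e.h, x, false, K0, h⟩, he, rfl, rfl, rfl, hγx, (le_max_right _ _).trans_lt hh⟩

end Pool.Agent.Helper4.RB
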