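import Pool.Agent.Helper4.RB.Tr1

/-!
# Block RB-C7a: growth from genericity

Let `u ∈ T'`, `fn F ∈ M u`, `Valid (F [])`, and let `T''` be a subtree of `bel T' u`.
`E = {S | ∃ β, S ∈ F [] β}` is open and `st E ∈ M u` (`QDom` for the list `[fn F]`). By `Gen` there are
`v ∈ T''`, `S` with `tr S ∈ M v`, `IsT v S`, `bel T' v ⊆ S`, `S ∈ Dec E`; `S ∈ E` because otherwise
`Valid.dense` for the tree `S` gives a contradiction. By `QDec` for `[fn F, tr S]` at `v`
(`u <:+ v`, `hmono`) there is `β` with `ord β ∈ M v`, `S ∈ F [] β`; `β < δ` by `hord`.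
`bel T'' v ⊆ bel T' v ⊆ S` is a tree (`isTree_bel`) in `F [] β` by openness, contained in `T''`.
-/

set_option autoImplicit false

namespace Pool.Agent.Helper4.RB

open Cardinal Ordinal Set

theorem growth_of_gen {M : Node → Set U} (hmono : ∀ u v : Node, u <:+ v → M u ⊆ M v)
    (h1 : ∀ u, Sat (M u) QDom) (h2 : ∀ u, Sat (M u) QDec) {T' : Set Node} {δ : Lam}
    (hord : ∀ u ∈ T', ∀ x, U.ord x ∈ M u → x < δ) (hgen : Gen M T') :
    ∀ u ∈ T', ∀ F, U.fn F ∈ M u → Valid (F []) → Frc (bel T' u) (Lt (F []) δ) := by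
  intro u hu F hF hV T'' hT'' hsub
  have hOp : Op {S | ∃ β, S ∈ F [] β} := by
    rintro S ⟨β, hS⟩ S' hS' hsub'
    exact ⟨β, hV.op β S hS S' hS' hsub'⟩
  have hE : U.st {S | ∃ β, S ∈ F [] β} ∈ M u := by
    obtain ⟨y, hy, F', h3, h4⟩ := h1 u [U.fn F]
      (by
        intro x hx
        rw [List.mem_singleton] at hx
        rw [hx]
        exact hF)
      ⟨_, F, rfl, rfl⟩
    have h5 : F = F' := by
      injection h3 with h6 h7
      injection h6
    rw [h4, ← h5] at hy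
    exact hy
  obtain ⟨v, hv, S, hSM, hSv, hbS, hdec⟩ := hgen u hu _ hOp hE T'' hT'' hsub
  obtain ⟨hvT, huv⟩ : v ∈ T' ∧ u <:+ v := hsub hv
  have hSE : ∃ β, S ∈ F [] β := by
    rcases hdec with h | h
    · exact h
    · obtain ⟨T0, hT0, hT0S, β, hβ⟩ := hV.dense S ⟨v, hSv⟩
      exact absurd ⟨β, hβ⟩ (h T0 hT0 hT0S)
  obtain ⟨β0, hβ0⟩ := hSE
  obtain ⟨y, hy, F', S', β, h3, h4, h5⟩ := h2 v [U.fn F, U.tr S]
    (by
      intro x hx
      rcases List.mem_cons.1 hx with h | h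
      · rw [h]
        exact hmono u v huv hF
      · rw [List.mem_singleton] at h
        rw [h]
        exact hSM)
    ⟨_, F, S, β0, rfl, rfl, hβ0⟩
  have h6 : F = F' ∧ S = S' := by
    injection h3 with h6 h7
    injection h7 with h8 h9
    injection h6 with h10
    injection h8 with h11
    exact ⟨h10, h11⟩
  rw [← h6.1, ← h6.2] at h5
  rw [h4] at hy
  refine ⟨bel T'' v, isTree_bel hT'' hv, bel_sub T'' v, β, hord v hvT β hy, ?_⟩
  exact hV.op β S h5 (bel T'' v) (isTree_bel hT'' hv)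
    ((bel_mono (hsub.trans (bel_sub T' u)) v).trans hbS)

end Pool.Agent.Helper4.RB
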