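import Pool.Agent.Helper4.RB.Stat1
import Pool.Agent.Helper4.RB.ClL

/-!
# Block RB-C7b: closed points

For `α : Lam` let `V α = cl op (C0 ∪ range o1 ∪ range ent ∪ {ord x | x ≤ α})`; `#(V α) ≤ ℵ_ω`
(`mk_cl_le`, `mk_Iio_Lam`, `mk_Ent`, `mk_Om1`), so there is `g α` larger than all `x` with
`ord x ∈ V α` (`bdd_Lam_set`). By `statL_above` there is `δ ∈ R d a` above `β` which is a nonzero closure
point of `g`; by definition of `R` it has a ladder `c`. If `ord x` is in the closure of the set in the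
statement, then by `cl_finite` only finitely many `ord (c n)` are used, they are `≤ α` for some `α < δ`
(e.g. `α = c N`), so `ord x ∈ V α` (`cl_mono`) and `x < g α < δ`.
-/

set_option autoImplicit false

namespace Pool.Agent.Helper4.RB

open Cardinal Ordinal Set

private def gen (C0 : Set U) (α : Lam) : Set U :=
  C0 ∪ {y | ∃ x, x < α ∧ y = U.ord x} ∪ {y | ∃ j, y = U.o1 j} ∪ {y | ∃ z, y = U.ent z}

private theorem aleph0_le_w : ℵ₀ ≤ ℵ_ ω := Cardinal.aleph0_le_aleph _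

private theorem mk_gen {C0 : Set U} (hC : C0.Countable) (α : Lam) : #(gen C0 α) ≤ ℵ_ ω := by
  have h1 : #C0 ≤ ℵ_ ω := (Cardinal.le_aleph0_iff_set_countable.2 hC).trans aleph0_le_w
  have h2 : #({y | ∃ x, x < α ∧ y = U.ord x} : Set U) ≤ ℵ_ ω := by
    have : ({y | ∃ x, x < α ∧ y = U.ord x} : Set U) = U.ord '' (Iio α) := by
      ext y
      constructor
      · rintro ⟨x, hx, rfl⟩
        exact ⟨x, hx, rfl⟩
      · rintro ⟨x, hx, rfl⟩
        exact ⟨x, hx, rfl⟩
    rw [this]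
    exact Cardinal.mk_image_le.trans (mk_Iio_Lam α)
  have h3 : #({y | ∃ j, y = U.o1 j} : Set U) ≤ ℵ_ ω := by
    have : ({y | ∃ j, y = U.o1 j} : Set U) = range U.o1 := by
      ext y
      constructor
      · rintro ⟨x, rfl⟩
        exact ⟨x, rfl⟩
      · rintro ⟨x, rfl⟩
        exact ⟨x, rfl⟩
    rw [this]
    refine Cardinal.mk_range_le.trans ?_
    rw [mk_Om1]
    exact Cardinal.aleph_le_aleph.2 Ordinal.one_lt_omega0.le
  have h4 : #({y | ∃ z, y = U.ent z} : Set U) ≤ ℵ_ ω := by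
    have : ({y | ∃ z, y = U.ent z} : Set U) = range U.ent := by
      ext y
      constructor
      · rintro ⟨x, rfl⟩
        exact ⟨x, rfl⟩
      · rintro ⟨x, rfl⟩
        exact ⟨x, rfl⟩
    rw [this]
    refine Cardinal.mk_range_le.trans ?_
    rw [mk_Ent]
  unfold gen
  refine (Cardinal.mk_union_le _ _).trans (Cardinal.add_le_of_le aleph0_le_w ?_ h4)
  refine (Cardinal.mk_union_le _ _).trans (Cardinal.add_le_of_le aleph0_le_w ?_ h3)
  exact (Cardinal.mk_union_le _ _).trans (Cardinal.add_le_of_le aleph0_le_w h1 h2)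

theorem exists_delta (op : ℕ → List U → U) {C0 : Set U} (hC : C0.Countable)
    {d : Lam → Lam → ℕ} {a : Set Lam} (ha : StatL (R d a)) (β : Lam) :
    ∃ δ ∈ R d a, β < δ ∧ ∃ c, Ladder c δ ∧ ∀ x, U.ord x ∈ cl op (C0 ∪ {y | ∃ n, y = U.ord (c n)} ∪
      {y | ∃ j, y = U.o1 j} ∪ {y | ∃ z, y = U.ent z}) → x < δ := by
  have hb : ∀ α : Lam, ∃ γ : Lam, ∀ x ∈ {x : Lam | U.ord x ∈ cl op (gen C0 α)}, x < γ := by
    intro α
    apply bdd_Lam_set
    have h1 : #({x : Lam | U.ord x ∈ cl op (gen C0 α)}) ≤ #(cl op (gen C0 α)) := by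
      refine Cardinal.mk_le_of_injective
        (f := fun x : {x : Lam | U.ord x ∈ cl op (gen C0 α)} => (⟨U.ord x.1, x.2⟩ : cl op (gen C0 α))) ?_
      intro x y hxy
      have h := congrArg Subtype.val hxy
      simp only [U.ord.injEq] at h
      exact Subtype.ext h
    refine h1.trans ((mk_cl_le op _).trans (max_le aleph0_le_w (mk_gen hC α)))
  choose g hg using hb
  obtain ⟨δ, ⟨hδ, hβ⟩, -, hcl⟩ := statL_above ha β g
  obtain ⟨c, hc⟩ := hδ.1
  refine ⟨δ, hδ, hβ, c, hc, ?_⟩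
  intro x hx
  obtain ⟨F, hF, hFs, hxF⟩ := cl_finite hx
  have hinj : Function.Injective (fun n : ℕ => U.ord (c n)) := by
    intro m n hmn
    simp only [U.ord.injEq] at hmn
    exact hc.1.injective hmn
  have hfin : {n : ℕ | U.ord (c n) ∈ F}.Finite := hF.preimage hinj.injOn
  obtain ⟨N, hN⟩ := hfin.bddAbove
  have hsub : F ⊆ gen C0 (c (N + 1)) := by
    intro y hy
    rcases hFs hy with ((h | h) | h) | h
    · exact Or.inl (Or.inl (Or.inl h))
    · obtain ⟨n, rfl⟩ := h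
      have : n ≤ N := hN hy
      exact Or.inl (Or.inl (Or.inr ⟨c n, hc.1 (Nat.lt_succ_of_le this), rfl⟩))
    · exact Or.inl (Or.inr h)
    · exact Or.inr h
  have hxV : U.ord x ∈ cl op (gen C0 (c (N + 1))) := cl_mono op hsub hxF
  exact (hg _ x hxV).trans (hcl _ (hc.2.1 _))

end Pool.Agent.Helper4.RB
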