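import Pool.Agent.Helper4.RB.P2
import Pool.Agent.Helper4.RB.P4
import Pool.Agent.Helper4.RB.P5
import Pool.Agent.Helper4.RB.Stat2
import Pool.Agent.Helper4.RB.Nb4
import Pool.Agent.Helper4.RB.P7a
import Pool.Agent.Helper4.RB.P7b

/-!
# Block RB-C7: adding a generic model

Let `a = pts p.ρ`.
1. `exists_bound`: `T1 ⊆ p.T`, a tree with stem `s`, and `β` with `T1 ∈ Bd g.K (g.x :: ..) [] β` for
   all `g` in `p.ρ` with `g.b = true`. `ok_insert`: `β'` such that `OK d (insert δ a)` for all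
   `δ ∈ R d a` above `β'`.
2. `exists_op` for `𝓠 ∪ GoodQ d`: `op` with `Sk op Q` for all these `Q`.
3. `C0 = {tr T1} ∪ {g.toU | g ∈ p.ρ}`, countable. `exists_delta` for `max β β'`: `δ ∈ R d a` above `β`
   and `β'`, with a ladder `c`. `x < δ` for `x ∈ a` (definition of `R`). `OK d (insert δ a)`.
4. `C = C0 ∪ {ord (c n) | n}`, countable.
5. `Mo op C i u` is contained in the closure in `exists_delta` (`cl_mono`), for all `i`, `u`.
6. `S0' = {i ∈ S0 | e.h < i}` for the last entry `e` of `p.ρ` (`statO_above`). `namba op C T1 S0'`: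
   `i`, `T' ⊆ T1`. `exists_enum`: `K` with `rg K u = Mo op C i u`. `h > i` (`exists_gt_Om1`).
   `n = ⟨i, δ, true, K, h⟩`.
7. `Good d n`: `good_of_sat` (`Mo_mono`, `Mo_ent`, `Mo_o1`; `hcof`: the `ord (c n)`; `hsat`: `sat_cl`).
   `GoodT T' n`: `ordlt` by 5 (`Mo op C i u ⊆ cl op (C ∪ range o1 ∪ range ent)`), `o1lt` by `namba`.
8. Growth for `n` (`hgr` of `cond_append`): `growth_of_gen`.
9. `cond_append` for `cond_restrict p.cond` to `T'`: `Nx e n` (`b = true`, `e.h < i`); `hmem`: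
   `g.toU ∈ C`; `hbd`: `β < δ` and `T' ∈ Bd ..` by openness (`valid_Bd`).
-/

set_option autoImplicit false

namespace Pool.Agent.Helper4.RB

open Cardinal Ordinal Set

variable {d : Lam → Lam → ℕ} {e0 : Ety}

theorem exists_model (hd : Fib d) {𝓠 : Set (List U → U → Prop)} (h𝓠 : 𝓠.Countable) (p : Po d e0)
    {S0 : Set Om1} (hS : StatO S0) :
    ∃ e : Ety, e.b = true ∧ e.i ∈ S0 ∧ (∃ j, j < e.i) ∧ ∃ T' ⊆ p.T, Cond d e0 T' (p.ρ ++ [e]) ∧
      Gen (rg e.K) T' ∧ ∀ Q ∈ 𝓠, ∀ u, Sat (rg e.K u) Q := by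
  obtain ⟨T1, h1s, h1, β, hβ⟩ := exists_bound p.cond.tree p.ρ
  obtain ⟨β', hβ'⟩ := ok_insert hd p.cond.ok
  obtain ⟨op, hop⟩ := exists_op (h𝓠.union (goodQ_countable d))
  have hopQ : ∀ Q ∈ 𝓠, Sk op Q := fun Q hQ => hop Q (Or.inl hQ)
  have hopG : ∀ Q ∈ GoodQ d, Sk op Q := fun Q hQ => hop Q (Or.inr hQ)
  have hC0 : ({U.tr T1} ∪ {y | ∃ g ∈ p.ρ, y = g.toU} : Set U).Countable := by
    refine (countable_singleton _).union ?_
    have h2 : {y | ∃ g ∈ p.ρ, y = g.toU} = Ety.toU '' {g | g ∈ p.ρ} := by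
      ext y
      constructor
      · rintro ⟨g, hg, rfl⟩
        exact ⟨g, hg, rfl⟩
      · rintro ⟨g, hg, rfl⟩
        exact ⟨g, hg, rfl⟩
    rw [h2]
    exact ((List.finite_toSet p.ρ).image _).countable
  obtain ⟨δ, hδR, hδ, c, hc, hcl⟩ := exists_delta op hC0 p.cond.ok.st (max β β')
  have hβδ : β < δ := (le_max_left _ _).trans_lt hδ
  have hβδ' : β' < δ := (le_max_right _ _).trans_lt hδ
  have hC : (({U.tr T1} ∪ {y | ∃ g ∈ p.ρ, y = g.toU} : Set U) ∪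
      {y | ∃ n, y = U.ord (c n)}).Countable := by
    refine hC0.union ?_
    have h2 : {y | ∃ n, y = U.ord (c n)} = range (fun n => U.ord (c n)) := by
      ext y
      constructor
      · rintro ⟨g, rfl⟩
        exact ⟨g, rfl⟩
      · rintro ⟨g, rfl⟩
        exact ⟨g, rfl⟩
    rw [h2]
    exact countable_range _
  obtain ⟨s, hs⟩ := h1
  obtain ⟨ρ', hρ'⟩ := p.cond.head
  have hne : p.ρ ≠ [] := by
    rw [hρ']
    exact List.cons_ne_nil _ _
  have hS' : StatO {j | j ∈ S0 ∧ (p.ρ.getLast hne).h < j} := statO_above hS _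
  obtain ⟨i, hi, h0, hlim, T', hT's, hT', ho1, hgen⟩ := namba op
    (hopG QBel (Or.inl rfl)) (hopG QL1 (Or.inr (Or.inl rfl))) hC hs
    (Or.inl (Or.inl rfl)) hS'
  obtain ⟨K, hK⟩ := exists_enum op hC i
  obtain ⟨h, hh⟩ := exists_gt_Om1 i
  have hKf : rg K = Mo op (({U.tr T1} ∪ {y | ∃ g ∈ p.ρ, y = g.toU} : Set U) ∪
      {y | ∃ n, y = U.ord (c n)}) i := funext hK
  have hmono : ∀ u v : Node, u <:+ v → rg K u ⊆ rg K v := by
    intro u v huv
    rw [hKf]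
    exact Mo_mono op _ i huv
  have hsatG : ∀ Q ∈ GoodQ d, ∀ u, Sat (rg K u) Q := by
    intro Q hQ u
    rw [hKf]
    exact sat_cl (hopG Q hQ) _
  have hord : ∀ u ∈ T', ∀ x, U.ord x ∈ rg K u → x < δ := by
    intro u _ x hx
    rw [hKf] at hx
    refine hcl x (cl_mono op ?_ hx)
    rintro y ((hy | ⟨j, _, hy⟩) | ⟨z, _, hy⟩)
    · exact Or.inl (Or.inl hy)
    · exact Or.inl (Or.inr ⟨j, hy⟩)
    · exact Or.inr ⟨z, hy⟩
  have hgen' : Gen (rg K) T' := by
    rw [hKf]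
    exact hgen
  have hgood : Good d (Ety.mk i δ true K h) := by
    refine good_of_sat hmono ?_ ?_ ?_ hlim hsatG
    · intro u z hz
      show U.ent z ∈ rg K u
      rw [hKf]
      exact Mo_ent op _ i u z hz
    · intro j hj
      show U.o1 j ∈ rg K []
      rw [hKf]
      exact Mo_o1 op _ i [] j hj
    · intro α hα
      obtain ⟨n, hn⟩ := hc.2.2 α hα
      refine ⟨c n, hn, hc.2.1 n, ?_⟩
      show U.ord (c n) ∈ rg K []
      rw [hKf]
      exact Mo_base op _ i [] (Or.inr ⟨n, rfl⟩)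
  have hgoodT : GoodT T' (Ety.mk i δ true K h) := by
    refine ⟨hord, ?_⟩
    intro u hu j hj
    have hj' : U.o1 j ∈ rg K u := hj
    rw [hKf] at hj'
    exact ho1 u hu j hj'
  refine ⟨Ety.mk i δ true K h, rfl, hi.1, h0, T', hT's.trans h1s, ?_, hgen', ?_⟩
  · refine cond_append (cond_restrict p.cond ⟨s, hT'⟩ (hT's.trans h1s)) ?_ hh ?_ ?_ ?_ ?_ ?_ ?_
    · intro e he
      rw [List.getLast?_eq_getLast_of_ne_nil hne, Option.some.injEq] at he
      refine Or.inr ⟨rfl, ?_⟩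
      rw [← he]
      exact hi.2
    · intro e he
      exact hδR.2.1 e.x ⟨e, he, rfl⟩
    · intro _ s' _ e he
      show e.toU ∈ rg K s'
      rw [hKf]
      exact Mo_base op _ i s' (Or.inl (Or.inr ⟨e, he, rfl⟩))
    · intro _
      exact ⟨hgood, hgoodT⟩
    · intro _
      exact growth_of_gen hmono
        (hsatG QDom (Or.inr (Or.inr (Or.inl rfl))))
        (hsatG QDec (Or.inr (Or.inr (Or.inr (Or.inl rfl))))) hord hgen'
    · intro ρ1 e ρ2 heq hb
      exact ⟨β, hβδ, (valid_Bd _ _ _).op β T1 (hβ ρ1 e ρ2 heq hb) T' ⟨s, hT'⟩ hT's⟩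
    · exact hβ' δ hδR hβδ'
  · intro Q hQ u
    show Sat (rg K u) Q
    rw [hKf]
    exact sat_cl (hopQ Q hQ) _

end Pool.Agent.Helper4.RB
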