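import Pool.Agent.Helper4.RB.P5

/-!
# Block RB-C8: relations for a name

`YY_op`: `cond_restrict` and `IsLowerSet`.

`exists_QD`: let `wit D j ρ T xs : List Ety × Om1` be `Classical.epsilon` of
`fun w => ∃ h : Cond d e0 T (ρ ++ w.1), w.1.map Ety.x = xs ∧ ⟨T, ρ ++ w.1, h⟩ ∈ D j w.2`. Use the
countable family of relations
* `Q1 l y := ∃ j ρ, l = o1 j :: ρ.map toU ∧ y = hy (YY D j ρ)`;
* `Q2 t m l y := ∃ j T ρ xs g, ρ.length = m ∧ l = o1 j :: tr T :: (ρ.map toU ++ ords xs) ∧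
  (wit D j ρ T xs).1[t]? = some g ∧ y = g.toU` (`t, m : ℕ`);
* `Q3 m l y := ∃ j T ρ xs, ρ.length = m ∧ l = o1 j :: tr T :: (ρ.map toU ++ ords xs) ∧
  y = o1 (wit D j ρ T xs).2`.
(The length in the index makes the decomposition of the list unique: `List.append_inj`,
`toU_injective`, `ords_injective`.)
-/

set_option autoImplicit false

namespace Pool.Agent.Helper4.RB

open Cardinal Ordinal Set

variable {d : Lam → Lam → ℕ} {e0 : Ety}

/-- The trees `T` such that `(T, ρ ++ η)` is a condition in some `D j k`, for some `η` with the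
points `l`. -/
def YY (D : Om1 → Om1 → Set (Po d e0)) (j : Om1) (ρ : List Ety) : List Lam → Set (Set Node) :=
  fun l => {T | ∃ (η : List Ety) (k : Om1) (h : Cond d e0 T (ρ ++ η)), η.map Ety.x = l ∧
    (⟨T, ρ ++ η, h⟩ : Po d e0) ∈ D j k}

theorem YY_op {D : Om1 → Om1 → Set (Po d e0)} (hD : ∀ j k, IsLowerSet (D j k)) (j : Om1)
    (ρ : List Ety) (l : List Lam) : Op (YY D j ρ l) := by
  rintro T ⟨η, k, h, hx, hm⟩ T' hT' hs
  refine ⟨η, k, cond_restrict h hT' hs, hx, ?_⟩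
  refine hD j k ?_ hm
  exact (le_def _ _).2 ⟨hs, List.Sublist.refl _⟩

/-- a witness for the membership in `YY` -/
private noncomputable def wit71 (D : Om1 → Om1 → Set (Po d e0)) (j : Om1) (ρ : List Ety)
    (T : Set Node) (xs : List Lam) : List Ety × Om1 :=
  haveI : Nonempty (List Ety × Om1) := ⟨([], Classical.arbitrary Om1)⟩
  Classical.epsilon fun w : List Ety × Om1 =>
    ∃ h : Cond d e0 T (ρ ++ w.1), w.1.map Ety.x = xs ∧ (⟨T, ρ ++ w.1, h⟩ : Po d e0) ∈ D j w.2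

private theorem wit71_spec {D : Om1 → Om1 → Set (Po d e0)} {j : Om1} {ρ : List Ety}
    {T : Set Node} {xs : List Lam} (h : T ∈ YY D j ρ xs) :
    ∃ h : Cond d e0 T (ρ ++ (wit71 D j ρ T xs).1), (wit71 D j ρ T xs).1.map Ety.x = xs ∧
      (⟨T, ρ ++ (wit71 D j ρ T xs).1, h⟩ : Po d e0) ∈ D j (wit71 D j ρ T xs).2 := by
  obtain ⟨η, k, h1, hx, hm⟩ := h
  haveI : Nonempty (List Ety × Om1) := ⟨([], Classical.arbitrary Om1)⟩
  have := Classical.epsilon_spec (p := fun w : List Ety × Om1 =>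
    ∃ h : Cond d e0 T (ρ ++ w.1), w.1.map Ety.x = xs ∧ (⟨T, ρ ++ w.1, h⟩ : Po d e0) ∈ D j w.2)
    ⟨(η, k), h1, hx, hm⟩
  exact this

private def Q1a71 (D : Om1 → Om1 → Set (Po d e0)) : List U → U → Prop := fun l y =>
  ∃ (j : Om1) (ρ : List Ety), l = U.o1 j :: ρ.map Ety.toU ∧ y = U.hy (YY D j ρ)

private def Q2a71 (D : Om1 → Om1 → Set (Po d e0)) (t m : ℕ) : List U → U → Prop := fun l y =>
  ∃ (j : Om1) (T : Set Node) (ρ : List Ety) (xs : List Lam) (g : Ety), ρ.length = m ∧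
    l = U.o1 j :: U.tr T :: (ρ.map Ety.toU ++ ords xs) ∧
    (wit71 D j ρ T xs).1[t]? = some g ∧ y = g.toU

private def Q3a71 (D : Om1 → Om1 → Set (Po d e0)) (m : ℕ) : List U → U → Prop := fun l y =>
  ∃ (j : Om1) (T : Set Node) (ρ : List Ety) (xs : List Lam), ρ.length = m ∧
    l = U.o1 j :: U.tr T :: (ρ.map Ety.toU ++ ords xs) ∧ y = U.o1 (wit71 D j ρ T xs).2

private theorem split71 {j j' : Om1} {T T' : Set Node} {ρ ρ' : List Ety} {xs xs' : List Lam}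
    (hl : ρ'.length = ρ.length)
    (h : U.o1 j :: U.tr T :: (ρ.map Ety.toU ++ ords xs)
      = U.o1 j' :: U.tr T' :: (ρ'.map Ety.toU ++ ords xs')) :
    j' = j ∧ T' = T ∧ ρ' = ρ ∧ xs' = xs := by
  rw [List.cons.injEq, List.cons.injEq] at h
  obtain ⟨h1, h2, h3⟩ := h
  have h4 := List.append_inj h3 (by simp [hl])
  refine ⟨(U.o1.inj h1).symm, (U.tr.inj h2).symm, ?_, (ords_injective h4.2).symm⟩
  exact (List.map_injective_iff.2 toU_injective h4.1).symm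

theorem exists_QD (D : Om1 → Om1 → Set (Po d e0)) : ∃ 𝓠 : Set (List U → U → Prop), 𝓠.Countable ∧
    ∀ M : Set U, (∀ Q ∈ 𝓠, Sat M Q) → ∀ (j : Om1) (ρ : List Ety), U.o1 j ∈ M →
      (∀ g ∈ ρ, g.toU ∈ M) → U.hy (YY D j ρ) ∈ M ∧
      ∀ (T : Set Node) (xs : List Lam), U.tr T ∈ M → (∀ x ∈ xs, U.ord x ∈ M) → T ∈ YY D j ρ xs →
        ∃ (η : List Ety) (k : Om1) (h : Cond d e0 T (ρ ++ η)), η.map Ety.x = xs ∧
          (⟨T, ρ ++ η, h⟩ : Po d e0) ∈ D j k ∧ (∀ g ∈ η, g.toU ∈ M) ∧ U.o1 k ∈ M := by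
  refine ⟨{Q1a71 D} ∪ (Set.range (fun p : ℕ × ℕ => Q2a71 D p.1 p.2) ∪ Set.range (Q3a71 D)),
    ?_, ?_⟩
  · exact (Set.countable_singleton _).union
      ((Set.countable_range _).union (Set.countable_range _))
  intro M hM j ρ hj hρ
  refine ⟨?_, ?_⟩
  · obtain ⟨y, hy, j', ρ', hl, rfl⟩ := hM (Q1a71 D) (Or.inl rfl) (U.o1 j :: ρ.map Ety.toU)
      (by
        intro x hx
        rcases List.mem_cons.1 hx with rfl | hx
        · exact hj
        · obtain ⟨g, hg, rfl⟩ := List.mem_map.1 hx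
          exact hρ g hg) ⟨_, j, ρ, rfl, rfl⟩
    rw [List.cons.injEq] at hl
    have h1 : j' = j := (U.o1.inj hl.1).symm
    have h2 : ρ' = ρ := (List.map_injective_iff.2 toU_injective hl.2).symm
    rw [h1, h2] at hy
    exact hy
  intro T xs hT hxs hmem
  have hlist : ∀ x ∈ U.o1 j :: U.tr T :: (ρ.map Ety.toU ++ ords xs), x ∈ M := by
    intro x hx
    rcases List.mem_cons.1 hx with rfl | hx
    · exact hj
    rcases List.mem_cons.1 hx with rfl | hx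
    · exact hT
    rcases List.mem_append.1 hx with hx | hx
    · obtain ⟨g, hg, rfl⟩ := List.mem_map.1 hx
      exact hρ g hg
    · obtain ⟨z, hz, rfl⟩ := List.mem_map.1 hx
      exact hxs z hz
  obtain ⟨h, hx, hm⟩ := wit71_spec hmem
  refine ⟨(wit71 D j ρ T xs).1, (wit71 D j ρ T xs).2, h, hx, hm, ?_, ?_⟩
  · intro g hg
    obtain ⟨t, ht⟩ := List.mem_iff_getElem?.1 hg
    obtain ⟨y, hy, j', T', ρ', xs', g', hlen, hl, hg', rfl⟩ := hM (Q2a71 D t ρ.length)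
      (Or.inr (Or.inl ⟨(t, ρ.length), rfl⟩)) _ hlist ⟨_, j, T, ρ, xs, g, rfl, rfl, ht, rfl⟩
    obtain ⟨e1, e2, e3, e4⟩ := split71 hlen hl
    subst e1 e2 e3 e4
    rw [ht] at hg'
    have : g = g' := Option.some.inj hg'
    rw [this]
    exact hy
  · obtain ⟨y, hy, j', T', ρ', xs', hlen, hl, rfl⟩ := hM (Q3a71 D ρ.length)
      (Or.inr (Or.inr ⟨ρ.length, rfl⟩)) _ hlist ⟨_, j, T, ρ, xs, rfl, rfl, rfl⟩
    obtain ⟨e1, e2, e3, e4⟩ := split71 hlen hl
    subst e1 e2 e3 e4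
    exact hy

end Pool.Agent.Helper4.RB
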