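import Pool.Agent.Helper4.RB.Card

/-!
# Block RB-C9i: counting

`Node` has cardinality `ℵ_ω` (`mk_Node`), and for each node `v` the set `{x | ord x ∈ M v}` is countable
(`U.ord` is injective), so there are countably many lists of its elements. So the type is a sigma
type over `Node` with countable fibres: cardinality `≤ ℵ_ω * ℵ₀ = ℵ_ω`.
-/

set_option autoImplicit false

namespace Pool.Agent.Helper4.RB

open Cardinal Ordinal Set

theorem mk_idx (M : Node → Set U) (hM : ∀ v, (M v).Countable) :
    #{w : Node × List Lam // ∀ x ∈ w.2, U.ord x ∈ M w.1} ≤ ℵ_ ω := by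
  have hc : ∀ v, Countable {x : Lam // U.ord x ∈ M v} := by
    intro v
    have h1 : (U.ord ⁻¹' M v).Countable :=
      (hM v).preimage_of_injOn (fun a _ b _ h => U.ord.inj h)
    exact h1.to_subtype
  have hf : ∀ v, ∃ f : List {x : Lam // U.ord x ∈ M v} → ℕ, Function.Injective f := by
    intro v
    have := hc v
    exact exists_injective_nat _
  choose f hf using hf
  let g : {w : Node × List Lam // ∀ x ∈ w.2, U.ord x ∈ M w.1} → Node × ℕ := fun w =>
    (w.1.1, f w.1.1 (w.1.2.attach.map (fun x => ⟨x.1, w.2 x.1 x.2⟩)))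
  have hg : Function.Injective g := by
    rintro ⟨⟨v, l⟩, h⟩ ⟨⟨v', l'⟩, h'⟩ he
    have h1 : v = v' := congrArg Prod.fst he
    subst h1
    have h2 := hf v (congrArg Prod.snd he)
    have h3 := congrArg (List.map Subtype.val) h2
    rw [List.map_map, List.map_map] at h3
    have h4 : l = l' := by
      have e1 : ∀ (l : List Lam) (h : ∀ x ∈ l, U.ord x ∈ M v),
          l.attach.map (Subtype.val ∘ (fun x => (⟨x.1, h x.1 x.2⟩ : {x : Lam // U.ord x ∈ M v}))) = l := by
        intro l h
        exact List.attach_map_subtype_val l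
      rw [e1 l h, e1 l' h'] at h3
      exact h3
    subst h4
    rfl
  refine (mk_le_of_injective hg).trans ?_
  rw [mk_prod, Cardinal.lift_id, Cardinal.lift_id, mk_Node, mk_nat]
  exact (mul_eq_left (aleph0_le_aleph _) (aleph0_le_aleph _) aleph0_ne_zero).le

end Pool.Agent.Helper4.RB
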