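import Pool.Agent.Helper4.RB.Rf2

/-!
# Block RB-B3: the reflection theorem

First step: `st (Lv Y m []) ∈ M sq` by `QLv m`; it is open (`op_Lv`). By `Gen` at `sq ∈ Ts` with the tree
`Tq ⊆ bel Ts sq` there are `v ∈ Tq` and `S` with `tr S ∈ M v`, `IsT v S`, `bel Ts v ⊆ S`,
`S ∈ Dec (Lv Y m [])`. As `bel Tq v ⊆ bel Ts v ⊆ S` is in `Lv Y m []` (openness, `hm`), `S ∈ Lv Y m []`.

Then show by induction on `k`: for all `v ∈ Tq`, `S`, `a` with `tr S ∈ M v`, `IsT v S`, `bel Ts v ⊆ S`,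
`S ∈ Lv Y k a`, `hy Y ∈ M v`, `ord x ∈ M v` for `x ∈ a`, there are `v' ∈ Tq` extending `v` and `xs` with
`|xs| = k`, `∀ l x r, xs = l ++ x :: r → x ∉ av (a ++ l)`, `ord x ∈ M v'` for `x ∈ xs`, and `S'` with
`tr S' ∈ M v'`, `IsT v' S'`, `bel Ts v' ⊆ S'`, `S' ∈ Y (a ++ xs)`. `k = 0`: trivial (`Lv Y 0 a = Y a`).
`k + 1`: `refl_step` with `A = av a`, then the induction hypothesis for `a ++ [x]`, and
`xs = x :: xs'`. Apply this with `a = []`.
-/

set_option autoImplicit false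

namespace Pool.Agent.Helper4.RB

open Cardinal Ordinal Set

private theorem reflect_aux {M : Node → Set U} (hmono : ∀ u v : Node, u <:+ v → M u ⊆ M v)
    (hent : ∀ u : Node, ∀ z ∈ u, U.ent z ∈ M u) (hsat : ∀ Q ∈ ReflQ, ∀ u, Sat (M u) Q)
    {Ts : Set Node} (hTs : IsTree Ts) (hgen : Gen M Ts)
    {Y : List Lam → Set (Set Node)} (hY : ∀ l, Op (Y l))
    {Tq : Set Node} (hTq : IsTree Tq) (hsub : Tq ⊆ Ts)
    (av : List Lam → Set Lam) (hav : ∀ l, #(av l) < ℵ_ ω) (k : ℕ) :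
    ∀ v ∈ Tq, ∀ (S : Set Node) (a : List Lam), IsT v S → bel Ts v ⊆ S → U.tr S ∈ M v →
      S ∈ Lv Y k a → U.hy Y ∈ M v → (∀ x ∈ a, U.ord x ∈ M v) →
      ∃ v' ∈ Tq, v <:+ v' ∧ ∃ xs : List Lam, xs.length = k ∧
        (∀ (l : List Lam) (x : Lam) (r : List Lam), xs = l ++ x :: r → x ∉ av (a ++ l)) ∧
        (∀ x ∈ xs, U.ord x ∈ M v') ∧
        ∃ S', U.tr S' ∈ M v' ∧ IsT v' S' ∧ bel Ts v' ⊆ S' ∧ S' ∈ Y (a ++ xs) := by
  induction k with
  | zero =>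
    intro v hv S a hSv hTS hSM hSk _ _
    refine ⟨v, hv, List.suffix_refl v, [], rfl, ?_, ?_, S, hSM, hSv, hTS, ?_⟩
    · intro l x r h
      exact absurd h.symm (by simp)
    · intro x hx
      exact absurd hx (List.not_mem_nil)
    · rw [List.append_nil]
      exact hSk
  | succ k ih =>
    intro v hv S a hSv hTS hSM hSk hYM ha
    obtain ⟨v1, hv1, hvv1, x, hxA, hxM, S1, hS1M, hS1v, hTS1, hS1k⟩ :=
      refl_step hmono hent hsat hTs hgen hY hTq hsub hv hSv hTS hSk hYM ha (hav a)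
    obtain ⟨v2, hv2, hv12, xs, hlen, hxav, hxsM, S2, hS2M, hS2v, hTS2, hS2Y⟩ :=
      ih v1 hv1 S1 (a ++ [x]) hS1v hTS1 hS1M hS1k (hmono _ _ hvv1 hYM) (by
        intro y hy
        rcases List.mem_append.1 hy with h | h
        · exact hmono _ _ hvv1 (ha y h)
        · rw [List.mem_singleton.1 h]
          exact hxM)
    refine ⟨v2, hv2, hvv1.trans hv12, x :: xs, by rw [List.length_cons, hlen], ?_, ?_,
      S2, hS2M, hS2v, hTS2, ?_⟩
    · intro l y r h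
      rcases l with - | ⟨z, l⟩
      · rw [List.nil_append, List.cons.injEq] at h
        rw [List.append_nil, ← h.1]
        exact hxA
      · rw [List.cons_append, List.cons.injEq] at h
        have h1 := hxav l y r h.2
        rw [← h.1]
        rwa [List.append_assoc, List.singleton_append] at h1
    · intro y hy
      rcases List.mem_cons.1 hy with h | h
      · rw [h]
        exact hmono _ _ hv12 hxM
      · exact hxsM y h
    · rwa [List.append_assoc, List.singleton_append] at hS2Y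

theorem reflect {M : Node → Set U} (hmono : ∀ u v : Node, u <:+ v → M u ⊆ M v)
    (hent : ∀ u : Node, ∀ z ∈ u, U.ent z ∈ M u) (hsat : ∀ Q ∈ ReflQ, ∀ u, Sat (M u) Q)
    {Ts : Set Node} (hTs : IsTree Ts) (hgen : Gen M Ts)
    {Y : List Lam → Set (Set Node)} (hY : ∀ l, Op (Y l))
    {sq : Node} {Tq : Set Node} (hTq : IsT sq Tq) (hsub : Tq ⊆ Ts) (hYM : U.hy Y ∈ M sq)
    {m : ℕ} (hm : Tq ∈ Lv Y m []) (av : List Lam → Set Lam) (hav : ∀ l, #(av l) < ℵ_ ω) :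
    ∃ v ∈ Tq, ∃ xs : List Lam, xs.length = m ∧
      (∀ (l : List Lam) (x : Lam) (r : List Lam), xs = l ++ x :: r → x ∉ av l) ∧
      (∀ x ∈ xs, U.ord x ∈ M v) ∧
      ∃ S, U.tr S ∈ M v ∧ IsT v S ∧ bel Ts v ⊆ S ∧ S ∈ Y xs := by
  obtain ⟨y, hyM, Y', hY', hy⟩ := hsat (QLv m) ⟨m, Or.inl rfl⟩ sq [U.hy Y] (by
    intro x hx
    rw [List.mem_singleton.1 hx]
    exact hYM) ⟨U.st (Lv Y m []), Y, rfl, rfl⟩
  have hYY : Y = Y' := by simpa using hY'
  subst hYY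
  rw [hy] at hyM
  obtain ⟨v, hv, S, hSM, hSv, hTS, hdec⟩ := hgen sq (hsub hTq.stem) (Lv Y m []) (op_Lv hY m [])
    hyM Tq ⟨sq, hTq⟩ fun t ht => ⟨hsub ht, hTq.above t ht⟩
  have hSm : S ∈ Lv Y m [] := by
    rcases hdec with h | h
    · exact h
    · exact absurd (op_Lv hY m [] Tq hm (bel Tq v) (isTree_bel ⟨sq, hTq⟩ hv) (bel_sub Tq v))
        (h (bel Tq v) (isTree_bel ⟨sq, hTq⟩ hv) ((bel_mono hsub v).trans hTS))
  obtain ⟨v', hv', -, xs, hlen, hxav, hxsM, S', hS'M, hS'v, hTS', hS'Y⟩ :=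
    reflect_aux hmono hent hsat hTs hgen hY ⟨sq, hTq⟩ hsub av hav m v hv S [] hSv hTS hSM hSm
      (hmono _ _ (hTq.above v hv) hYM) (fun x hx => absurd hx List.not_mem_nil)
  exact ⟨v', hv', xs, hlen, hxav, hxsM, S', hS'M, hS'v, hTS', hS'Y⟩

end Pool.Agent.Helper4.RB
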