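import Pool.Agent.Helper4.RB.P3
import Pool.Agent.Helper4.RB.P7
import Pool.Agent.Helper4.RB.P8a
import Pool.Agent.Helper4.RB.P8b
import Pool.Agent.Helper4.RB.Rf3

/-!
# Block RB-C9: the poset preserves stationary subsets of `ω_1`

`ssp`. Let `𝓠 = ReflQ ∪ 𝓠_D` with `𝓠_D` from `exists_QD`. `exists_model` for `p`: `e`, `Ts := T'`; let
`q = (Ts, p.ρ ++ [e]) ≤ p`, `i = e.i`. Let `j < i` and `r ≤ q`. Choose `r' ≤ r` and `k0` with `r' ∈ D j k0`;
write `Tq = r'.T`, with stem `s`; `Tq ⊆ Ts`. Since `p.ρ ++ [e]` is a sublist of `r'.ρ`, `e ∈ r'.ρ`;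
write `r'.ρ = ρ ++ e :: ρ'`. Let `Y = YY D j ρ` (open: `YY_op`), `l = (e :: ρ').map Ety.x`; `Tq ∈ Y l`.
For `g ∈ ρ`: `g.toU ∈ rg e.K s` (`gmem`), `o1 j ∈ rg e.K s` (`Good.o1`, `mono`); so `hy Y ∈ rg e.K s`
(`exists_QD`), and `fn (GF Y l.length) ∈ rg e.K s` (`QGF`).

(a) `Tq ∈ Lv Y l.length []` by `growth_Lv`: for `l = l1 ++ z :: l2` the growth condition `Cond.gr` for `e`
at `u = s` (`bel Tq s = Tq`) and `F = GF Y l.length` (`valid_GF`) is `Frc Tq (Lt (GF Y l.length l1) z)`.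

(b) Let `a = pts r'.ρ`, `up = pts (e :: ρ')`. Apply `pigeon` with
`ι = {w : Node × List Lam // ∀ x ∈ w.2, ord x ∈ rg e.K w.1}` (`mk_idx`; `rg` is countable), `xs w = w.2`,
`Q w := w.1 ∈ Tq ∧ ∃ S, tr S ∈ rg e.K w.1 ∧ IsT w.1 S ∧ bel Ts w.1 ⊆ S ∧ S ∈ Y w.2`. For `β' ∈ R d a` the
hypothesis is given by `reflect` with `av = Av d a (insert β' up)` (`mk_Av`); the members of `xs` are
`< e.x < β'` by `GoodT.ordlt` and `β' ∈ R d a`.

(c) So there are `v ∈ Tq`, `xs`, `S` as in `Q`, with `xs` avoiding `Av d a up`, and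
`StatL (R d (a ∪ {x ∈ xs}))`. By `exists_QD` (for `M = rg e.K v`) there are `η`, `k` with
`(S, ρ ++ η) ∈ D j k`, `η.map x = xs`, `g.toU ∈ rg e.K v` for `g ∈ η`, `o1 k ∈ rg e.K v`; so `k < e.i = i`
(`GoodT.o1lt` at `v ∈ Tq`).

(d) `OK d (pts (ρ ++ η ++ e :: ρ'))`; this set is `a ∪ {x ∈ xs}`. Rainbow: for `β'' ∈ up` by `injOn_Av`.
For `β'' ∈ pts (ρ ++ η)`, the elements of the set below `β''` are in `pts (ρ ++ η)` (the points of `ρ` and
`η` are `< e.x`, those of `e :: ρ'` are `≥ e.x`), so use the rainbow property of the condition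
`(S, ρ ++ η)`.

(e) `amalg` (with `bel Tq v ⊆ bel Ts v ⊆ S`) gives a condition
`t = (bel Tq v, ρ ++ η ++ e :: ρ')`. `t ≤ r'`, and `t ≤ (S, ρ ++ η)`, so `t ∈ D j k`.
-/

set_option autoImplicit false

namespace Pool.Agent.Helper4.RB

open Cardinal Ordinal Set

variable {d : Lam → Lam → ℕ} {e0 : Ety}

private theorem reflQ_countable53 : ReflQ.Countable := by
  have h : ReflQ ⊆ ⋃ m : ℕ, ({QLv m, QSS m, QLo m, QHi m, QMid m, QPick m, QGF m} :
      Set (List U → U → Prop)) := by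
    rintro Q ⟨m, hm⟩
    refine Set.mem_iUnion.2 ⟨m, ?_⟩
    simp only [Set.mem_insert_iff, Set.mem_singleton_iff]
    exact hm
  refine Set.Countable.mono h (Set.countable_iUnion fun m => ?_)
  exact (Set.toFinite _).countable

private theorem ok_amalg53 {a up : Set Lam} {ρ η ρ' : List Ety} {e : Ety} {xs : List Lam}
    {S : Set Node} (ha : a = pts (ρ ++ e :: ρ')) (hup : up = pts (e :: ρ')) (hoka : OK d a)
    (hinc : (ρ ++ e :: ρ').Pairwise (fun e e' => e.x < e'.x)) (hr : Cond d e0 S (ρ ++ η))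
    (hηx : η.map Ety.x = xs) (hlt : ∀ x ∈ xs, x < e.x)
    (hav : ∀ (l : List Lam) (x : Lam) (r : List Lam), xs = l ++ x :: r → x ∉ Av d a up l)
    (hst : StatL (R d (a ∪ {x | x ∈ xs}))) : OK d (pts (ρ ++ η ++ e :: ρ')) := by
  have hη : pts η = {x | x ∈ xs} := by rw [pts_eq_map, hηx]
  have hset : pts (ρ ++ η ++ e :: ρ') = a ∪ {x | x ∈ xs} := by
    rw [ha, pts_append, pts_append, pts_append, hη]
    ext x
    simp only [Set.mem_union]
    tauto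
  have hpw := List.pairwise_append.1 hinc
  have hρlt : ∀ x ∈ pts ρ, x < e.x := by
    rintro x ⟨g, hg, rfl⟩
    exact hpw.2.2 g hg e (by simp)
  have hupge : ∀ x ∈ up, e.x ≤ x := by
    intro x hx
    rw [hup, pts_cons] at hx
    rcases hx with rfl | ⟨g, hg, rfl⟩
    · exact le_refl _
    · exact ((List.pairwise_cons.1 hpw.2.1).1 g hg).le
  have hupa : up ⊆ a := by
    rw [ha, hup, pts_append]
    exact Set.subset_union_right
  refine ⟨?_, ?_, ?_⟩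
  · rw [hset]
    exact hoka.fin.union (List.finite_toSet xs)
  · intro β hβ
    rw [pts_append] at hβ
    rcases hβ with hβ | hβ
    · have hβlt : β < e.x := by
        rw [pts_append, hη] at hβ
        rcases hβ with hβ | hβ
        · exact hρlt β hβ
        · exact hlt β hβ
      refine (hr.ok.rb β hβ).mono ?_
      rintro x ⟨hx, hxβ⟩
      refine ⟨?_, hxβ⟩
      rw [pts_append] at hx
      rcases hx with hx | hx
      · exact hx
      · exfalso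
        have h1 := hupge x (hup ▸ hx)
        exact absurd (h1.trans_lt (Set.mem_Iio.1 hxβ)) (not_lt.2 hβlt.le)
    · have hβ' : β ∈ up := hup ▸ hβ
      rw [hset]
      exact injOn_Av hβ' (hoka.rb β (hupa hβ')) xs hav
  · rw [hset]
    exact hst

theorem ssp (hd : Fib d) {S0 : Set Om1} (hS : StatO S0) (D : Om1 → Om1 → Set (Po d e0))
    (hlow : ∀ j k, IsLowerSet (D j k)) (hD : ∀ (j : Om1) (p : Po d e0), ∃ q ≤ p, ∃ k, q ∈ D j k)
    (p : Po d e0) :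
    ∃ q ≤ p, ∃ i ∈ S0, (∃ j, j < i) ∧ ∀ j < i, ∀ r ≤ q, ∃ t ≤ r, ∃ k < i, t ∈ D j k := by
  classical
  obtain ⟨QD, hQDc, hQD⟩ := exists_QD D
  obtain ⟨e, heb, hei, hej, Ts, hTsp, hcond, hgen, hsat⟩ :=
    exists_model hd (reflQ_countable53.union hQDc) p hS
  refine ⟨⟨Ts, p.ρ ++ [e], hcond⟩, ⟨hTsp, List.sublist_append_left _ _⟩, e.i, hei, hej, ?_⟩
  intro j hj r hr
  obtain ⟨r', hr', k0, hk0⟩ := hD j r
  have hrq := hr'.trans hr
  obtain ⟨Tq, ρq, hcq⟩ := r'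
  obtain ⟨hsub, hsubl⟩ := hrq
  simp only at hsub hsubl
  have hemem : e ∈ ρq := hsubl.subset (by simp)
  obtain ⟨ρ, ρ', rfl⟩ := List.append_of_mem hemem
  obtain ⟨s, hs⟩ := hcq.tree
  obtain ⟨hgood, hgoodT⟩ := hcq.good e hemem heb
  have hg0 : ∀ g ∈ ρ, g.toU ∈ rg e.K s := fun g hg => gmem hcq hs heb hg
  have ho1 : U.o1 j ∈ rg e.K s := hgood.mono [] s (List.nil_suffix) (hgood.o1 j hj)
  have hYM := (hQD (rg e.K s) (fun Q hQ => hsat Q (Or.inr hQ) s) j ρ ho1 hg0).1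
  have hYop : ∀ l, Op (YY D j ρ l) := fun l => YY_op hlow j ρ l
  have hTqY : Tq ∈ YY D j ρ ((e :: ρ').map Ety.x) := ⟨e :: ρ', k0, hcq, rfl, hk0⟩
  have hGF : U.fn (GF (YY D j ρ) ((e :: ρ').map Ety.x).length) ∈ rg e.K s := by
    obtain ⟨y, hy, Y', hl, rfl⟩ := hsat (QGF ((e :: ρ').map Ety.x).length)
      (Or.inl ⟨_, Or.inr (Or.inr (Or.inr (Or.inr (Or.inr (Or.inr rfl)))))⟩) s [U.hy (YY D j ρ)]
      (by
        intro x hx
        rw [List.mem_singleton] at hx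
        rw [hx]
        exact hYM) ⟨_, _, rfl, rfl⟩
    have h1 : YY D j ρ = Y' := by
      have h2 := (List.cons.inj hl).1
      exact U.hy.inj h2
    rw [h1]
    exact hy
  have hlv : Tq ∈ Lv (YY D j ρ) ((e :: ρ').map Ety.x).length [] := by
    refine growth_Lv hYop hcq.tree _ hTqY (fun l1 z l2 hl => ?_)
    have h1 := hcq.gr ρ e ρ' rfl heb s hs.stem _ hGF l1 z l2 hl (valid_GF hYop _ _)
    rwa [bel_stem hs] at h1
  have hoka := hcq.ok
  have hexa : e.x ∈ pts (ρ ++ e :: ρ') := ⟨e, by simp, rfl⟩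
  have hupa : pts (e :: ρ') ⊆ pts (ρ ++ e :: ρ') := by
    rw [pts_append]
    exact Set.subset_union_right
  obtain ⟨⟨⟨v, xs⟩, hxs⟩, ⟨hv, S, hSM, hST, hTsS, hSY⟩, hav, hst⟩ :=
    pigeon (d := d) (up := pts (e :: ρ')) hoka (mk_idx (rg e.K) (fun v => Set.countable_range _))
      (fun w => w.1.2)
      (fun w => w.1.1 ∈ Tq ∧ ∃ S, U.tr S ∈ rg e.K w.1.1 ∧ IsT w.1.1 S ∧ bel Ts w.1.1 ⊆ S ∧
        S ∈ YY D j ρ w.1.2) (by
      intro β hβ
      obtain ⟨v, hv, xs, _, hav, hxs, S, h1, h2, h3, h4⟩ := reflect hgood.mono hgood.ent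
        (fun Q hQ u => hsat Q (Or.inl hQ) u) hcond.tree hgen hYop hs hsub hYM hlv
        (fun l => Av d (pts (ρ ++ e :: ρ')) (insert β (pts (e :: ρ'))) l)
        (fun l => mk_Av hd hoka.fin ((hoka.fin.subset hupa).insert β) l)
      refine ⟨⟨(v, xs), hxs⟩, ⟨hv, S, h1, h2, h3, h4⟩, hav, ?_⟩
      intro x hx
      exact (hgoodT.ordlt v hv x (hxs x hx)).trans (hβ.2.1 e.x hexa))
  simp only at hv hSM hST hTsS hSY hav hst hxs
  have hsv : s <:+ v := hs.above v hv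
  obtain ⟨η, k, hc, hηx, hηD, hηM, hkM⟩ := (hQD (rg e.K v) (fun Q hQ => hsat Q (Or.inr hQ) v) j ρ
    (hgood.mono s v hsv ho1) (fun g hg => hgood.mono s v hsv (hg0 g hg))).2 S xs hSM hxs hSY
  have hki : k < e.i := hgoodT.o1lt v hv k hkM
  have hvS : bel Tq v ⊆ S := (bel_mono hsub v).trans hTsS
  have hok := ok_amalg53 rfl rfl hoka hcq.inc hc hηx (fun x hx => hgoodT.ordlt v hv x (hxs x hx))
    hav hst
  have hcc := amalg heb hcq hc hv hvS hηM hok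
  refine ⟨⟨bel Tq v, ρ ++ η ++ e :: ρ', hcc⟩, ?_, k, hki, ?_⟩
  · refine le_trans ?_ hr'
    exact ⟨bel_sub _ _, (List.sublist_append_left ρ η).append (List.Sublist.refl _)⟩
  · exact hlow j k ⟨hvS, List.sublist_append_left _ _⟩ hηD

end Pool.Agent.Helper4.RB
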