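import Pool.Agent.Helper4.RB.P6
import Pool.Agent.Helper4.RB.P6t

/-!
# Block RB-C10: dense sets

`dense_D2`. Let `e` be the last entry of `p.ρ` with `e.i ≤ i` (it exists: `e0.i ≤ i`). If `e.i = i` or
`i < e.h`, take `q = p`. Otherwise `e.h ≤ i`. If `e` is the last entry of `p.ρ`: `add_top` gives
`n` with `n.i = e.h ≤ i < n.h`: either `n.i = i` or `n.i < i < n.h`. Otherwise let `e'` be the next entry,
`i < e'.i`, so `e'.i ≠ e.h`, hence (`Nx e e'`) `e'.b = true` and `e.h < e'.i`. By `Good.lim` there is `h'` with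
`i < h' < e'.i`; `add_mid` (with `γ = e.x < e'.x`) gives `n` with `n.i = e.h ≤ i < h' = n.h`.

`dense_D1`: `add_top` twice: the entry `n` of the first has `i < n.h`, and the second one has index
`n.h`.

`dense_D3`. By `dense_D2` we may assume `p ∈ D2 i`. If no entry `e' ∈ p.ρ` has `e'.i = i`, `e'.b = true`,
`e'.K [] m = ord x` with `x < e'.x`, then `q = p`. Otherwise `e' ≠ e0` (`Base.b`), so it has a predecessor `e`,
`p.ρ = ρ ++ e :: e' :: ρ'`, `e.h < e'.i` (`Nx`, `e'.b = true`); by `Good.lim` choose `h'` with `e.h < h' < e'.i`;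
`add_mid` with `γ = x` gives `q`. Entries of `q.ρ` with index `i`: only `e'` (indices are increasing:
`index_lt`).
-/

set_option autoImplicit false

namespace Pool.Agent.Helper4.RB

open Cardinal Ordinal Set

variable {d : Lam → Lam → ℕ} {e0 : Ety}

/-- There is an index above `i`. -/
def D1 (d : Lam → Lam → ℕ) (e0 : Ety) (i : Om1) : Set (Po d e0) := {p | ∃ e ∈ p.ρ, i < e.i}

/-- `i` is an index or it is excluded by a promise. -/
def D2 (d : Lam → Lam → ℕ) (e0 : Ety) (i : Om1) : Set (Po d e0) :=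
  {p | (∃ e ∈ p.ρ, e.i = i) ∨ ∃ e ∈ p.ρ, e.i < i ∧ i < e.h}

/-- If the `m`-th element of the model of the entry with index `i` is an ordinal below its point,
then there is a point in between. -/
def D3 (d : Lam → Lam → ℕ) (e0 : Ety) (i : Om1) (m : ℕ) : Set (Po d e0) :=
  {p | p ∈ D2 d e0 i ∧ ∀ e ∈ p.ρ, e.i = i → e.b = true → ∀ x, e.K [] m = U.ord x → x < e.x →
    ∃ g ∈ p.ρ, x < g.x ∧ g.x < e.x}

private theorem uniq65 : ∀ {l : List Ety}, l.Pairwise (fun e e' => e.i < e'.i ∧ e.h ≤ e'.i) →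
    ∀ {a b : Ety}, a ∈ l → b ∈ l → a.i = b.i → a = b := by
  intro l
  induction l with
  | nil =>
    intro _ a b ha
    exact absurd ha List.not_mem_nil
  | cons c l ih =>
    intro h a b ha hb hab
    rw [List.pairwise_cons] at h
    rcases List.mem_cons.1 ha with h1 | h1
    · rcases List.mem_cons.1 hb with h2 | h2
      · rw [h1, h2]
      · have h3 := (h.1 b h2).1
        rw [h1] at hab
        rw [hab] at h3
        exact absurd h3 (lt_irrefl _)
    · rcases List.mem_cons.1 hb with h2 | h2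
      · have h3 := (h.1 a h1).1
        rw [h2] at hab
        rw [hab] at h3
        exact absurd h3 (lt_irrefl _)
      · exact ih h.2 h1 h2 hab

private theorem last65 {P : Ety → Prop} : ∀ {l : List Ety}, (∃ x ∈ l, P x) →
    ∃ (l1 : List Ety) (x : Ety) (l2 : List Ety), l = l1 ++ x :: l2 ∧ P x ∧ ∀ y ∈ l2, ¬ P y := by
  intro l
  induction l with
  | nil =>
    rintro ⟨x, hx, _⟩
    exact absurd hx List.not_mem_nil
  | cons c l ih =>
    rintro ⟨x, hx, hP⟩
    by_cases h : ∃ y ∈ l, P y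
    · obtain ⟨l1, z, l2, h1, h2, h3⟩ := ih h
      exact ⟨c :: l1, z, l2, by rw [h1]; rfl, h2, h3⟩
    · rcases List.mem_cons.1 hx with h1 | h1
      · exact ⟨[], c, l, rfl, h1 ▸ hP, fun y hy hy' => h ⟨y, hy, hy'⟩⟩
      · exact absurd ⟨x, h1, hP⟩ h

private theorem nx65 {p : Po d e0} {ρ ρ' : List Ety} {e e' : Ety} (h : p.ρ = ρ ++ e :: e' :: ρ') :
    Nx e e' := by
  have h1 := p.cond.chain
  rw [h, List.isChain_append] at h1
  exact (List.isChain_cons_cons.1 h1.2.1).1

private theorem x65 {p : Po d e0} {ρ ρ' : List Ety} {e e' : Ety} (h : p.ρ = ρ ++ e :: e' :: ρ') :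
    e.x < e'.x := by
  have h1 := p.cond.inc
  rw [h, List.pairwise_append] at h1
  exact (List.pairwise_cons.1 h1.2.1).1 e' List.mem_cons_self

theorem dense_D1 (hd : Fib d) (i : Om1) (p : Po d e0) : ∃ q ≤ p, q ∈ D1 d e0 i := by
  obtain ⟨q, hq, e, n, -, h2, -, -, -, h6⟩ := add_top hd p (Classical.arbitrary Lam) i
  obtain ⟨q', hq', e', n', k1, k2, -, k4, -, -⟩ := add_top hd q (Classical.arbitrary Lam) i
  rw [h2, List.getLast?_append, List.getLast?_singleton] at k1
  have h3 : n = e' := by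
    simpa using k1
  refine ⟨q', hq'.trans hq, n', ?_, ?_⟩
  · rw [k2]
    exact List.mem_append_right _ (List.mem_singleton_self n')
  · rw [k4, ← h3]
    exact h6

theorem dense_D2 (hd : Fib d) (hb : Base e0) (i : Om1) (p : Po d e0) :
    ∃ q ≤ p, q ∈ D2 d e0 i := by
  have h0 : ∃ g ∈ p.ρ, g.i ≤ i := by
    obtain ⟨ρ', h⟩ := p.cond.head
    exact ⟨e0, by rw [h]; exact List.mem_cons_self, hb.i i⟩
  obtain ⟨ρ, e, ρ2, h1, h2, h3⟩ := last65 h0
  have hmem : e ∈ p.ρ := by
    rw [h1]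
    exact List.mem_append_right _ List.mem_cons_self
  rcases eq_or_lt_of_le h2 with h4 | h4
  · exact ⟨p, le_rfl, Or.inl ⟨e, hmem, h4⟩⟩
  rcases lt_or_ge i e.h with h5 | h5
  · exact ⟨p, le_rfl, Or.inr ⟨e, hmem, h4, h5⟩⟩
  cases ρ2 with
  | nil =>
    obtain ⟨q, hq, e', n, k1, k2, -, k4, -, k6⟩ := add_top hd p (Classical.arbitrary Lam) i
    have k7 : e = e' := by
      rw [h1, List.getLast?_append, List.getLast?_singleton] at k1
      simpa using k1
    have k8 : n ∈ q.ρ := by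
      rw [k2]
      exact List.mem_append_right _ (List.mem_singleton_self n)
    rw [← k7] at k4
    rcases eq_or_lt_of_le h5 with h6 | h6
    · exact ⟨q, hq, Or.inl ⟨n, k8, k4.trans h6⟩⟩
    · exact ⟨q, hq, Or.inr ⟨n, k8, by rw [k4]; exact h6, k6⟩⟩
  | cons e' ρ' =>
    have h6 : i < e'.i := not_le.1 (h3 e' List.mem_cons_self)
    have hbt : e'.b = true := by
      rcases nx65 h1 with h7 | h7
      · rw [h7.2] at h6
        exact absurd h5 (not_le.2 h6)
      · exact h7.1
    have hm' : e' ∈ p.ρ := by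
      rw [h1]
      exact List.mem_append_right _ (List.mem_cons_of_mem _ List.mem_cons_self)
    obtain ⟨j, hj1, hj2⟩ := (p.cond.good e' hm' hbt).1.lim i h6
    obtain ⟨q, hq, n, k1, -, k3, k4, -, -⟩ := add_mid hd p h1 hbt (x65 h1) (h5.trans_lt hj1) hj2
    have k8 : n ∈ q.ρ := by
      rw [k1]
      exact List.mem_append_right _ (List.mem_cons_of_mem _ List.mem_cons_self)
    rcases eq_or_lt_of_le h5 with h7 | h7
    · exact ⟨q, hq, Or.inl ⟨n, k8, k3.trans h7⟩⟩
    · exact ⟨q, hq, Or.inr ⟨n, k8, by rw [k3]; exact h7, by rw [k4]; exact hj1⟩⟩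

theorem dense_D3 (hd : Fib d) (hb : Base e0) (i : Om1) (m : ℕ) (p : Po d e0) :
    ∃ q ≤ p, q ∈ D3 d e0 i m := by
  obtain ⟨p', hp', hD⟩ := dense_D2 hd hb i p
  by_cases H : ∃ e ∈ p'.ρ, e.i = i ∧ e.b = true ∧ ∃ x, e.K [] m = U.ord x ∧ x < e.x
  · obtain ⟨e', he', hei, heb, x, hx, hxe⟩ := H
    obtain ⟨l1, l2, hl⟩ := List.append_of_mem he'
    have hne : l1 ≠ [] := by
      intro h1
      rw [h1, List.nil_append] at hl
      obtain ⟨ρ', h2⟩ := p'.cond.head
      rw [h2] at hl
      have h3 : e0 = e' := (List.cons.inj hl).1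
      rw [← h3, hb.b] at heb
      exact absurd heb (by simp)
    rcases List.eq_nil_or_concat l1 with h1 | ⟨ρ, e, h1⟩
    · exact absurd h1 hne
    have hl' : p'.ρ = ρ ++ e :: e' :: l2 := by
      rw [hl, h1, List.concat_eq_append, List.append_assoc]
      rfl
    have h2 : e.h < e'.i := by
      rcases nx65 hl' with h3 | h3
      · rw [h3.1] at heb
        exact absurd heb (by simp)
      · exact h3.2
    obtain ⟨j, hj1, hj2⟩ := (p'.cond.good e' he' heb).1.lim e.h h2
    obtain ⟨q, hq, n, k1, -, k3, k4, k5, k6⟩ := add_mid hd p' hl' heb hxe hj1 hj2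
    have hq' : e' ∈ q.ρ := by
      rw [k1]
      exact List.mem_append_right _ (List.mem_cons_of_mem _ (List.mem_cons_of_mem _ List.mem_cons_self))
    have hn' : n ∈ q.ρ := by
      rw [k1]
      exact List.mem_append_right _ (List.mem_cons_of_mem _ List.mem_cons_self)
    refine ⟨q, hq.trans hp', Or.inl ⟨e', hq', hei⟩, ?_⟩
    intro g hg hgi _ y hy _
    have hge : g = e' := uniq65 (index_lt q.cond) hg hq' (hgi.trans hei.symm)
    rw [hge] at hy ⊢
    rw [hx] at hy
    have hxy : x = y := U.ord.inj hy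
    rw [← hxy]
    exact ⟨n, hn', k5, k6⟩
  · refine ⟨p', hp', hD, ?_⟩
    intro e he hei heb x hx hxe
    exact absurd ⟨e, he, hei, heb, x, hx, hxe⟩ H

end Pool.Agent.Helper4.RB
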