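import Pool.Agent.Helper4.RB.Tr1

/-!
# Block RB-B1: the hierarchy `Lv` and the growth argument

`op_Lv`: induction on `m`; `unb_sub`.
`valid_GF`. Open: a subtree of a subtree is a subtree; `unb_sub`. Monotone: clear. Dense: let
`X x = Lv Y (m - |l| - 1) (l ++ [x])`. If `Unb T X` take `T`. Otherwise there are `β` and a tree
`T' ⊆ T` such that no subtree of `T'` is in `{S | ∃ x, β < x ∧ S ∈ X x}`; so `T' ∈ GF Y m l β`.
`growth_Lv`. Show by induction on `k` (for `k ≤ |l|`): `T ∈ Lv Y k (l.take (|l| - k))`. `k = 0` is `hl`.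
Step: write `l = l1 ++ z :: l2` with `|l2| = k`, so `T ∈ Lv Y k (l1 ++ [z])`; put
`X x = Lv Y k (l1 ++ [x])`; note `|l| - |l1| - 1 = k`. To show `Unb T X`: let `β0 : Lam` and let
`T' ⊆ T` be a tree. By `hg` there are a tree `T1 ⊆ T'` and `β < z` with `T1 ∈ GF Y |l| l1 β`. The first
alternative in the definition of `GF` fails for `x = z` and the subtree `T1` (`T1 ∈ X z` by openness,
`op_Lv`). So `Unb T1 X`, which gives a subtree of `T1` in `{S | ∃ x, β0 < x ∧ S ∈ X x}`.
-/

set_option autoImplicit false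

namespace Pool.Agent.Helper4.RB

open Cardinal Ordinal Set

variable {Y : List Lam → Set (Set Node)}

theorem op_Lv (hY : ∀ l, Op (Y l)) (m : ℕ) (l : List Lam) : Op (Lv Y m l) := by
  induction m generalizing l with
  | zero => exact hY l
  | succ m ih =>
    intro T hT T' _ hs
    exact unb_sub hT hs

theorem valid_GF (hY : ∀ l, Op (Y l)) (m : ℕ) (l : List Lam) : Valid (GF Y m l) := by
  refine ⟨?_, ?_, ?_⟩
  · intro β T hT T' hT' hs
    rcases hT with h | h
    · exact Or.inl fun x hx T'' h1 h2 => h x hx T'' h1 (h2.trans hs)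
    · exact Or.inr (unb_sub h hs)
  · intro β γ hβγ T hT
    rcases hT with h | h
    · exact Or.inl fun x hx => h x (hβγ.trans_lt hx)
    · exact Or.inr h
  · intro T hT
    by_cases h : Unb T (fun x => Lv Y (m - l.length - 1) (l ++ [x]))
    · exact ⟨T, hT, Subset.rfl, Classical.arbitrary Lam, Or.inr h⟩
    · unfold Unb Frc at h
      push Not at h
      obtain ⟨β, T', hT', hs, h1⟩ := h
      refine ⟨T', hT', hs, β, Or.inl fun x hx T'' h2 h3 h4 => ?_⟩
      exact h1 T'' h2 h3 ⟨x, hx, h4⟩

theorem growth_Lv (hY : ∀ l, Op (Y l)) {T : Set Node} (hT : IsTree T) (l : List Lam)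
    (hl : T ∈ Y l) (hg : ∀ (l1 : List Lam) (z : Lam) (l2 : List Lam), l = l1 ++ z :: l2 →
      Frc T (Lt (GF Y l.length l1) z)) : T ∈ Lv Y l.length [] := by
  have key : ∀ k, k ≤ l.length → T ∈ Lv Y k (l.take (l.length - k)) := by
    intro k
    induction k with
    | zero =>
      intro _
      rw [Nat.sub_zero, List.take_length]
      exact hl
    | succ k ih =>
      intro hk
      have h1 := ih (by omega)
      obtain ⟨l1, hl1⟩ : ∃ l1, l1 = l.take (l.length - (k + 1)) := ⟨_, rfl⟩
      have hlt : l.length - (k + 1) < l.length := by omega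
      obtain ⟨z, hz⟩ : ∃ z, z = l[l.length - (k + 1)] := ⟨_, rfl⟩
      have h2 : l.take (l.length - k) = l1 ++ [z] := by
        have h3 : l.length - k = (l.length - (k + 1)) + 1 := by omega
        rw [h3, List.take_succ_eq_append_getElem hlt, hl1, hz]
      obtain ⟨l2, hl2⟩ : ∃ l2, l2 = l.drop (l.length - (k + 1) + 1) := ⟨_, rfl⟩
      have h4 : l = l1 ++ z :: l2 := by
        rw [hl1, hz, hl2, ← List.drop_eq_getElem_cons hlt, List.take_append_drop]
      have h5 : l1.length = l.length - (k + 1) := by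
        rw [hl1, List.length_take]
        omega
      have h6 : l.length - l1.length - 1 = k := by omega
      rw [h2] at h1
      rw [← hl1]
      show Unb T (fun x => Lv Y k (l1 ++ [x]))
      intro β0 T' hT' hs
      obtain ⟨T1, hT1, hs1, β, hβ, h7⟩ := hg l1 z l2 h4 T' hT' hs
      rcases h7 with h7 | h7
      · rw [h6] at h7
        exact absurd (op_Lv hY k _ T h1 T1 hT1 (hs1.trans hs)) (h7 z hβ T1 hT1 Subset.rfl)
      · rw [h6] at h7
        obtain ⟨T2, hT2, hs2, h8⟩ := h7 β0 T1 hT1 Subset.rfl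
        exact ⟨T2, hT2, hs2.trans hs1, h8⟩
  have h := key l.length le_rfl
  rw [Nat.sub_self, List.take_zero] at h
  exact h

end Pool.Agent.Helper4.RB
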