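import Pool.Agent.Helper4.RB.Tr4
import Pool.Agent.Helper4.RB.Rf1

/-!
# Block RB-B2: one step of the reflection argument

Let `X x = Lv Y m (a ++ [x])`; all `X x` are open (`op_Lv`), and `S ∈ Lv Y (m+1) a` means `Unb S X`. Fix
`n` with `#A < kap k` for all `k ≥ n` (`exists_kap`) and choose `w0 ∈ Tq` extending `v` with
`|w0| ≥ n` (`exists_len` in the tree `bel Tq v`).

(1) `st (SS X) ∈ M v` by `QSS m` for the list `hy Y :: ords a` (from `QSS m l y` recover `Y` and `a`: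
`U.ord` and `ords` are injective). `SS X` is open (`SS_op`). By `Gen` at `v ∈ Ts` with the tree
`bel Tq w0 ⊆ bel Ts v` there are `v1 ∈ bel Tq w0` and `S1` with `tr S1 ∈ M v1`, `IsT v1 S1`,
`bel Ts v1 ⊆ S1`, `S1 ∈ Dec (SS X)`. In fact `S1 ∈ SS X`: `bel Ts v1 ⊆ bel Ts v ⊆ S`, so
`Unb (bel Ts v1) X`, and by `SS_dense` a subtree of `bel Ts v1 ⊆ S1` is in `SS X`.

(2) Let `lo = loS X S1`, `hi = hiS X S1`; `IsSS X S1 lo hi` (`Classical.epsilon_spec` twice). Let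
`A' = {z | z :: v1 ∈ S1 ∧ ∃ x ∈ A, lo v1 z < x ∧ x < hi v1 z}`. Choosing such an `x` for every `z ∈ A'` is
injective (the intervals are disjoint), so `#A' ≤ #A < kap |v1|`. By `exists_child` there is `z` with
`z :: v1 ∈ Tq`, `z ∉ A'`. `z :: v1 ∈ Ts`, and `z :: v1 ∈ bel Ts v1 ⊆ S1`. Let `b = lo v1 z`, `c = hi v1 z`:
`ord b, ord c ∈ M (z :: v1)` by `QLo m`, `QHi m` (the stem of `S1` is `v1`: `stem_unique`).

(3) Let `E = {S | ∃ x, b < x ∧ x < c ∧ S ∈ X x}`, open; `st E ∈ M (z :: v1)` by `QMid m`. By `Gen` at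
`z :: v1` with the tree `bel Tq (z :: v1)` there are `v2` in it and `S2` with `tr S2 ∈ M v2`, `IsT v2 S2`,
`bel Ts v2 ⊆ S2`, `S2 ∈ Dec E`. In fact `S2 ∈ E`: `bel Ts v2 ⊆ bel S1 (z :: v1)`, and
`Frc (bel S1 (z :: v1)) E` by `IsSS`, so a subtree of `bel Ts v2 ⊆ S2` is in `E`.

(4) By `QPick m` there is `x` with `ord x ∈ M v2`, `b < x < c`, `S2 ∈ X x`; `x ∉ A` because `z ∉ A'`.
-/

set_option autoImplicit false

namespace Pool.Agent.Helper4.RB

open Cardinal Ordinal Set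

private theorem ords_inj52 {a b : List Lam} (h : ords a = ords b) : a = b :=
  List.map_injective_iff.2 (fun _ _ h => U.ord.inj h) h

theorem refl_step {M : Node → Set U} (hmono : ∀ u v : Node, u <:+ v → M u ⊆ M v)
    (hent : ∀ u : Node, ∀ z ∈ u, U.ent z ∈ M u) (hsat : ∀ Q ∈ ReflQ, ∀ u, Sat (M u) Q)
    {Ts : Set Node} (hTs : IsTree Ts) (hgen : Gen M Ts)
    {Y : List Lam → Set (Set Node)} (hY : ∀ l, Op (Y l))
    {Tq : Set Node} (hTq : IsTree Tq) (hsub : Tq ⊆ Ts) {v : Node} (hv : v ∈ Tq)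
    {S : Set Node} (hSv : IsT v S) (hTS : bel Ts v ⊆ S)
    {m : ℕ} {a : List Lam} (hSm : S ∈ Lv Y (m + 1) a) (hYM : U.hy Y ∈ M v)
    (ha : ∀ x ∈ a, U.ord x ∈ M v) {A : Set Lam} (hA : #A < ℵ_ ω) :
    ∃ v' ∈ Tq, v <:+ v' ∧ ∃ x, x ∉ A ∧ U.ord x ∈ M v' ∧ ∃ S', U.tr S' ∈ M v' ∧ IsT v' S' ∧
      bel Ts v' ⊆ S' ∧ S' ∈ Lv Y m (a ++ [x]) := by
  obtain ⟨s0, hs0⟩ := hTq
  obtain ⟨s1, hs1⟩ := hTs
  have hop : ∀ x, Op (Lv Y m (a ++ [x])) := fun x => op_Lv hY m _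
  have hU : Unb S (fun x => Lv Y m (a ++ [x])) := hSm
  obtain ⟨n, hn⟩ := exists_kap hA
  have hvs : v ∈ Ts := hsub hv
  obtain ⟨w0, hw0, hlen⟩ := exists_len (isT_bel hs0 hv) (le_max_right n v.length)
  have hords : ∀ w : Node, v <:+ w → ∀ y ∈ ords a, y ∈ M w := by
    intro w hw y hy
    obtain ⟨x, hx, rfl⟩ := List.mem_map.1 hy
    exact hmono v w hw (ha x hx)
  have hYw : ∀ w : Node, v <:+ w → U.hy Y ∈ M w := fun w hw => hmono v w hw hYM
  -- step 1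
  have hE1 : U.st (SS (fun x => Lv Y m (a ++ [x]))) ∈ M v := by
    obtain ⟨y, hyM, Y', a', hl, hy⟩ := hsat (QSS m) ⟨m, Or.inr (Or.inl rfl)⟩ v
      (U.hy Y :: ords a) (by
        intro y hy
        rcases List.mem_cons.1 hy with rfl | hy
        · exact hYM
        · exact hords v (List.suffix_refl v) y hy)
      ⟨_, Y, a, rfl, rfl⟩
    obtain ⟨h1, h2⟩ := List.cons.inj hl
    have h3 := U.hy.inj h1
    have h4 := ords_inj52 h2
    subst h3 h4
    rw [← hy]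
    exact hyM
  obtain ⟨v1, hv1, S1, hS1M, hS1T, hS1b, hS1D⟩ := hgen v hvs _ (SS_op _) hE1 (bel Tq w0)
    (isTree_bel ⟨s0, hs0⟩ hw0.1) (fun t ht => ⟨hsub ht.1, hw0.2.trans ht.2⟩)
  have hvv1 : v <:+ v1 := hw0.2.trans hv1.2
  have hv1s : v1 ∈ Ts := hsub hv1.1
  have hS1S : S1 ∈ SS (fun x => Lv Y m (a ++ [x])) := by
    rcases hS1D with h | h
    · exact h
    · exfalso
      obtain ⟨T', hT', hT'T, hT'S⟩ := SS_dense (isT_bel hs1 hv1s) hop
        (unb_sub hU ((bel_anti Ts hvv1).trans hTS))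
      exact h T' ⟨v1, hT'T⟩ (hT'.trans hS1b) hT'S
  -- step 2
  have hSS : IsSS (fun x => Lv Y m (a ++ [x])) S1 (loS (fun x => Lv Y m (a ++ [x])) S1)
      (hiS (fun x => Lv Y m (a ++ [x])) S1) := by
    have h1 : ∃ hi, IsSS (fun x => Lv Y m (a ++ [x])) S1
        (loS (fun x => Lv Y m (a ++ [x])) S1) hi := Classical.epsilon_spec hS1S
    exact Classical.epsilon_spec h1
  obtain ⟨hdis, hfrc⟩ := hSS v1 hS1T.stem
  obtain ⟨z, hz, hzA⟩ := exists_child hs0 hv1.1 (Z := {z | z :: v1 ∈ S1 ∧ ∃ x ∈ A,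
    loS (fun x => Lv Y m (a ++ [x])) S1 v1 z < x ∧
    x < hiS (fun x => Lv Y m (a ++ [x])) S1 v1 z}) (by
      refine lt_of_le_of_lt ?_ (hn v1.length ?_)
      · have hch : ∀ z : {z | z :: v1 ∈ S1 ∧ ∃ x ∈ A,
            loS (fun x => Lv Y m (a ++ [x])) S1 v1 z < x ∧
            x < hiS (fun x => Lv Y m (a ++ [x])) S1 v1 z}, ∃ x : A,
            loS (fun x => Lv Y m (a ++ [x])) S1 v1 z < x ∧
            x < hiS (fun x => Lv Y m (a ++ [x])) S1 v1 z := by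
          rintro ⟨z, hz1, x, hx, h1, h2⟩
          exact ⟨⟨x, hx⟩, h1, h2⟩
        choose f hf1 hf2 using hch
        refine Cardinal.mk_le_of_injective (f := f) ?_
        intro z z' hzz
        by_contra hne
        have hne' : (z : Ent) ≠ z' := fun h => hne (Subtype.ext h)
        rcases hdis z z' z.2.1 z'.2.1 hne' with h | h
        · have h1 := hf2 z
          have h2 := hf1 z'
          rw [hzz] at h1
          exact absurd (h1.trans_le (h.trans h2.le)) (lt_irrefl _)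
        · have h1 := hf2 z'
          have h2 := hf1 z
          rw [← hzz] at h1
          exact absurd (h1.trans_le (h.trans h2.le)) (lt_irrefl _)
      · have h1 := hv1.2.length_le
        have h2 : n ≤ w0.length := by
          rw [hlen]
          exact le_max_left _ _
        omega)
  have hzs : z :: v1 ∈ Ts := hsub hz
  have hzS1 : z :: v1 ∈ S1 := hS1b ⟨hzs, List.suffix_cons z v1⟩
  have hvz : v <:+ z :: v1 := hvv1.trans (List.suffix_cons z v1)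
  have hS1Mz : U.tr S1 ∈ M (z :: v1) := hmono v1 _ (List.suffix_cons z v1) hS1M
  have hzM : U.ent z ∈ M (z :: v1) := hent _ z List.mem_cons_self
  have hmem : ∀ y ∈ U.hy Y :: U.tr S1 :: U.ent z :: ords a, y ∈ M (z :: v1) := by
    intro y hy
    rcases List.mem_cons.1 hy with rfl | hy
    · exact hYw _ hvz
    rcases List.mem_cons.1 hy with rfl | hy
    · exact hS1Mz
    rcases List.mem_cons.1 hy with rfl | hy
    · exact hzM
    exact hords _ hvz y hy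
  have hb : U.ord (loS (fun x => Lv Y m (a ++ [x])) S1 v1 z) ∈ M (z :: v1) := by
    obtain ⟨y, hyM, Y', S', v', z', a', hIT, hl, hy⟩ := hsat (QLo m)
      ⟨m, Or.inr (Or.inr (Or.inl rfl))⟩ (z :: v1) _ hmem ⟨_, Y, S1, v1, z, a, hS1T, rfl, rfl⟩
    obtain ⟨h1, hl⟩ := List.cons.inj hl
    obtain ⟨h2, hl⟩ := List.cons.inj hl
    obtain ⟨h3, hl⟩ := List.cons.inj hl
    have h1 := U.hy.inj h1
    have h2 := U.tr.inj h2
    have h3 := U.ent.inj h3
    have h4 := ords_inj52 hl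
    subst h1 h2 h3 h4
    have h5 := stem_unique hIT hS1T
    subst h5
    rw [← hy]
    exact hyM
  have hc : U.ord (hiS (fun x => Lv Y m (a ++ [x])) S1 v1 z) ∈ M (z :: v1) := by
    obtain ⟨y, hyM, Y', S', v', z', a', hIT, hl, hy⟩ := hsat (QHi m)
      ⟨m, Or.inr (Or.inr (Or.inr (Or.inl rfl)))⟩ (z :: v1) _ hmem
      ⟨_, Y, S1, v1, z, a, hS1T, rfl, rfl⟩
    obtain ⟨h1, hl⟩ := List.cons.inj hl
    obtain ⟨h2, hl⟩ := List.cons.inj hl
    obtain ⟨h3, hl⟩ := List.cons.inj hl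
    have h1 := U.hy.inj h1
    have h2 := U.tr.inj h2
    have h3 := U.ent.inj h3
    have h4 := ords_inj52 hl
    subst h1 h2 h3 h4
    have h5 := stem_unique hIT hS1T
    subst h5
    rw [← hy]
    exact hyM
  have hF := hfrc z hzS1
  have hzA' : ∀ x ∈ A, loS (fun x => Lv Y m (a ++ [x])) S1 v1 z < x →
      ¬ x < hiS (fun x => Lv Y m (a ++ [x])) S1 v1 z := fun x hx h1 h2 =>
    hzA ⟨hzS1, x, hx, h1, h2⟩
  generalize loS (fun x => Lv Y m (a ++ [x])) S1 v1 z = b at hb hF hzA'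
  generalize hiS (fun x => Lv Y m (a ++ [x])) S1 v1 z = c at hc hF hzA'
  -- step 3
  have hEM : U.st {S | ∃ x, b < x ∧ x < c ∧ S ∈ Lv Y m (a ++ [x])} ∈ M (z :: v1) := by
    obtain ⟨y, hyM, Y', b', c', a', hl, hy⟩ := hsat (QMid m)
      ⟨m, Or.inr (Or.inr (Or.inr (Or.inr (Or.inl rfl))))⟩ (z :: v1)
      (U.hy Y :: U.ord b :: U.ord c :: ords a) (by
        intro y hy
        rcases List.mem_cons.1 hy with rfl | hy
        · exact hYw _ hvz
        rcases List.mem_cons.1 hy with rfl | hy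
        · exact hb
        rcases List.mem_cons.1 hy with rfl | hy
        · exact hc
        exact hords _ hvz y hy)
      ⟨_, Y, b, c, a, rfl, rfl⟩
    obtain ⟨h1, hl⟩ := List.cons.inj hl
    obtain ⟨h2, hl⟩ := List.cons.inj hl
    obtain ⟨h3, hl⟩ := List.cons.inj hl
    have h1 := U.hy.inj h1
    have h2 := U.ord.inj h2
    have h3 := U.ord.inj h3
    have h4 := ords_inj52 hl
    subst h1 h2 h3 h4
    rw [← hy]
    exact hyM
  have hEop : Op {S | ∃ x, b < x ∧ x < c ∧ S ∈ Lv Y m (a ++ [x])} := by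
    rintro T ⟨x, h1, h2, h3⟩ T' hT' hTT
    exact ⟨x, h1, h2, hop x T h3 T' hT' hTT⟩
  obtain ⟨v2, hv2, S2, hS2M, hS2T, hS2b, hS2D⟩ := hgen (z :: v1) hzs _ hEop hEM
    (bel Tq (z :: v1)) (isTree_bel ⟨s0, hs0⟩ hz) (bel_mono hsub _)
  have hv2s : v2 ∈ Ts := hsub hv2.1
  have hvv2 : v <:+ v2 := hvz.trans hv2.2
  have hS2E : S2 ∈ {S | ∃ x, b < x ∧ x < c ∧ S ∈ Lv Y m (a ++ [x])} := by
    rcases hS2D with h | h
    · exact h
    · exfalso
      obtain ⟨T', hT', hT'T, hT'E⟩ := hF (bel Ts v2) ⟨v2, isT_bel hs1 hv2s⟩ (by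
        intro t ht
        have h1 : z :: v1 <:+ t := hv2.2.trans ht.2
        exact ⟨hS1b ⟨ht.1, (List.suffix_cons z v1).trans h1⟩, h1⟩)
      exact h T' hT' (hT'T.trans hS2b) hT'E
  -- step 4
  obtain ⟨x0, hx1, hx2, hx3⟩ := hS2E
  obtain ⟨y, hyM, Y', b', c', S', a', x, hl, hy, hbx, hxc, hxS⟩ := hsat (QPick m)
    ⟨m, Or.inr (Or.inr (Or.inr (Or.inr (Or.inr (Or.inl rfl)))))⟩ v2
    (U.hy Y :: U.ord b :: U.ord c :: U.tr S2 :: ords a) (by
      intro y hy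
      rcases List.mem_cons.1 hy with rfl | hy
      · exact hYw _ hvv2
      rcases List.mem_cons.1 hy with rfl | hy
      · exact hmono _ _ hv2.2 hb
      rcases List.mem_cons.1 hy with rfl | hy
      · exact hmono _ _ hv2.2 hc
      rcases List.mem_cons.1 hy with rfl | hy
      · exact hS2M
      exact hords _ hvv2 y hy)
    ⟨_, Y, b, c, S2, a, x0, rfl, rfl, hx1, hx2, hx3⟩
  obtain ⟨h1, hl⟩ := List.cons.inj hl
  obtain ⟨h2, hl⟩ := List.cons.inj hl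
  obtain ⟨h3, hl⟩ := List.cons.inj hl
  obtain ⟨h4, hl⟩ := List.cons.inj hl
  have h1 := U.hy.inj h1
  have h2 := U.ord.inj h2
  have h3 := U.ord.inj h3
  have h4 := U.tr.inj h4
  have h5 := ords_inj52 hl
  subst h1 h2 h3 h4 h5
  refine ⟨v2, hv2.1, hvv2, x, fun hxA => hzA' x hxA hbx hxc, ?_, S2, hS2M, hS2T, hS2b, hxS⟩
  rw [← hy]
  exact hyM

end Pool.Agent.Helper4.RB
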