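import Pool.Agent.Helper4.RB.Card

/-!
# Block RB-A2: stationary sets (defined by closure points of functions)

`statL_iUnion`. If no `A i` is stationary choose `g i` without nonzero closure points in `A i`; let
`g α` be an upper bound of all `g i α`, `i : ι` (`bdd_Lam`). A closure point of `g` in `⋃ A i` is a
closure point of some `g i` in `A i`; contradiction.
`statL_above`: apply the hypothesis to `α ↦ max (g α) β`: a nonzero closure point `x` is `> β`.
`statO_above`: the same in `Om1`; `statO_lim`: the same with `j ↦ max (g j) (some element > j)`.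
`exists_ladder_closed`: choose `c 0 > β`, `c (n+1) > c n` and larger than all `g α`, `α ≤ c n`
(`mk_Iio_Lam`, `bdd_Lam_set`); let `δ` be the least upper bound of the `c n` (the least element of
`Lam` which is `> c n` for all `n`; it exists by `bdd_Lam` and well-foundedness). Every `α < δ` is
`≤ c n` for some `n` by minimality of `δ`, so `α < c (n+1)` and `g α < c (n+1) < δ`.
`er_spec`: `R d l` is unbounded above `β` (`statL_above`), so by `card_unbdd` the set
`{x ∈ R d l | β < x}` has cardinality `> ℵ_ω = #Ent`, and there is an injection of `Ent` into it.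
Then `Classical.epsilon_spec`.
`ok_singleton`: `R d {x}` consists of the `β > x` with a ladder (`InjOn` on a singleton is trivial);
it is stationary by `exists_ladder_closed`.
-/

set_option autoImplicit false

namespace Pool.Agent.Helper4.RB

open Cardinal Ordinal Set

variable {d : Lam → Lam → ℕ}

theorem statL_mono {A B : Set Lam} (h : A ⊆ B) (hA : StatL A) : StatL B := by
  intro g
  obtain ⟨β, hβ, h1, h2⟩ := hA g
  exact ⟨β, h hβ, h1, h2⟩

theorem statL_iUnion {ι : Type} (h : #ι ≤ ℵ_ ω) (A : ι → Set Lam) (hA : StatL (⋃ i, A i)) :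
    ∃ i, StatL (A i) := by
  by_contra hc
  push Not at hc
  have hc' : ∀ i, ∃ g : Lam → Lam, ∀ β ∈ A i, (∃ α, α < β) → ∃ α, α < β ∧ β ≤ g α := by
    intro i
    have h1 := hc i
    unfold StatL at h1
    push Not at h1
    obtain ⟨g, hg⟩ := h1
    refine ⟨g, fun β hβ hα => ?_⟩
    obtain ⟨α, hα1, hα2⟩ := hg β hβ hα
    exact ⟨α, hα1, hα2⟩
  choose g hg using hc'
  have hb : ∀ α, ∃ γ, ∀ i, g i α < γ := fun α => bdd_Lam h (fun i => g i α)
  choose G hG using hb
  obtain ⟨β, hβ, h1, h2⟩ := hA G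
  obtain ⟨i, hi⟩ := mem_iUnion.1 hβ
  obtain ⟨α, hα1, hα2⟩ := hg i β hi h1
  exact absurd ((hG α i).trans (h2 α hα1)) (not_lt.2 hα2)

theorem statL_above {A : Set Lam} (hA : StatL A) (β : Lam) : StatL {x | x ∈ A ∧ β < x} := by
  intro g
  obtain ⟨x, hx, ⟨α, hα⟩, h2⟩ := hA (fun α => max (g α) β)
  refine ⟨x, ⟨hx, lt_of_le_of_lt (le_max_right _ _) (h2 α hα)⟩, ⟨α, hα⟩, fun α' hα' => ?_⟩
  exact lt_of_le_of_lt (le_max_left _ _) (h2 α' hα')

theorem statL_unbdd {A : Set Lam} (hA : StatL A) (β : Lam) : ∃ x ∈ A, β < x := by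
  obtain ⟨x, hx, -, -⟩ := statL_above hA β id
  exact ⟨x, hx.1, hx.2⟩

theorem statO_above {A : Set Om1} (hA : StatO A) (i : Om1) : StatO {j | j ∈ A ∧ i < j} := by
  intro g
  obtain ⟨x, hx, ⟨α, hα⟩, h2⟩ := hA (fun α => max (g α) i)
  refine ⟨x, ⟨hx, lt_of_le_of_lt (le_max_right _ _) (h2 α hα)⟩, ⟨α, hα⟩, fun α' hα' => ?_⟩
  exact lt_of_le_of_lt (le_max_left _ _) (h2 α' hα')

theorem statO_lim {A : Set Om1} (hA : StatO A) : StatO {i | i ∈ A ∧ ∀ j < i, ∃ j', j < j' ∧ j' < i} := by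
  intro g
  choose s hs using exists_gt_Om1
  obtain ⟨x, hx, ⟨α, hα⟩, h2⟩ := hA (fun α => max (g α) (s α))
  refine ⟨x, ⟨hx, fun j hj => ⟨s j, hs j, ?_⟩⟩, ⟨α, hα⟩, fun α' hα' => ?_⟩
  · exact lt_of_le_of_lt (le_max_right _ _) (h2 j hj)
  · exact lt_of_le_of_lt (le_max_left _ _) (h2 α' hα')

theorem exists_ladder_closed (g : Lam → Lam) (β : Lam) :
    ∃ δ, β < δ ∧ (∃ c, Ladder c δ) ∧ ∀ α < δ, g α < δ := by
  have hN : ∀ γ : Lam, ∃ η : Lam, γ < η ∧ ∀ α ≤ γ, g α < η := by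
    intro γ
    obtain ⟨γ', hγ'⟩ := exists_gt_Lam γ
    obtain ⟨b, hb⟩ := bdd_Lam_set (X := g '' Iio γ') (mk_image_le.trans (mk_Iio_Lam γ'))
    refine ⟨max b γ', lt_of_lt_of_le hγ' (le_max_right _ _), fun α hα => ?_⟩
    exact lt_of_lt_of_le (hb _ ⟨α, lt_of_le_of_lt hα hγ', rfl⟩) (le_max_left _ _)
  choose N hN1 hN2 using hN
  let c : ℕ → Lam := fun n => Nat.rec (N β) (fun _ x => N x) n
  have hc : ∀ n, c (n + 1) = N (c n) := fun n => rfl
  have hmono : StrictMono c := strictMono_nat_of_lt_succ fun n => by rw [hc]; exact hN1 _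
  have hS : {x : Lam | ∀ n, c n < x}.Nonempty := by
    obtain ⟨b, hb⟩ := bdd_Lam (ι := ℕ) (by
      rw [mk_nat]
      exact aleph0_le_aleph _) c
    exact ⟨b, hb⟩
  set δ : Lam := (wellFounded_lt (α := Lam)).min _ hS with hδ
  have hδ1 : ∀ n, c n < δ := (wellFounded_lt (α := Lam)).min_mem _ hS
  have hδ2 : ∀ x < δ, ∃ n, x ≤ c n := by
    intro x hx
    by_contra h
    push Not at h
    exact (wellFounded_lt (α := Lam)).not_lt_min {x : Lam | ∀ n, c n < x} (x := x) h hx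
  refine ⟨δ, (hN1 β).trans (hδ1 0), ⟨c, hmono, hδ1, fun α hα => ?_⟩, fun α hα => ?_⟩
  · obtain ⟨n, hn⟩ := hδ2 α hα
    exact ⟨n + 1, lt_of_le_of_lt hn (hmono (Nat.lt_succ_self n))⟩
  · obtain ⟨n, hn⟩ := hδ2 α hα
    exact (hN2 (c n) α hn).trans (hδ1 (n + 1))

theorem R_anti {a b : Set Lam} (h : a ⊆ b) : R d b ⊆ R d a := by
  rintro β ⟨h1, h2, h3⟩
  exact ⟨h1, fun x hx => h2 x (h hx), h3.mono h⟩

theorem ok_subset {a b : Set Lam} (h : OK d a) (hb : b ⊆ a) : OK d b := by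
  refine ⟨h.fin.subset hb, fun β hβ => ?_, statL_mono (R_anti hb) h.st⟩
  exact (h.rb β (hb hβ)).mono (inter_subset_inter_left _ hb)

theorem ok_singleton (d : Lam → Lam → ℕ) (x : Lam) : OK d {x} := by
  refine ⟨finite_singleton x, fun β _ => ?_, fun g => ?_⟩
  · exact (injOn_singleton (d β) x).mono inter_subset_left
  · obtain ⟨δ, h1, h2, h3⟩ := exists_ladder_closed g x
    refine ⟨δ, ⟨h2, fun y hy => ?_, injOn_singleton _ _⟩, ⟨x, h1⟩, h3⟩
    rw [mem_singleton_iff] at hy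
    rw [hy]; exact h1

theorem er_spec {l : List Lam} (h : StatL (R d {x | x ∈ l})) (β : Lam) :
    Function.Injective (er d l β) ∧ ∀ z, er d l β z ∈ R d {x | x ∈ l} ∧ β < er d l β z := by
  have hex : ∃ f : Ent → Lam, Function.Injective f ∧
      ∀ z, f z ∈ R d {x | x ∈ l} ∧ β < f z := by
    have h1 : ℵ_ ω < #{x | x ∈ R d {x | x ∈ l} ∧ β < x} :=
      card_unbdd (fun β' => statL_unbdd (statL_above h β) β')
    have h2 : #Ent ≤ #{x | x ∈ R d {x | x ∈ l} ∧ β < x} := by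
      rw [mk_Ent]; exact h1.le
    obtain ⟨e⟩ := (Cardinal.le_def _ _).1 h2
    exact ⟨fun z => (e z : Lam), fun z z' hz => e.injective (Subtype.ext hz),
      fun z => (e z).2⟩
  exact Classical.epsilon_spec hex

end Pool.Agent.Helper4.RB
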