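import Pool.Agent.Helper4.RB.Card

/-!
# Block RB-A4: basic facts on trees

Nodes are lists with the last entry at the head: `s <:+ u` means that `u` extends `s`; two suffixes
of the same list are comparable (`List.suffix_of_suffix_length_le`).

`mem_of_suffix`: write `u = w ++ v`; induction on `w` with `down` (as long as the node properly
extends `s` its tail is in `T`).
`exists_child`: the set of `z` with `z :: u ∈ T` has cardinality `≥ kap |u| > #Z`.
`isT_graft`: the union of `{s}` and the trees `Tz z`, `z ∈ A`. The children of `s` in it are exactly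
the `z :: s`, `z ∈ A`; a node of `Tz z` extends `z :: s`, and the children of a node `u` of `Tz z`
in the union are its children in `Tz z` (two different `z :: s` are incomparable).
`isT_prune`: `u` is in the pruned tree iff `u ∈ T` and all nodes `v` between `s` and `u` are in `G`.
Children of `u`: `{z | z :: u ∈ T}` minus `{z | z :: u ∈ T, z :: u ∉ G}`: `kap_sdiff`.
`frc_dec`: given `T' ⊆ T`, either some subtree of `T'` is in `E`, or `T' ∈ Dec E`.
-/

set_option autoImplicit false

namespace Pool.Agent.Helper4.RB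

open Cardinal Ordinal Set

variable {s s' u v : Node} {T T' : Set Node} {X Y : Set (Set Node)}

theorem bel_sub (T : Set Node) (u : Node) : bel T u ⊆ T := fun _ h => h.1

theorem bel_mono (h : T' ⊆ T) (u : Node) : bel T' u ⊆ bel T u := fun _ ht => ⟨h ht.1, ht.2⟩

theorem bel_anti (T : Set Node) (h : u <:+ v) : bel T v ⊆ bel T u := fun _ ht => ⟨ht.1, h.trans ht.2⟩

theorem bel_bel (T : Set Node) (h : u <:+ v) : bel (bel T u) v = bel T v := by
  ext t
  constructor
  · intro ht
    exact ⟨ht.1.1, ht.2⟩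
  · intro ht
    exact ⟨⟨ht.1, h.trans ht.2⟩, ht.2⟩

theorem mem_of_suffix (hT : IsT s T) (hs : s <:+ v) (hv : v <:+ u) (hu : u ∈ T) : v ∈ T := by
  obtain ⟨w, rfl⟩ := hv
  induction w with
  | nil => simpa using hu
  | cons z w ih =>
    rcases hT.down z (w ++ v) (by simpa using hu) with h | h
    · exact ih h
    · exfalso
      have h1 := hs.length_le
      have h2 := congrArg List.length h
      simp only [List.length_cons, List.length_append] at h2
      omega

theorem isT_bel (hT : IsT s T) (hu : u ∈ T) : IsT u (bel T u) := by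
  refine ⟨⟨hu, List.suffix_refl u⟩, fun t ht => ht.2, ?_, ?_⟩
  · intro z t ht
    rcases List.suffix_cons_iff.1 ht.2 with h | h
    · exact Or.inr h.symm
    · exact Or.inl ⟨mem_of_suffix hT ((hT.above u hu).trans h) (List.suffix_cons z t) ht.1, h⟩
  · intro t ht
    refine (hT.split t ht.1).trans (Cardinal.mk_le_mk_of_subset ?_)
    intro z hz
    exact ⟨hz, ht.2.trans (List.suffix_cons z t)⟩

theorem isTree_bel (hT : IsTree T) (hu : u ∈ T) : IsTree (bel T u) := by
  obtain ⟨s, hs⟩ := hT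
  exact ⟨u, isT_bel hs hu⟩

theorem bel_stem (hT : IsT s T) : bel T s = T := by
  ext t
  exact ⟨fun h => h.1, fun h => ⟨h, hT.above t h⟩⟩

theorem stem_unique (h : IsT s T) (h' : IsT s' T) : s = s' := by
  have h1 := h.above s' h'.stem
  have h2 := h'.above s h.stem
  exact h1.eq_of_length (le_antisymm h1.length_le h2.length_le)

theorem stem_suffix (h : IsT s T) (h' : IsT s' T') (hs : T' ⊆ T) : s <:+ s' := h.above s' (hs h'.stem)

theorem exists_child (hT : IsT s T) (hu : u ∈ T) {Z : Set Ent} (hZ : #Z < kap u.length) :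
    ∃ z, z :: u ∈ T ∧ z ∉ Z := by
  by_contra hcon
  push Not at hcon
  have h1 : {z : Ent | z :: u ∈ T} ⊆ Z := fun z hz => hcon z hz
  exact absurd (lt_of_le_of_lt ((hT.split u hu).trans (Cardinal.mk_le_mk_of_subset h1)) hZ)
    (lt_irrefl _)

theorem exists_len (hT : IsT s T) {n : ℕ} (hn : s.length ≤ n) : ∃ u ∈ T, u.length = n := by
  induction n, hn using Nat.le_induction with
  | base => exact ⟨s, hT.stem, rfl⟩
  | succ n hn ih =>
    obtain ⟨u, hu, hlen⟩ := ih
    obtain ⟨z, hz, -⟩ := exists_child hT hu (Z := ∅)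
      (by
        rw [Cardinal.mk_eq_zero]
        exact lt_of_lt_of_le Cardinal.aleph0_pos (aleph0_le_kap _))
    exact ⟨z :: u, hz, by simp [hlen]⟩

theorem isT_graft {A : Set Ent} (hA : kap s.length ≤ #A) (Tz : Ent → Set Node)
    (h : ∀ z ∈ A, IsT (z :: s) (Tz z)) : IsT s ({s} ∪ {u | ∃ z ∈ A, u ∈ Tz z}) := by
  refine ⟨Or.inl rfl, ?_, ?_, ?_⟩
  · rintro u (hu | ⟨z, hz, hu⟩)
    · rw [mem_singleton_iff] at hu
      rw [hu]
    · exact (List.suffix_cons z s).trans ((h z hz).above u hu)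
  · rintro z' u (hu | ⟨z, hz, hu⟩)
    · exact Or.inr hu
    · rcases (h z hz).down z' u hu with h1 | h1
      · exact Or.inl (Or.inr ⟨z, hz, h1⟩)
      · injection h1 with h2 h3
        exact Or.inl (Or.inl h3)
  · rintro u (hu | ⟨z, hz, hu⟩)
    · rw [mem_singleton_iff] at hu
      rw [hu]
      refine hA.trans (Cardinal.mk_le_mk_of_subset ?_)
      intro z hz
      exact Or.inr ⟨z, hz, (h z hz).stem⟩
    · refine ((h z hz).split u hu).trans (Cardinal.mk_le_mk_of_subset ?_)
      intro z' hz'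
      exact Or.inr ⟨z, hz, hz'⟩

theorem isT_prune (hT : IsT s T) (G : Set Node) (hs : s ∈ G)
    (hG : ∀ u ∈ T, u ∈ G → #{z : Ent | z :: u ∈ T ∧ z :: u ∉ G} < kap u.length) :
    IsT s {u | u ∈ T ∧ ∀ v, s <:+ v → v <:+ u → v ∈ G} := by
  have key : ∀ u : Node, u ∈ T → (∀ v, s <:+ v → v <:+ u → v ∈ G) → u ∈ G := fun u hu h =>
    h u (hT.above u hu) (List.suffix_refl u)
  refine ⟨⟨hT.stem, ?_⟩, fun u hu => hT.above u hu.1, ?_, ?_⟩
  · intro v h1 h2
    have : v = s := h2.eq_of_length (le_antisymm h2.length_le h1.length_le)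
    rw [this]
    exact hs
  · intro z u hu
    rcases hT.down z u hu.1 with h | h
    · exact Or.inl ⟨h, fun v h1 h2 => hu.2 v h1 (h2.trans (List.suffix_cons z u))⟩
    · exact Or.inr h
  · intro u hu
    have h1 := kap_sdiff u.length (hT.split u hu.1) (hG u hu.1 (key u hu.1 hu.2))
    refine h1.trans (Cardinal.mk_le_mk_of_subset ?_)
    rintro z ⟨hz1, hz2⟩
    refine ⟨hz1, fun v h2 h3 => ?_⟩
    rcases List.suffix_cons_iff.1 h3 with h4 | h4
    · rw [h4]
      by_contra h5
      exact hz2 ⟨hz1, h5⟩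
    · exact hu.2 v h2 h4

theorem isT_univ : IsT [] (univ : Set Node) := by
  refine ⟨mem_univ _, fun u _ => List.nil_suffix, fun z u _ => Or.inl (mem_univ _), ?_⟩
  intro u _
  have h1 : {z : Ent | z :: u ∈ (univ : Set Node)} = (univ : Set Ent) := by
    ext z
    simp only [mem_univ, setOf_true]
  rw [h1, Cardinal.mk_univ, mk_Ent]
  exact (kap_lt _).le

theorem frc_sub (h : Frc T X) (hT : T' ⊆ T) : Frc T' X := fun T'' h1 h2 => h T'' h1 (h2.trans hT)

theorem frc_mono (h : Frc T X) (hX : X ⊆ Y) : Frc T Y := by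
  intro T' h1 h2
  obtain ⟨T'', h3, h4, h5⟩ := h T' h1 h2
  exact ⟨T'', h3, h4, hX h5⟩

theorem frc_of_mem (hX : Op X) (h : T ∈ X) : Frc T X := fun T' h1 h2 =>
  ⟨T', h1, Subset.rfl, hX T h T' h1 h2⟩

theorem op_dec (h : Op X) : Op (Dec X) := by
  rintro T (hT | hT) T' h1 h2
  · exact Or.inl (h T hT T' h1 h2)
  · exact Or.inr fun S' h3 h4 => hT S' h3 (h4.trans h2)

theorem frc_dec (T : Set Node) (X : Set (Set Node)) : Frc T (Dec X) := by
  intro T' h1 h2
  by_cases hc : ∃ S, IsTree S ∧ S ⊆ T' ∧ S ∈ X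
  · obtain ⟨S, h3, h4, h5⟩ := hc
    exact ⟨S, h3, h4, Or.inl h5⟩
  · push Not at hc
    exact ⟨T', h1, Subset.rfl, Or.inr fun S' h3 h4 => hc S' h3 h4⟩

theorem unb_sub {X : Lam → Set (Set Node)} (h : Unb T X) (hT : T' ⊆ T) : Unb T' X := fun β => frc_sub (h β) hT

end Pool.Agent.Helper4.RB
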