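import Pool.Agent.Helper4.RB.Tr1

/-!
# Block RB-A5: direct extensions with a bar

`L1`. Call `u ∈ T` good if there is `T' ⊆ bel T u` with `IsT u T'` and `Bar T' X`.

(1) If `u ∈ T` and `#{z | z :: u ∈ T, z :: u good} ≥ kap |u|` then `u` is good: let `A` be this set
of `z` and `Tz z` the corresponding trees; `isT_graft` gives a tree `T'` with stem `u`. `Bar T' X`:
let `T'' ⊆ T'` be a tree with stem `t`. If `t = u` then (a child of `u` in `T''`) `T''` has a subtree
`bel T'' (z :: u)`, otherwise `t` extends some `z :: u`, `z ∈ A`; in both cases we have a tree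
`T''' ⊆ T''` with `T''' ⊆ Tz z`, so there is `v ∈ T'''` with `bel (Tz z) v ∈ X`; and
`bel T' v = bel (Tz z) v` because `v` extends `z :: u`.

(2) Suppose that `s` is not good. Let `G` be the set of the nodes of `T` which are not good. By (1),
`isT_prune` applies and gives a tree `T⁻ ⊆ T` with stem `s`. By hypothesis there is a tree `T'' ⊆ T⁻`
in `X`; let `v` be its stem. Then `v` is good (`T'' ⊆ bel T v`, `IsT v T''`, and `Bar T'' X` by
`Op X`: for `T''' ⊆ T''` with stem `w`, `bel T'' w ∈ X`). But `v ∈ T⁻` is not good.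
-/

set_option autoImplicit false

namespace Pool.Agent.Helper4.RB

open Cardinal Ordinal Set

private theorem cons_suffix_inj {z z' : Ent} {u w : Node} (h : z :: u <:+ w)
    (h' : z' :: u <:+ w) : z = z' := by
  have h1 : z :: u <:+ z' :: u := List.suffix_of_suffix_length_le h h' (by simp)
  have h2 : z :: u = z' :: u := h1.eq_of_length (by simp)
  injection h2

private def Gd (T : Set Node) (X : Set (Set Node)) (u : Node) : Prop :=
  ∃ T' ⊆ bel T u, IsT u T' ∧ Bar T' X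

private theorem gd_step {T : Set Node} {X : Set (Set Node)} {u : Node} (hu : u ∈ T)
    (h : kap u.length ≤ #{z : Ent | z :: u ∈ T ∧ Gd T X (z :: u)}) : Gd T X u := by
  classical
  have hex : ∀ z : Ent, ∃ S : Set Node, z ∈ {z : Ent | z :: u ∈ T ∧ Gd T X (z :: u)} →
      S ⊆ bel T (z :: u) ∧ IsT (z :: u) S ∧ Bar S X := by
    intro z
    by_cases hz : z ∈ {z : Ent | z :: u ∈ T ∧ Gd T X (z :: u)}
    · obtain ⟨S, h1, h2, h3⟩ := hz.2
      exact ⟨S, fun _ => ⟨h1, h2, h3⟩⟩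
    · exact ⟨∅, fun h' => absurd h' hz⟩
  choose Tz hTz using hex
  have hlen : ∀ (z : Ent) (w : Node), z :: u <:+ w → w ≠ u := by
    intro z w h1 h2
    have h3 := h1.length_le
    rw [h2] at h3
    simp at h3
  -- nodes of the union above `z :: u`
  have hmem : ∀ z ∈ {z : Ent | z :: u ∈ T ∧ Gd T X (z :: u)}, ∀ w : Node, z :: u <:+ w →
      w ∈ ({u} ∪ {t | ∃ z ∈ {z : Ent | z :: u ∈ T ∧ Gd T X (z :: u)}, t ∈ Tz z} : Set Node) →
      w ∈ Tz z := by
    intro z _ w hzw hw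
    rcases hw with hw | ⟨z', hz', hw⟩
    · exact absurd hw (hlen z w hzw)
    · have h1 : z' :: u <:+ w := (hTz z' hz').2.1.above w hw
      rw [cons_suffix_inj hzw h1]
      exact hw
  refine ⟨_, ?_, isT_graft h Tz (fun z hz => (hTz z hz).2.1), ?_⟩
  · rintro w (hw | ⟨z, hz, hw⟩)
    · rw [mem_singleton_iff] at hw
      rw [hw]
      exact ⟨hu, List.suffix_refl u⟩
    · exact bel_anti T (List.suffix_cons z u) ((hTz z hz).1 hw)
  · intro T'' hT'' hsub
    obtain ⟨t, ht⟩ := hT''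
    have hkey : ∃ z ∈ {z : Ent | z :: u ∈ T ∧ Gd T X (z :: u)}, ∃ t0 ∈ T'', z :: u <:+ t0 := by
      rcases hsub ht.stem with h1 | ⟨z, hz, h1⟩
      · rw [mem_singleton_iff] at h1
        obtain ⟨z, hz, -⟩ := exists_child ht ht.stem (Z := ∅)
          (by
            rw [Cardinal.mk_eq_zero]
            exact lt_of_lt_of_le Cardinal.aleph0_pos (aleph0_le_kap _))
        rw [h1] at hz
        rcases hsub hz with h2 | ⟨z', hz', h2⟩
        · exact absurd h2 (hlen z (z :: u) (List.suffix_refl _))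
        · exact ⟨z', hz', z :: u, hz, (hTz z' hz').2.1.above _ h2⟩
      · exact ⟨z, hz, t, ht.stem, (hTz z hz).2.1.above _ h1⟩
    obtain ⟨z, hz, t0, ht0, hzt⟩ := hkey
    have hsub' : bel T'' t0 ⊆ Tz z := fun w hw => hmem z hz w (hzt.trans hw.2) (hsub hw.1)
    obtain ⟨v, hv, hvX⟩ := (hTz z hz).2.2 (bel T'' t0) ⟨t0, isT_bel ht ht0⟩ hsub'
    refine ⟨v, hv.1, ?_⟩
    have heq : bel ({u} ∪ {t | ∃ z ∈ {z : Ent | z :: u ∈ T ∧ Gd T X (z :: u)}, t ∈ Tz z}) v
        = bel (Tz z) v := by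
      ext w
      constructor
      · intro hw
        exact ⟨hmem z hz w ((hzt.trans hv.2).trans hw.2) hw.1, hw.2⟩
      · intro hw
        exact ⟨Or.inr ⟨z, hz, hw.1⟩, hw.2⟩
    rw [heq]
    exact hvX

theorem L1 {s : Node} {T : Set Node} (hT : IsT s T) {X : Set (Set Node)} (hX : Op X)
    (h : Frc T X) : ∃ T' ⊆ T, IsT s T' ∧ Bar T' X := by
  by_contra hcon
  have hs : ¬ Gd T X s := by
    rintro ⟨T', h1, h2, h3⟩
    exact hcon ⟨T', h1.trans (bel_sub T s), h2, h3⟩
  have hpr := isT_prune hT {u | ¬ Gd T X u} hs (by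
    intro u huT hu
    by_contra hc
    rw [not_lt] at hc
    refine hu (gd_step huT (hc.trans (Cardinal.mk_le_mk_of_subset ?_)))
    rintro z ⟨h1, h2⟩
    exact ⟨h1, not_not.1 h2⟩)
  obtain ⟨T'', h1, h2, h3⟩ := h _ ⟨s, hpr⟩ (fun u hu => hu.1)
  obtain ⟨v, hv⟩ := h1
  have hvm := h2 hv.stem
  have hng : ¬ Gd T X v := hvm.2 v (hT.above v hvm.1) (List.suffix_refl v)
  refine hng ⟨T'', fun w hw => ⟨(h2 hw).1, hv.above w hw⟩, hv, ?_⟩
  intro T3 hT3 hsub
  obtain ⟨w, hw⟩ := hT3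
  exact ⟨w, hw.stem, hX T'' h3 _ ⟨w, isT_bel hv (hsub hw.stem)⟩ (bel_sub T'' w)⟩

end Pool.Agent.Helper4.RB
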