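import Pool.Agent.Helper4.RB.Tr3
import Pool.Agent.Helper4.RB.Stat1

/-!
# Block RB-A7: disjoint intervals

`SS_op`: restrict `lo`, `hi` (the same functions work for a subtree `T' ⊆ T`:
`bel T' (z :: w) ⊆ bel T (z :: w)`).

`SS_dense`. Use `fusion` with `Q w` = the set of `T''` such that there are `lo hi : Ent → Lam` with
`∀ z z', z :: w ∈ T'' → z' :: w ∈ T'' → z ≠ z' → hi z ≤ lo z' ∨ hi z' ≤ lo z` and
`∀ z, z :: w ∈ T'' → Frc (bel T'' (z :: w)) {S | ∃ x, lo z < x ∧ x < hi z ∧ S ∈ X x}`.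
This is closed under direct extensions. Density: let `IsT w T1`, `T1 ⊆ T`, so `Unb T1 X`. For every
`β` and every `z` with `z :: w ∈ T1` apply `L2` to `bel T1 (z :: w)` and
`N γ = {S | ∃ x, β < x ∧ x < γ ∧ S ∈ X x}` (dense below by `Unb`: `{S | ∃ x, β < x ∧ S ∈ X x}`, and some
`γ > x` exists): there are `T2 β z ⊆ bel T1 (z :: w)` with stem `z :: w` and `γ β z` with
`Frc (T2 β z) (N (γ β z))`. Let `g β` be an upper bound of the `γ β z`, `z : Ent` (`bdd_Lam`). The set
`C` of the closure points of `g` (`∀ α < β, g α < β`) is unbounded in `Lam` (`exists_ladder_closed`), so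
there is an injection `e : Ent → C` (`card_unbdd`, `mk_Ent`). Let `lo z = e z`, `hi z = g (e z)`: if
`e z < e z'` then `hi z = g (e z) < e z' = lo z'`. Let `T''` be the tree obtained from the
`T2 (e z) z` by `isT_graft` (`A = {z | z :: w ∈ T1}`); `bel T'' (z :: w) = T2 (e z) z`.
Finally choose `lo w`, `hi w` for every node `w` of the tree given by `fusion`
(`bel T' w ∈ Q w`, and `bel (bel T' w) (z :: w) = bel T' (z :: w)`).
-/

set_option autoImplicit false

namespace Pool.Agent.Helper4.RB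

open Cardinal Ordinal Set

theorem SS_op (X : Lam → Set (Set Node)) : Op (SS X) := by
  rintro T ⟨lo, hi, h⟩ T' _ hT'
  refine ⟨lo, hi, fun w hw => ?_⟩
  obtain ⟨h1, h2⟩ := h w (hT' hw)
  exact ⟨fun z z' hz hz' hne => h1 z z' (hT' hz) (hT' hz') hne,
    fun z hz => frc_sub (h2 z (hT' hz)) (bel_mono hT' _)⟩

private theorem suffix_cons_eq {u v : Node} {z z' : Ent} (h : z :: u <:+ v) (h' : z' :: u <:+ v) :
    z = z' := by
  have h1 : z :: u <:+ z' :: u := List.suffix_of_suffix_length_le h h' (by simp)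
  have h2 := h1.eq_of_length (by simp)
  exact (List.cons.inj h2).1

theorem SS_dense {s : Node} {T : Set Node} (hT : IsT s T) {X : Lam → Set (Set Node)}
    (hX : ∀ x, Op (X x)) (h : Unb T X) : ∃ T' ⊆ T, IsT s T' ∧ T' ∈ SS X := by
  obtain ⟨T', hT', hs, hQ⟩ := fusion hT
    (fun w => {T'' | ∃ lo hi : Ent → Lam,
      (∀ z z', z :: w ∈ T'' → z' :: w ∈ T'' → z ≠ z' → hi z ≤ lo z' ∨ hi z' ≤ lo z) ∧
      ∀ z, z :: w ∈ T'' → Frc (bel T'' (z :: w)) {S | ∃ x, lo z < x ∧ x < hi z ∧ S ∈ X x}})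
    (by
      intro u T1 hT1 hT1T
      have hU : Unb T1 X := unb_sub h hT1T
      have hu : u ∈ T1 := hT1.stem
      have key : ∀ (β : Lam) (z : Ent), ∃ (T2 : Set Node) (γ : Lam), z :: u ∈ T1 →
          T2 ⊆ bel T1 (z :: u) ∧ IsT (z :: u) T2 ∧
          Frc T2 {S | ∃ x, β < x ∧ x < γ ∧ S ∈ X x} := by
        intro β z
        by_cases hz : z :: u ∈ T1
        · obtain ⟨T2, h1, γ, h2, h3⟩ := L2 (isT_bel hT1 hz)
            (fun γ => {S | ∃ x, β < x ∧ x < γ ∧ S ∈ X x})
            (by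
              rintro γ S ⟨x, h1, h2, h3⟩ S' hS' hSS
              exact ⟨x, h1, h2, hX x S h3 S' hS' hSS⟩)
            (by
              rintro γ γ' hγ S ⟨x, h1, h2, h3⟩
              exact ⟨x, h1, lt_of_lt_of_le h2 hγ, h3⟩)
            (by
              refine frc_mono (frc_sub (hU β) (bel_sub T1 _)) ?_
              rintro S ⟨x, h1, h2⟩
              obtain ⟨γ, hγ⟩ := exists_gt_Lam x
              exact ⟨γ, x, h1, hγ, h2⟩)
          exact ⟨T2, γ, fun _ => ⟨h1, h2, h3⟩⟩
        · obtain ⟨γ⟩ : Nonempty Lam := inferInstance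
          exact ⟨∅, γ, fun h => absurd h hz⟩
      choose T2 γ h2 using key
      have hg : ∀ β, ∃ β', ∀ z, γ β z < β' := fun β => bdd_Lam (by rw [mk_Ent]) (γ β)
      choose g hg using hg
      obtain ⟨e⟩ : Nonempty (Ent ↪ {β : Lam | ∀ α < β, g α < β}) := by
        have h3 : ℵ_ ω < #{β : Lam | ∀ α < β, g α < β} := by
          apply card_unbdd
          intro β
          obtain ⟨δ, h4, _, h5⟩ := exists_ladder_closed g β
          exact ⟨δ, h5, h4⟩
        have h4 : #Ent ≤ #{β : Lam | ∀ α < β, g α < β} := by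
          rw [mk_Ent]
          exact h3.le
        exact h4
      have hkap : kap u.length ≤ #{z : Ent | z :: u ∈ T1} := hT1.split u hu
      have hG := isT_graft hkap (fun z => T2 (e z) z) (fun z hz => (h2 (e z) z hz).2.1)
      have hch : ∀ z v, z :: u <:+ v →
          v ∈ ({u} ∪ {v | ∃ z ∈ {z : Ent | z :: u ∈ T1}, v ∈ T2 (e z) z} : Set Node) →
          z :: u ∈ T1 ∧ v ∈ T2 (e z) z := by
        rintro z v hv (hv' | ⟨z', hz', hv'⟩)
        · exfalso
          rw [mem_singleton_iff] at hv'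
          rw [hv'] at hv
          have := hv.length_le
          simp at this
        · have h3 := (h2 (e z') z' hz').2.1.above v hv'
          have h4 := suffix_cons_eq hv h3
          subst h4
          exact ⟨hz', hv'⟩
      refine ⟨_, ?_, hG, fun z => e z, fun z => g (e z), ?_, ?_⟩
      · rintro v (hv | ⟨z, hz, hv⟩)
        · rw [mem_singleton_iff] at hv
          rw [hv]
          exact hu
        · exact bel_sub T1 _ ((h2 (e z) z hz).1 hv)
      · intro z z' _ _ hne
        rcases lt_or_gt_of_ne (fun h3 : ((e z : Lam)) = e z' => hne (e.injective (Subtype.ext h3)))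
          with h3 | h3
        · exact Or.inl ((e z').2 _ h3).le
        · exact Or.inr ((e z).2 _ h3).le
      · intro z hz
        obtain ⟨h3, _⟩ := hch z _ (List.suffix_refl _) hz
        refine frc_mono (frc_sub (h2 (e z) z h3).2.2 ?_) ?_
        · rintro v ⟨hv1, hv2⟩
          exact (hch z v hv2 hv1).2
        · rintro S ⟨x, h4, h5, h6⟩
          exact ⟨x, h4, h5.trans (hg _ _), h6⟩)
    (by
      rintro u T1 T2 _ _ h21 ⟨lo, hi, h1, h2⟩
      exact ⟨lo, hi, fun z z' hz hz' hne => h1 z z' (h21 hz) (h21 hz') hne,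
        fun z hz => frc_sub (h2 z (h21 hz)) (bel_mono h21 _)⟩)
  have hQ' : ∀ w : Node, ∃ lo hi : Ent → Lam, w ∈ T' →
      (∀ z z', z :: w ∈ bel T' w → z' :: w ∈ bel T' w → z ≠ z' → hi z ≤ lo z' ∨ hi z' ≤ lo z) ∧
      ∀ z, z :: w ∈ bel T' w →
        Frc (bel (bel T' w) (z :: w)) {S | ∃ x, lo z < x ∧ x < hi z ∧ S ∈ X x} := by
    intro w
    by_cases hw : w ∈ T'
    · obtain ⟨lo, hi, h1⟩ := hQ w hw
      exact ⟨lo, hi, fun _ => h1⟩
    · obtain ⟨γ⟩ : Nonempty Lam := inferInstance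
      exact ⟨fun _ => γ, fun _ => γ, fun h => absurd h hw⟩
  choose lo hi hlh using hQ'
  refine ⟨T', hT', hs, lo, hi, fun w hw => ?_⟩
  obtain ⟨h1, h2⟩ := hlh w hw
  have hin : ∀ z, z :: w ∈ T' → z :: w ∈ bel T' w := fun z hz => ⟨hz, List.suffix_cons z w⟩
  refine ⟨fun z z' hz hz' hne => h1 z z' (hin z hz) (hin z' hz') hne, fun z hz => ?_⟩
  have h3 := h2 z (hin z hz)
  rw [bel_bel T' (List.suffix_cons z w)] at h3
  exact h3

end Pool.Agent.Helper4.RB
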